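import Pool.Agent.Work.MP_dc7914_al.Nil

/-!
# The central characters as ring homomorphisms
-/

set_option linter.unusedSectionVars false

open Module Representation MonoidAlgebra

namespace Pool.Agent.DC7914

section Finite

variable {G : Type*} [Group G] [Finite G]

theorem irr_linearIndependent :
    LinearIndependent ℂ (fun χ : {χ : G → ℂ // IsIrrChar χ} => χ.1) := by
  have := Fintype.ofFinite G
  rw [linearIndependent_iff']
  intro s c hc χ hχ
  have h1 : ∑ g, (∑ ψ ∈ s, c ψ • ψ.1) g * χ.1 g⁻¹ = 0 := by rw [hc]; simp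
  have h2 : ∑ g, (∑ ψ ∈ s, c ψ • ψ.1) g * χ.1 g⁻¹ = ∑ ψ ∈ s, c ψ * ∑ g, ψ.1 g * χ.1 g⁻¹ := by
    simp only [Finset.sum_apply, Pi.smul_apply, smul_eq_mul, Finset.sum_mul, Finset.mul_sum]
    rw [Finset.sum_comm]
    simp only [mul_assoc]
  rw [h2] at h1
  classical
  have h3 : ∀ ψ ∈ s, c ψ * ∑ g, ψ.1 g * χ.1 g⁻¹ = if ψ = χ then c χ * Nat.card G else 0 := by
    intro ψ _
    rw [ψ.2.orthonormal χ.2]
    by_cases h : ψ = χ
    · subst h; simp
    · rw [if_neg h, if_neg (fun h' => h (Subtype.ext h')), mul_zero]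
  rw [Finset.sum_congr rfl h3, Finset.sum_ite_eq' s χ, if_pos hχ] at h1
  have hG : (Nat.card G : ℂ) ≠ 0 := by exact_mod_cast Nat.card_pos.ne'
  exact (mul_eq_zero.1 h1).resolve_right hG

theorem irr_finite : {χ : G → ℂ | IsIrrChar χ}.Finite := by
  have := Fintype.ofFinite G
  have h : Finite {χ : G → ℂ // IsIrrChar χ} := (irr_linearIndependent (G := G)).finite
  exact Set.finite_coe_iff.1 h

theorem op_eq_zero_aux [Fintype G] (f : G → ℂ) (hf : IsClassFn f)
    (h0 : ∀ θ, IsIrrChar θ → om θ f = 0) (n : ℕ) :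
    ∀ {V : Type*} [AddCommGroup V] [Module ℂ V] [FiniteDimensional ℂ V]
    (ρ : Representation ℂ G V), finrank ℂ V = n → op ρ f = 0 := by
  induction n using Nat.strong_induction_on with
  | _ n ih =>
    intro V _ _ _ ρ hn
    by_cases hV : Nontrivial V
    swap
    · have hV' : Subsingleton V := not_nontrivial_iff_subsingleton.1 hV
      exact Subsingleton.elim _ _
    by_cases hρ : ρ.IsIrreducible
    · have h1 := op_eq_smul ρ hρ f (op_comm_of_class ρ f hf)
      have h2 := h0 _ (isIrrChar_of_rep ρ hρ)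
      rw [om] at h2
      rw [h1, h2, zero_smul]
    · rw [irreducible_iff] at hρ
      push Not at hρ
      obtain ⟨U, hU, hU0, hU1⟩ := hρ hV
      have hG : NeZero (Nat.card G : ℂ) := ⟨by exact_mod_cast Nat.card_pos.ne'⟩
      obtain ⟨S', hS'⟩ := exists_isCompl (⟨U, fun g v hv => hU g v hv⟩ : Subrepresentation ρ)
      obtain ⟨U', hUU⟩ : ∃ U' : Submodule ℂ V, U' = S'.toSubmodule := ⟨_, rfl⟩
      have hU' : ∀ g, ∀ v ∈ U', ρ g v ∈ U' := by
        intro g v hv
        rw [hUU] at hv ⊢
        exact S'.apply_mem_toSubmodule g hv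
      have hc : IsCompl U U' := by
        rw [isCompl_iff, disjoint_iff, codisjoint_iff] at hS' ⊢
        constructor
        · have := congrArg Subrepresentation.toSubmodule hS'.1
          rw [hUU]
          exact this
        · have := congrArg Subrepresentation.toSubmodule hS'.2
          rw [hUU]
          exact this
      have hlt : finrank ℂ U < n := by
        rw [← hn]
        exact Submodule.finrank_lt hU1
      have hU'1 : U' ≠ ⊤ := by
        rintro rfl
        exact hU0 (hc.disjoint.eq_bot_of_le le_top)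
      have hlt' : finrank ℂ U' < n := by
        rw [← hn]
        exact Submodule.finrank_lt hU'1
      have i1 := ih _ hlt (subRep ρ U hU) rfl
      have i2 := ih _ hlt' (subRep ρ U' hU') rfl
      ext v
      have hv : v ∈ U ⊔ U' := by rw [hc.sup_eq_top]; trivial
      obtain ⟨u, hu, u', hu', rfl⟩ := Submodule.mem_sup.1 hv
      rw [map_add]
      have e1 := op_subRep ρ U hU f ⟨u, hu⟩
      have e2 := op_subRep ρ U' hU' f ⟨u', hu'⟩
      rw [i1] at e1
      rw [i2] at e2
      simp only [LinearMap.zero_apply, ZeroMemClass.coe_zero] at e1 e2 ⊢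
      rw [← e1, ← e2, add_zero]

/-- the regular representation on functions -/
noncomputable def regRep (G : Type*) [Group G] : Representation ℂ G (G → ℂ) where
  toFun g :=
    { toFun := fun φ h => φ (h * g)
      map_add' := fun _ _ => rfl
      map_smul' := fun _ _ => rfl }
  map_one' := by ext; simp
  map_mul' x y := by
    ext φ h
    simp [mul_assoc]

theorem class_eq_zero [Fintype G] (f : G → ℂ) (hf : IsClassFn f)
    (h0 : ∀ θ, IsIrrChar θ → om θ f = 0) : f = 0 := by
  classical
  have h1 := op_eq_zero_aux f hf h0 _ (regRep G) rfl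
  ext h
  have h2 := congrFun (LinearMap.congr_fun h1 (fun x => if x = 1 then 1 else 0)) h⁻¹
  have h3 : (op (regRep G) f (fun x => if x = 1 then (1 : ℂ) else 0)) h⁻¹ =
      ∑ g, f g * (if h⁻¹ * g = 1 then 1 else 0) := by
    simp [op, LinearMap.sum_apply, regRep, Finset.sum_apply]
  rw [h3] at h2
  have h4 : ∀ g, (f g * (if h⁻¹ * g = 1 then (1 : ℂ) else 0)) = if g = h then f h else 0 := by
    intro g
    have : h⁻¹ * g = 1 ↔ g = h := by rw [inv_mul_eq_one, eq_comm]
    simp only [this]
    split_ifs with h5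
    · rw [h5, mul_one]
    · rw [mul_zero]
  simp only [h4] at h2
  simpa using h2

end Finite

section CentralHom

variable {N : Type*} [Group N] [Fintype N]
variable {V : Type*} [AddCommGroup V] [Module ℂ V] [FiniteDimensional ℂ V]

/-- The action of the integral group ring. -/
noncomputable def repR (ρ : Representation ℂ N V) :
    MonoidAlgebra (integralClosure ℤ ℂ) N →+* End ℂ V :=
  (ρ.asAlgebraHom : MonoidAlgebra ℂ N →+* End ℂ V).comp
    (mapRingHom N (algebraMap (integralClosure ℤ ℂ) ℂ))

/-- the coefficient function -/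
noncomputable def cf (w : MonoidAlgebra (integralClosure ℤ ℂ) N) (g : N) : ℂ :=
  ((w.coeff g : integralClosure ℤ ℂ) : ℂ)

theorem isIntegral_cf (w : MonoidAlgebra (integralClosure ℤ ℂ) N) (g : N) :
    IsIntegral ℤ (cf w g) := (w.coeff g).2

theorem cf_add (w w' : MonoidAlgebra (integralClosure ℤ ℂ) N) :
    cf (w + w') = fun g => cf w g + cf w' g := by
  ext g; simp [cf]

theorem repR_eq_op (ρ : Representation ℂ N V) (w : MonoidAlgebra (integralClosure ℤ ℂ) N) :
    repR ρ w = op ρ (cf w) := by
  classical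
  induction w using MonoidAlgebra.induction_linear with
  | zero => simp [op, cf]
  | add y z hy hz =>
    rw [map_add, hy, hz, cf_add]
    simp only [op, add_smul, Finset.sum_add_distrib]
  | single g r =>
    have h1 : repR ρ (single g r) = (r : ℂ) • ρ g := by
      simp only [repR, RingHom.comp_apply, mapRingHom_single]
      exact Representation.asAlgebraHom_single ρ g _
    rw [h1, op]
    have h2 : ∀ h, cf (single g r) h • ρ h = if h = g then (r : ℂ) • ρ g else 0 := by
      intro h
      simp only [cf, coeff_single, Finsupp.single_apply]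
      split_ifs with h3 h4 h4
      · rw [h3]
      · exact absurd h3.symm h4
      · exact absurd h4.symm h3
      · simp
    simp only [h2]
    simp

theorem isClassFn_cf (w : MonoidAlgebra (integralClosure ℤ ℂ) N) (hw : ∀ y, w * y = y * w) :
    IsClassFn (cf w) := by
  intro g x
  have h1 := congrArg (fun u => u.coeff (x * g)) (hw (single x 1))
  rw [coeff_mul_single_eq_coeff_mul (m₁ := x * g) (m₂ := x * g * x⁻¹),
    coeff_single_mul_eq_mul_coeff (m₁ := x * g) (m₂ := g)] at h1
  · simp only [mul_one, one_mul] at h1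
    rw [cf, cf, h1]
  · intro m _; exact mul_right_inj x
  · intro m _; exact ⟨fun h => by rw [← h]; group, fun h => by rw [h]; group⟩

theorem repR_eq_smul {ρ : Representation ℂ N V} (hρ : ρ.IsIrreducible)
    (w : MonoidAlgebra (integralClosure ℤ ℂ) N) (hw : ∀ y, w * y = y * w) :
    repR ρ w = om ρ.character (cf w) • (1 : End ℂ V) := by
  rw [repR_eq_op, om]
  exact op_eq_smul ρ hρ _ (op_comm_of_class ρ _ (isClassFn_cf w hw))

theorem smul_one_inj [Nontrivial V] {a b : ℂ}
    (h : a • (1 : End ℂ V) = b • (1 : End ℂ V)) : a = b := by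
  have h1 : (a - b) • (1 : End ℂ V) = 0 := by rw [sub_smul, h, sub_self]
  exact sub_eq_zero.1 ((smul_eq_zero.1 h1).resolve_right one_ne_zero)

theorem mem_center_iff' {R : Type*} [Ring R] {w : R} :
    w ∈ Subring.center R ↔ ∀ y, w * y = y * w := by
  rw [Subring.mem_center_iff]
  exact ⟨fun h y => (h y).symm, fun h y => (h y).symm⟩

/-- The central character as a ring homomorphism. -/
noncomputable def omHom {χ : N → ℂ} (hχ : IsIrrChar χ) :
    Subring.center (MonoidAlgebra (integralClosure ℤ ℂ) N) →+* ℂ where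
  toFun w := om χ (cf w.1)
  map_one' := by
    obtain ⟨n, ρ, hρ, rfl⟩ := hχ
    have := nontrivial_of_irr hρ
    apply smul_one_inj (V := Fin n → ℂ)
    rw [← repR_eq_smul hρ _ (mem_center_iff'.1 (Subtype.mem _))]
    simp
  map_mul' w w' := by
    obtain ⟨n, ρ, hρ, rfl⟩ := hχ
    have := nontrivial_of_irr hρ
    apply smul_one_inj (V := Fin n → ℂ)
    rw [← repR_eq_smul hρ _ (mem_center_iff'.1 (Subtype.mem _))]
    rw [Subring.coe_mul, map_mul, repR_eq_smul hρ _ (mem_center_iff'.1 w.2),
      repR_eq_smul hρ _ (mem_center_iff'.1 w'.2), smul_mul_smul_comm, one_mul]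
  map_zero' := by
    simp [om, cf]
  map_add' w w' := by
    rw [Subring.coe_add, cf_add, om_add]

theorem omHom_apply {χ : N → ℂ} (hχ : IsIrrChar χ)
    (w : Subring.center (MonoidAlgebra (integralClosure ℤ ℂ) N)) :
    omHom hχ w = om χ (cf w.1) := rfl

theorem isIntegral_omHom {χ : N → ℂ} (hχ : IsIrrChar χ)
    (w : Subring.center (MonoidAlgebra (integralClosure ℤ ℂ) N)) :
    IsIntegral ℤ (omHom hχ w) :=
  isIntegral_om hχ (isClassFn_cf _ (mem_center_iff'.1 w.2)) (isIntegral_cf _)

theorem red_pow (M : Ideal (integralClosure ℤ ℂ)) {x : ℂ} (hx : IsIntegral ℤ x) (n : ℕ) :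
    red M (x ^ n) = red M x ^ n := by
  induction n with
  | zero => simp [red_one]
  | succ n ih => rw [pow_succ, red_mul M (hx.pow n) hx, ih, pow_succ]

/-- If the reduction of a central element is nilpotent, it is in the kernel of every central
character mod `M`. -/
theorem red_omHom_eq_zero (M : Ideal (integralClosure ℤ ℂ)) (hM : M.IsPrime)
    {χ : N → ℂ} (hχ : IsIrrChar χ)
    (w : Subring.center (MonoidAlgebra (integralClosure ℤ ℂ) N)) {m : ℕ} (hm : 0 < m)
    (hw : (mapRingHom N (Ideal.Quotient.mk M) w.1) ^ m = 0) :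
    red M (omHom hχ w) = 0 := by
  have h1 : red M (omHom hχ (w ^ m)) = 0 := by
    rw [omHom_apply]
    apply red_om_eq_zero M hχ (isClassFn_cf _ (mem_center_iff'.1 (w ^ m).2)) (isIntegral_cf _)
    intro g
    left
    rw [cf, red_of M _ ((w ^ m).1.coeff g).2]
    rw [← map_pow] at hw
    have h2 := congrArg (fun u => u.coeff g) hw
    simp only [coeff_mapRingHom] at h2
    simpa using h2
  rw [map_pow, red_pow M (isIntegral_omHom hχ w)] at h1
  have := Ideal.Quotient.isDomain M
  exact pow_eq_zero_iff hm.ne' |>.1 h1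

end CentralHom

end Pool.Agent.DC7914
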