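import Pool.Agent.Work.MP_dc7914_al.Defs

/-!
# Basic facts on complex characters of finite groups
-/

set_option linter.unusedSectionVars false

open Module Representation

namespace Pool.Agent.DC7914

section Trace

variable {V : Type*} [AddCommGroup V] [Module ℂ V] [FiniteDimensional ℂ V]

/-- If `A ^ (n+1) = A`, the trace of `A` is an algebraic integer. -/
theorem isIntegral_trace_of_pow (A : End ℂ V) {n : ℕ} (hn : 0 < n) (hA : A ^ (n + 1) = A) :
    IsIntegral ℤ (LinearMap.trace ℂ V A) := by
  rw [End.trace_eq_sum_roots_charpoly_of_splits (IsAlgClosed.splits _)]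
  apply IsIntegral.multiset_sum
  intro μ hμ
  have h1 : A.charpoly.IsRoot μ := Polynomial.isRoot_of_mem_roots hμ
  have h2 : A.HasEigenvalue μ := (End.hasEigenvalue_iff_isRoot_charpoly A μ).2 h1
  obtain ⟨v, hv⟩ := h2.exists_hasEigenvector
  have h3 : (A ^ (n + 1)) v = μ ^ (n + 1) • v := hv.pow_apply (n + 1)
  rw [hA, hv.apply_eq_smul] at h3
  have h4 : (μ - μ ^ (n + 1)) • v = 0 := by rw [sub_smul, h3, sub_self]
  have h5 : μ - μ ^ (n + 1) = 0 := (smul_eq_zero.1 h4).resolve_right hv.2
  refine ⟨Polynomial.X ^ (n + 1) - Polynomial.X, ?_, ?_⟩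
  · exact Polynomial.monic_X_pow_sub (by
      rw [Polynomial.degree_X]; exact_mod_cast (by omega : 1 < n + 1))
  · simp only [Polynomial.eval₂_sub, Polynomial.eval₂_pow, Polynomial.eval₂_X]
    linear_combination -h5

end Trace

section Rep

variable {G : Type*} [Group G]
variable {V : Type*} [AddCommGroup V] [Module ℂ V]
variable {W : Type*} [AddCommGroup W] [Module ℂ W]

theorem irreducible_iff (ρ : Representation ℂ G V) :
    ρ.IsIrreducible ↔ Nontrivial V ∧
      ∀ U : Submodule ℂ V, (∀ g, ∀ v ∈ U, ρ g v ∈ U) → U = ⊥ ∨ U = ⊤ := by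
  constructor
  · intro h
    constructor
    · by_contra hn
      rw [not_nontrivial_iff_subsingleton] at hn
      have h1 : (⊥ : Subrepresentation ρ) ≠ ⊤ := bot_ne_top
      apply h1
      apply Subrepresentation.toSubmodule_injective
      exact Subsingleton.elim _ _
    · intro U hU
      let S : Subrepresentation ρ := ⟨U, fun g v hv => hU g v hv⟩
      rcases eq_bot_or_eq_top S with h1 | h1
      · left; exact congrArg Subrepresentation.toSubmodule h1
      · right; exact congrArg Subrepresentation.toSubmodule h1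
  · rintro ⟨h1, h2⟩
    have : Nontrivial (Subrepresentation ρ) := by
      refine ⟨⟨⊥, ⊤, fun h => ?_⟩⟩
      have h3 : (⊥ : Submodule ℂ V) = ⊤ := congrArg Subrepresentation.toSubmodule h
      exact bot_ne_top h3
    refine ⟨fun S => ?_⟩
    rcases h2 S.toSubmodule (fun g v hv => S.apply_mem_toSubmodule g hv) with h | h
    · left; exact Subrepresentation.toSubmodule_injective h
    · right; exact Subrepresentation.toSubmodule_injective h

theorem nontrivial_of_irr {ρ : Representation ℂ G V} (h : ρ.IsIrreducible) :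
    Nontrivial V := ((irreducible_iff ρ).1 h).1

variable [FiniteDimensional ℂ V] [FiniteDimensional ℂ W]
variable (ρ : Representation ℂ G V)

theorem isIntegral_character [Finite G] (g : G) : IsIntegral ℤ (ρ.character g) := by
  have hn : 0 < Nat.card G := Nat.card_pos
  apply isIntegral_trace_of_pow (ρ g) hn
  rw [pow_succ, ← map_pow, pow_card_eq_one', map_one, one_mul]

/-- Schur's lemma. -/
theorem schur (hρ : ρ.IsIrreducible) (A : End ℂ V) (hA : ∀ g, A * ρ g = ρ g * A) :
    ∃ c : ℂ, A = c • (1 : End ℂ V) := by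
  have := nontrivial_of_irr hρ
  obtain ⟨c, hc⟩ := Module.End.exists_eigenvalue A
  refine ⟨c, ?_⟩
  have h1 := ((irreducible_iff ρ).1 hρ).2 (Module.End.eigenspace A c) (by
    intro g v hv
    rw [Module.End.mem_eigenspace_iff] at hv ⊢
    have h2 : A (ρ g v) = ρ g (A v) := LinearMap.congr_fun (hA g) v
    rw [h2, hv, map_smul])
  rcases h1 with h1 | h1
  · exact absurd h1 hc
  · ext v
    have hv : v ∈ Module.End.eigenspace A c := by rw [h1]; trivial
    rw [Module.End.mem_eigenspace_iff] at hv
    rw [hv]; simp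

/-- Every irreducible representation, transported to `Fin n → ℂ`. -/
theorem exists_fin_rep (hρ : ρ.IsIrreducible) :
    ∃ (n : ℕ) (σ : Representation ℂ G (Fin n → ℂ)), σ.IsIrreducible ∧ ρ.character = σ.character := by
  let e : V ≃ₗ[ℂ] (Fin (finrank ℂ V) → ℂ) := (Module.finBasis ℂ V).equivFun
  let σ : Representation ℂ G (Fin (finrank ℂ V) → ℂ) :=
    { toFun := fun g => e.conj (ρ g)
      map_one' := by rw [map_one]; ext; simp
      map_mul' := fun g h => by rw [map_mul]; ext; simp [LinearEquiv.conj_apply] }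
  refine ⟨finrank ℂ V, σ, ?_, ?_⟩
  · rw [irreducible_iff] at hρ ⊢
    obtain ⟨h1, h2⟩ := hρ
    refine ⟨e.toEquiv.symm.nontrivial, fun U hU => ?_⟩
    rcases h2 (U.comap e.toLinearMap) (by
      intro g v hv
      have := hU g (e v) hv
      simpa [σ, LinearEquiv.conj_apply] using this) with h3 | h3
    · left
      rw [eq_bot_iff]
      intro u hu
      have : e.symm u ∈ U.comap e.toLinearMap := by simpa using hu
      rw [h3, Submodule.mem_bot] at this
      simpa using this
    · right
      rw [eq_top_iff]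
      intro u _
      have : e.symm u ∈ U.comap e.toLinearMap := by rw [h3]; trivial
      simpa using this
  · ext g
    exact (LinearMap.trace_conj' (ρ g) e).symm

end Rep

section Chars

variable {G : Type*} [Group G]
variable {V : Type*} [AddCommGroup V] [Module ℂ V] [FiniteDimensional ℂ V]

theorem isIrrChar_of_rep (ρ : Representation ℂ G V) (hρ : ρ.IsIrreducible) :
    IsIrrChar ρ.character := exists_fin_rep ρ hρ

theorem IsIrrChar.integral [Finite G] {χ : G → ℂ} (h : IsIrrChar χ) (g : G) :
    IsIntegral ℤ (χ g) := by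
  obtain ⟨n, ρ, -, rfl⟩ := h
  exact isIntegral_character ρ g

theorem IsIrrChar.conj {χ : G → ℂ} (h : IsIrrChar χ) (g x : G) : χ (x * g * x⁻¹) = χ g := by
  obtain ⟨n, ρ, -, rfl⟩ := h
  exact char_conj ρ g x

theorem IsIrrChar.mul_comm {χ : G → ℂ} (h : IsIrrChar χ) (g x : G) : χ (x * g) = χ (g * x) := by
  obtain ⟨n, ρ, -, rfl⟩ := h
  exact char_mul_comm ρ g x

theorem IsIrrChar.degree {χ : G → ℂ} (h : IsIrrChar χ) : ∃ n : ℕ, 0 < n ∧ χ 1 = n := by
  obtain ⟨n, ρ, hρ, rfl⟩ := h
  refine ⟨finrank ℂ (Fin n → ℂ), ?_, char_one ρ⟩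
  have := nontrivial_of_irr hρ
  exact Module.finrank_pos

theorem IsIrrChar.one_ne_zero {χ : G → ℂ} (h : IsIrrChar χ) : χ 1 ≠ 0 := by
  obtain ⟨n, hn, h1⟩ := h.degree
  rw [h1]
  exact_mod_cast hn.ne'

/-- Orthonormality of irreducible characters. -/
theorem IsIrrChar.orthonormal [Fintype G] {χ ψ : G → ℂ} (hχ : IsIrrChar χ) (hψ : IsIrrChar ψ) :
    ∑ g, χ g * ψ g⁻¹ = if χ = ψ then (Nat.card G : ℂ) else 0 := by
  obtain ⟨n, ρ, hρ, rfl⟩ := hχ
  obtain ⟨m, σ, hσ, rfl⟩ := hψ
  have hG : (Nat.card G : ℂ) ≠ 0 := by exact_mod_cast Nat.card_pos.ne'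
  have : Invertible (Nat.card G : ℂ) := invertibleOfNonzero hG
  have := hρ
  have := hσ
  have h1 := char_orthonormal ρ σ
  have h2 := char_orthonormal ρ ρ
  have h3 : Nonempty (Representation.Equiv ρ ρ) := ⟨Representation.Equiv.refl ρ⟩
  rw [if_pos h3] at h2
  split_ifs with h
  · rw [← h]
    field_simp at h2
    simpa using h2
  · have h4 : ¬ Nonempty (Representation.Equiv σ ρ) := by
      rintro ⟨φ⟩
      exact h (char_iso φ).symm
    rw [if_neg h4] at h1
    field_simp at h1
    simpa using h1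

end Chars

section Op

variable {G : Type*} [Group G] [Fintype G]
variable {V : Type*} [AddCommGroup V] [Module ℂ V] [FiniteDimensional ℂ V]
variable (ρ : Representation ℂ G V)

/-- The operator `∑ f(g) ρ(g)`. -/
noncomputable def op (f : G → ℂ) : End ℂ V := ∑ g, f g • ρ g

theorem trace_op (f : G → ℂ) : LinearMap.trace ℂ V (op ρ f) = ∑ g, f g * ρ.character g := by
  simp [op, Representation.character]

theorem trace_op_mul (f : G → ℂ) (h : G) :
    LinearMap.trace ℂ V (op ρ f * ρ h) = ∑ g, f g * ρ.character (g * h) := by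
  simp [op, Representation.character, Finset.sum_mul]

/-- A central element acts as a scalar. -/
theorem op_eq_smul (hρ : ρ.IsIrreducible) (f : G → ℂ)
    (hf : ∀ g, op ρ f * ρ g = ρ g * op ρ f) :
    op ρ f = ((∑ g, f g * ρ.character g) / ρ.character 1) • (1 : End ℂ V) := by
  obtain ⟨c, hc⟩ := schur ρ hρ _ hf
  have := nontrivial_of_irr hρ
  have h1 : ρ.character 1 ≠ 0 := (isIrrChar_of_rep ρ hρ).one_ne_zero
  have h2 := trace_op ρ f
  rw [hc] at h2
  have h3 : LinearMap.trace ℂ V (c • (1 : End ℂ V)) = c * ρ.character 1 := by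
    rw [map_smul, smul_eq_mul, char_one, LinearMap.trace_one]
  rw [hc, ← h2, h3, mul_div_cancel_right₀ _ h1]

theorem op_comm_of_class (f : G → ℂ) (hf : ∀ g x, f (x * g * x⁻¹) = f g) (h : G) :
    op ρ f * ρ h = ρ h * op ρ f := by
  simp only [op, Finset.sum_mul, Finset.mul_sum, smul_mul_assoc, mul_smul_comm, ← map_mul]
  refine Fintype.sum_equiv (MulAut.conj h⁻¹).toEquiv _ _ (fun g => ?_)
  have : (MulAut.conj h⁻¹).toEquiv g = h⁻¹ * g * h := by simp
  rw [this]
  congr 1
  · have := hf g h⁻¹
    rw [inv_inv] at this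
    exact this.symm
  · congr 1
    group

/-- If an integral combination of the `ρ(g)` is a scalar, the scalar is an algebraic integer. -/
theorem isIntegral_scalar [Nontrivial V] (f : G → ℂ) (hf : ∀ g, IsIntegral ℤ (f g)) (s : ℂ)
    (hs : op ρ f = s • (1 : End ℂ V)) : IsIntegral ℤ s := by
  let R := integralClosure ℤ ℂ
  let N : Submodule R (End ℂ V) := Submodule.span R (Set.range fun g => ρ g)
  have hN1 : N.FG := Submodule.fg_span (Set.finite_range _)
  have h1N : (1 : End ℂ V) ∈ N := by
    rw [← map_one ρ]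
    exact Submodule.subset_span ⟨1, rfl⟩
  have hN0 : N ≠ ⊥ := by
    intro h
    rw [h, Submodule.mem_bot] at h1N
    exact one_ne_zero h1N
  have key : IsIntegral R s := by
    refine isIntegral_of_smul_mem_submodule N hN0 hN1 s (fun n hn => ?_)
    have h2 : s • n = op ρ f * n := by rw [hs, smul_mul_assoc, one_mul]
    rw [h2]
    refine Submodule.span_induction (p := fun n _ => op ρ f * n ∈ N) ?_ ?_ ?_ ?_ hn
    · rintro _ ⟨h, rfl⟩
      simp only [op, Finset.sum_mul]
      refine Submodule.sum_mem _ (fun g _ => ?_)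
      rw [smul_mul_assoc, ← map_mul]
      exact Submodule.smul_mem N (⟨f g, hf g⟩ : R) (Submodule.subset_span ⟨g * h, rfl⟩)
    · simp
    · intro x y _ _ hx hy
      rw [mul_add]; exact N.add_mem hx hy
    · intro a x _ hx
      rw [mul_smul_comm]; exact N.smul_mem a hx
  exact isIntegral_trans s key

end Op

end Pool.Agent.DC7914
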