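import Pool.Agent.Work.MP_dc7914_al.Om

/-!
# Decomposition of a character into irreducible characters
-/

set_option linter.unusedSectionVars false

open Module Representation

namespace Pool.Agent.DC7914

section

variable {G : Type*} [Group G] [Fintype G]

/-- restriction of a representation to an invariant subspace -/
noncomputable def subRep {V : Type*} [AddCommGroup V] [Module ℂ V] (ρ : Representation ℂ G V)
    (U : Submodule ℂ V) (hU : ∀ g, ∀ v ∈ U, ρ g v ∈ U) : Representation ℂ G U where
  toFun g := (ρ g).restrict (hU g)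
  map_one' := by ext; simp
  map_mul' x y := by ext; simp

theorem op_subRep {V : Type*} [AddCommGroup V] [Module ℂ V] [FiniteDimensional ℂ V]
    (ρ : Representation ℂ G V)
    (U : Submodule ℂ V) (hU : ∀ g, ∀ v ∈ U, ρ g v ∈ U) (f : G → ℂ) (u : U) :
    ((op (subRep ρ U hU) f u : U) : V) = op ρ f u := by
  simp [op, subRep, LinearMap.sum_apply]

theorem trace_add_of_isCompl {V : Type*} [AddCommGroup V] [Module ℂ V] [FiniteDimensional ℂ V]
    {U U' : Submodule ℂ V} (h : IsCompl U U') (f : End ℂ V) (hU : ∀ v ∈ U, f v ∈ U)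
    (hU' : ∀ v ∈ U', f v ∈ U') :
    LinearMap.trace ℂ V f = LinearMap.trace ℂ U (f.restrict hU) +
      LinearMap.trace ℂ U' (f.restrict hU') := by
  classical
  let N : Bool → Submodule ℂ V := fun b => if b = true then U else U'
  have h1 : DirectSum.IsInternal N := by
    rw [DirectSum.isInternal_submodule_iff_isCompl N (i := true) (j := false) (by simp)
      (by ext b; cases b <;> simp)]
    simpa [N] using h
  have hf : ∀ b, Set.MapsTo f (N b) (N b) := by
    intro b v hv
    cases b
    · exact hU' v hv
    · exact hU v hv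
  rw [LinearMap.trace_eq_sum_trace_restrict h1 hf, Fintype.sum_bool]
  rfl

theorem decomp_aux (n : ℕ) : ∀ {V : Type*} [AddCommGroup V] [Module ℂ V] [FiniteDimensional ℂ V]
    (ρ : Representation ℂ G V), finrank ℂ V = n →
    ∃ s : Multiset (G → ℂ), (∀ θ ∈ s, IsIrrChar θ ∧ ∀ (f : G → ℂ) (c : ℂ),
      op ρ f = c • (1 : End ℂ V) → om θ f = c) ∧ ρ.character = s.sum := by
  induction n using Nat.strong_induction_on with
  | _ n ih =>
    intro V _ _ _ ρ hn
    by_cases hV : Nontrivial V
    swap
    · have hV' : Subsingleton V := not_nontrivial_iff_subsingleton.1 hV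
      refine ⟨0, by simp, ?_⟩
      ext g
      simp [Representation.character, Subsingleton.elim (ρ g) 0]
    by_cases hρ : ρ.IsIrreducible
    · refine ⟨{ρ.character}, ?_, by simp⟩
      intro θ hθ
      rw [Multiset.mem_singleton] at hθ
      subst hθ
      refine ⟨isIrrChar_of_rep ρ hρ, fun f c hc => ?_⟩
      have h1 := trace_op ρ f
      rw [hc, map_smul, LinearMap.trace_one] at h1
      rw [om, ← h1, char_one, smul_eq_mul, mul_div_cancel_right₀]
      exact_mod_cast finrank_pos.ne'
    · rw [irreducible_iff] at hρ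
      push Not at hρ
      obtain ⟨U, hU, hU0, hU1⟩ := hρ hV
      have hG : NeZero (Nat.card G : ℂ) := ⟨by exact_mod_cast Nat.card_pos.ne'⟩
      obtain ⟨S', hS'⟩ := exists_isCompl (⟨U, fun g v hv => hU g v hv⟩ : Subrepresentation ρ)
      obtain ⟨U', hUU⟩ : ∃ U' : Submodule ℂ V, U' = S'.toSubmodule := ⟨_, rfl⟩
      have hU' : ∀ g, ∀ v ∈ U', ρ g v ∈ U' := by
        intro g v hv
        rw [hUU] at hv ⊢
        exact S'.apply_mem_toSubmodule g hv
      have hc : IsCompl U U' := by
        rw [isCompl_iff, disjoint_iff, codisjoint_iff] at hS' ⊢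
        constructor
        · have := congrArg Subrepresentation.toSubmodule hS'.1
          rw [hUU]
          exact this
        · have := congrArg Subrepresentation.toSubmodule hS'.2
          rw [hUU]
          exact this
      have hlt : finrank ℂ U < n := by
        rw [← hn]
        exact Submodule.finrank_lt hU1
      have hU'1 : U' ≠ ⊤ := by
        rintro rfl
        exact hU0 (hc.disjoint.eq_bot_of_le le_top)
      have hlt' : finrank ℂ U' < n := by
        rw [← hn]
        exact Submodule.finrank_lt hU'1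
      obtain ⟨s, hs1, hs2⟩ := ih _ hlt (subRep ρ U hU) rfl
      obtain ⟨s', hs1', hs2'⟩ := ih _ hlt' (subRep ρ U' hU') rfl
      refine ⟨s + s', ?_, ?_⟩
      · intro θ hθ
        rw [Multiset.mem_add] at hθ
        rcases hθ with hθ | hθ
        · refine ⟨(hs1 θ hθ).1, fun f c hc => (hs1 θ hθ).2 f c ?_⟩
          ext u
          rw [op_subRep, hc]
          simp
        · refine ⟨(hs1' θ hθ).1, fun f c hc => (hs1' θ hθ).2 f c ?_⟩
          ext u
          rw [op_subRep, hc]
          simp
      · rw [Multiset.sum_add, ← hs2, ← hs2']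
        ext g
        exact trace_add_of_isCompl hc (ρ g) (hU g) (hU' g)

theorem decomp {V : Type*} [AddCommGroup V] [Module ℂ V] [FiniteDimensional ℂ V]
    (ρ : Representation ℂ G V) :
    ∃ s : Multiset (G → ℂ), (∀ θ ∈ s, IsIrrChar θ ∧ ∀ (f : G → ℂ) (c : ℂ),
      op ρ f = c • (1 : End ℂ V) → om θ f = c) ∧ ρ.character = s.sum :=
  decomp_aux _ ρ rfl

open Classical in
/-- multiplicities in a sum of irreducible characters -/
theorem inner_sum (s : Multiset (G → ℂ)) (hs : ∀ θ ∈ s, IsIrrChar θ) (θ : G → ℂ)
    (hθ : IsIrrChar θ) :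
    ∑ g, θ g * s.sum g⁻¹ = (Multiset.count θ s : ℂ) * Nat.card G := by
  induction s using Multiset.induction_on with
  | empty => simp
  | cons ψ s ih =>
    rw [Multiset.sum_cons]
    simp only [Pi.add_apply, mul_add, Finset.sum_add_distrib]
    rw [ih (fun θ' h => hs θ' (Multiset.mem_cons_of_mem h)),
      hθ.orthonormal (hs ψ (Multiset.mem_cons_self _ _)), Multiset.count_cons]
    split_ifs <;> push_cast <;> ring

end

end Pool.Agent.DC7914
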