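import Pool.Agent.Work.MP_dc7914_al.Om

/-!
# Degrees, defects, and the first congruence
-/

set_option linter.unusedSectionVars false

open Module Representation

namespace Pool.Agent.DC7914

section

variable {M : Ideal (integralClosure ℤ ℂ)} {p : ℕ} [Fact p.Prime]

theorem red_pow_p_mul (hM : M.IsPrime) (hp : (p : integralClosure ℤ ℂ) ∈ M) {e : ℕ} (he : 0 < e)
    {B : ℂ} (hB : IsIntegral ℤ B) : red M ((p : ℂ) ^ e * B) = 0 := by
  have h1 : ((p : ℂ) ^ e * B) = ((p ^ e : ℕ) : ℂ) * B := by push_cast; ring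
  rw [h1, red_mul M (isIntegral_nat _) hB, red_nat,
    (natCast_eq_zero_iff (p := p) hM.ne_top hp (p ^ e)).2 (dvd_pow_self p he.ne'), zero_mul]

theorem le_of_mul_pow_eq (hM : M.IsPrime) (hp : (p : integralClosure ℤ ℂ) ∈ M)
    {A B : ℂ} (hA : IsIntegral ℤ A) (hB : IsIntegral ℤ B) {u i j : ℕ} (hu : ¬ p ∣ u)
    (hA0 : red M A ≠ 0) (h : A * (p : ℂ) ^ j * u = (p : ℂ) ^ i * B) : i ≤ j := by
  by_contra hij
  push Not at hij
  have hp0 : (p : ℂ) ≠ 0 := by exact_mod_cast (Fact.out : p.Prime).ne_zero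
  have h1 : A * u = (p : ℂ) ^ (i - j) * B := by
    have h2 : (p : ℂ) ^ i = (p : ℂ) ^ j * (p : ℂ) ^ (i - j) := by
      rw [← pow_add]; congr 1; omega
    rw [h2] at h
    have h3 : (p : ℂ) ^ j * (A * u) = (p : ℂ) ^ j * ((p : ℂ) ^ (i - j) * B) := by
      linear_combination h
    exact mul_left_cancel₀ (pow_ne_zero _ hp0) h3
  have h2 := congrArg (red M) h1
  rw [red_pow_p_mul hM hp (by omega) hB, red_mul M hA (isIntegral_nat _), red_nat] at h2
  have := Ideal.Quotient.isDomain M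
  rcases mul_eq_zero.1 h2 with h3 | h3
  · exact hA0 h3
  · exact hu ((natCast_eq_zero_iff hM.ne_top hp u).1 h3)

variable {G : Type*} [Group G] [Finite G]

theorem omega_mul_one {χ : G → ℂ} (hχ : IsIrrChar χ) (x : G) :
    omega χ x * χ 1 = csize x * χ x := by
  rw [omega]
  field_simp [hχ.one_ne_zero]

/-- Lemma A: `p`-part of the class size divides the degree if the central character does not
vanish. -/
theorem pow_dvd_degree (hM : M.IsPrime) (hp : (p : integralClosure ℤ ℂ) ∈ M)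
    {χ : G → ℂ} (hχ : IsIrrChar χ) {n : ℕ} (hn : χ 1 = n) {x : G}
    (hx : red M (omega χ x) ≠ 0) {e : ℕ} (he : p ^ e ∣ csize x) : p ^ e ∣ n := by
  have hn0 : n ≠ 0 := by
    rintro rfl
    exact hχ.one_ne_zero (by simpa using hn)
  obtain ⟨j, n', hn', hj⟩ := Nat.exists_eq_pow_mul_and_not_dvd hn0 p (Fact.out : p.Prime).ne_one
  obtain ⟨m, hm⟩ := he
  have h1 := omega_mul_one hχ x
  rw [hn, hm, hj] at h1
  push_cast at h1
  have h2 : e ≤ j := by
    refine le_of_mul_pow_eq hM hp (hχ.isIntegral_omega x) (B := m * χ x)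
      ((isIntegral_nat m).mul (hχ.integral x)) (u := n') (i := e) (j := j) hn' hx ?_
    linear_combination h1
  rw [hj]
  exact Dvd.dvd.mul_right (pow_dvd_pow p h2) _

/-- Lemma Z. -/
theorem red_char_eq_zero (hM : M.IsPrime) (hp : (p : integralClosure ℤ ℂ) ∈ M)
    {χ : G → ℂ} (hχ : IsIrrChar χ) {a d h m : ℕ} (hG : Nat.card G = p ^ a * h) (hh : ¬ p ∣ h)
    (hn : χ 1 = ((p ^ (a - d) * m : ℕ) : ℂ)) {x : G} (hx : p ^ (d + 1) ∣ cen x) :
    red M (χ x) = 0 := by
  obtain ⟨c, hc⟩ := hx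
  have hp1 : p.Prime := Fact.out
  have h1 := omega_mul_one hχ x
  have h2 := csize_mul_cen x
  have h2' : (csize x : ℂ) * (cen x : ℂ) = (p : ℂ) ^ a * h := by
    rw [hG] at h2; exact_mod_cast h2
  have had : d + 1 ≤ a := by
    have h3 : p ^ (d + 1) ∣ p ^ a * h := by
      rw [← hG, ← h2, hc]
      exact Dvd.dvd.mul_left (Dvd.intro _ rfl) _
    have h4 : p ^ (d + 1) ∣ p ^ a :=
      (Nat.Coprime.pow_left _ ((Nat.Prime.coprime_iff_not_dvd hp1).2 hh)).dvd_of_dvd_mul_right h3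
    exact (Nat.pow_dvd_pow_iff_le_right hp1.one_lt).1 h4
  have hp0 : (p : ℂ) ≠ 0 := by exact_mod_cast hp1.ne_zero
  have h3 : χ x * h = (p : ℂ) ^ 1 * (omega χ x * m * c) := by
    have h4 : (p : ℂ) ^ a * (χ x * h) = (p : ℂ) ^ a * ((p : ℂ) ^ 1 * (omega χ x * m * c)) := by
      have h5 : (p : ℂ) ^ a = (p : ℂ) ^ (a - d) * (p : ℂ) ^ d := by
        rw [← pow_add]; congr 1; omega
      have h6 : (cen x : ℂ) = (p : ℂ) ^ d * (p : ℂ) * c := by
        rw [hc]; push_cast; ring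
      rw [hn] at h1
      push_cast at h1
      calc (p : ℂ) ^ a * (χ x * h) = χ x * ((p : ℂ) ^ a * h) := by ring
        _ = χ x * ((csize x : ℂ) * (cen x : ℂ)) := by rw [h2']
        _ = ((csize x : ℂ) * χ x) * (cen x : ℂ) := by ring
        _ = (omega χ x * ((p : ℂ) ^ (a - d) * m)) * ((p : ℂ) ^ d * (p : ℂ) * c) := by
            rw [← h1, h6]
        _ = ((p : ℂ) ^ (a - d) * (p : ℂ) ^ d) * ((p : ℂ) ^ 1 * (omega χ x * m * c)) := by ring
        _ = _ := by rw [← h5]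
    exact mul_left_cancel₀ (pow_ne_zero _ hp0) h4
  have h4 := congrArg (red M) h3
  rw [red_pow_p_mul hM hp (by omega)
    (((hχ.isIntegral_omega x).mul (isIntegral_nat _)).mul (isIntegral_nat _)),
    red_mul M (hχ.integral x) (isIntegral_nat _), red_nat] at h4
  have := Ideal.Quotient.isDomain M
  rcases mul_eq_zero.1 h4 with h5 | h5
  · exact h5
  · exact absurd ((natCast_eq_zero_iff hM.ne_top hp _).1 h5) hh

/-- the value at a class of defect exactly `d` -/
theorem red_char_eq (_hM : M.IsPrime) (_hp : (p : integralClosure ℤ ℂ) ∈ M)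
    {χ : G → ℂ} (hχ : IsIrrChar χ) {a d h m : ℕ} (hG : Nat.card G = p ^ a * h) (hh : ¬ p ∣ h)
    (hn : χ 1 = ((p ^ (a - d) * m : ℕ) : ℂ)) {x : G} {c : ℕ} (hx : cen x = p ^ d * c) :
    (h : (integralClosure ℤ ℂ) ⧸ M) * red M (χ x) = m * c * red M (omega χ x) := by
  have hp1 : p.Prime := Fact.out
  have h1 := omega_mul_one hχ x
  have h2 := csize_mul_cen x
  have h2' : (csize x : ℂ) * (cen x : ℂ) = (p : ℂ) ^ a * h := by
    rw [hG] at h2; exact_mod_cast h2
  have had : d ≤ a := by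
    have h3 : p ^ d ∣ p ^ a * h := by
      rw [← hG, ← h2, hx]
      exact Dvd.dvd.mul_left (Dvd.intro _ rfl) _
    have h4 : p ^ d ∣ p ^ a :=
      (Nat.Coprime.pow_left _ ((Nat.Prime.coprime_iff_not_dvd hp1).2 hh)).dvd_of_dvd_mul_right h3
    exact (Nat.pow_dvd_pow_iff_le_right hp1.one_lt).1 h4
  have hp0 : (p : ℂ) ≠ 0 := by exact_mod_cast hp1.ne_zero
  have h3 : (h : ℂ) * χ x = (m : ℂ) * c * omega χ x := by
    have h4 : (p : ℂ) ^ a * ((h : ℂ) * χ x) = (p : ℂ) ^ a * ((m : ℂ) * c * omega χ x) := by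
      have h5 : (p : ℂ) ^ a = (p : ℂ) ^ (a - d) * (p : ℂ) ^ d := by
        rw [← pow_add]; congr 1; omega
      have h6 : (cen x : ℂ) = (p : ℂ) ^ d * c := by
        rw [hx]; push_cast; ring
      rw [hn] at h1
      push_cast at h1
      calc (p : ℂ) ^ a * ((h : ℂ) * χ x) = χ x * ((p : ℂ) ^ a * h) := by ring
        _ = χ x * ((csize x : ℂ) * (cen x : ℂ)) := by rw [h2']
        _ = ((csize x : ℂ) * χ x) * (cen x : ℂ) := by ring
        _ = (omega χ x * ((p : ℂ) ^ (a - d) * m)) * ((p : ℂ) ^ d * c) := by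
            rw [← h1, h6]
        _ = ((p : ℂ) ^ (a - d) * (p : ℂ) ^ d) * ((m : ℂ) * c * omega χ x) := by ring
        _ = _ := by rw [← h5]
    exact mul_left_cancel₀ (pow_ne_zero _ hp0) h4
  have h4 := congrArg (red M) h3
  rw [red_mul M (isIntegral_nat _) (hχ.integral x), red_mul M ((isIntegral_nat _).mul
    (isIntegral_nat _)) (hχ.isIntegral_omega x), red_mul M (isIntegral_nat _) (isIntegral_nat _),
    red_nat, red_nat, red_nat] at h4
  exact h4

end

section SB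

variable {G : Type*} [Group G]

open Classical in
/-- the terms of the sum `S_B` -/
noncomputable def sterm (M : Ideal (integralClosure ℤ ℂ)) (p d : ℕ) (χ : G → ℂ) (g : G) :
    (integralClosure ℤ ℂ) ⧸ M :=
  if ¬ p ∣ orderOf g ∧ (cen g).factorization p = d then
    ((ordCompl[p] (cen g) : ℕ) : (integralClosure ℤ ℂ) ⧸ M) * red M (omega χ g) *
      red M (omega χ g⁻¹)
  else 0

open Classical in
/-- The sum `S_B`. -/
noncomputable def SB [Finite G] (M : Ideal (integralClosure ℤ ℂ)) (p d : ℕ) (χ : G → ℂ) :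
    (integralClosure ℤ ℂ) ⧸ M :=
  letI := Fintype.ofFinite G
  ∑ K : ConjClasses G, sterm M p d χ (Quotient.out K)

open Classical in
/-- the function `ψ(g⁻¹)` on `p`-regular elements -/
noncomputable def preg (p : ℕ) (ψ : G → ℂ) (g : G) : ℂ := if ¬ p ∣ orderOf g then ψ g⁻¹ else 0

theorem orderOf_conj (x g : G) : orderOf (x * g * x⁻¹) = orderOf g := by
  have := MulEquiv.orderOf_eq (MulAut.conj x) g
  simpa using this

theorem isClassFn_preg {p : ℕ} {ψ : G → ℂ} (hψ : IsIrrChar ψ) : IsClassFn (preg p ψ) := by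
  intro g x
  rw [preg, preg, orderOf_conj]
  have : (x * g * x⁻¹)⁻¹ = x * g⁻¹ * x⁻¹ := by group
  rw [this, hψ.conj]

theorem isIntegral_preg [Finite G] {p : ℕ} {ψ : G → ℂ} (hψ : IsIrrChar ψ) (g : G) :
    IsIntegral ℤ (preg p ψ g) := by
  rw [preg]
  split_ifs
  · exact isIntegral_zero
  · exact hψ.integral _

theorem factorization_eq_iff {p : ℕ} [Fact p.Prime] {n d : ℕ} (hn : n ≠ 0) :
    p ^ (d + 1) ∣ n ↔ d < n.factorization p := by
  rw [(Fact.out : p.Prime).pow_dvd_iff_le_factorization hn]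
  exact Iff.rfl

variable {M : Ideal (integralClosure ℤ ℂ)} {p : ℕ} [Fact p.Prime]

/-- The congruence (C). -/
theorem red_T [Fintype G] (hM : M.IsPrime) (hp : (p : integralClosure ℤ ℂ) ∈ M)
    {χ ψ : G → ℂ} (hχ : IsIrrChar χ) (hψ : IsIrrChar ψ)
    (hχψ : ∀ x, red M (omega χ x) = red M (omega ψ x))
    {a d h m : ℕ} (hG : Nat.card G = p ^ a * h) (hh : ¬ p ∣ h)
    (hn : ψ 1 = ((p ^ (a - d) * m : ℕ) : ℂ))
    (hd : ∀ x, red M (omega χ x) ≠ 0 → p ^ d ∣ cen x) :
    (h : (integralClosure ℤ ℂ) ⧸ M) * red M (om χ (preg p ψ)) = m * SB M p d χ := by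
  classical
  rw [red_om M hχ (isClassFn_preg hψ) (isIntegral_preg hψ), SB, Finset.mul_sum, Finset.mul_sum]
  refine Finset.sum_congr (by ext; simp) (fun K _ => ?_)
  set g := Quotient.out K with hg
  rw [sterm, preg]
  by_cases h1 : ¬ p ∣ orderOf g
  swap
  · rw [if_neg h1, if_neg (fun h => h1 h.1), red_zero]; simp
  rw [if_pos h1]
  by_cases h2 : red M (omega χ g) = 0
  · rw [h2]; simp
  have hc0 : cen g ≠ 0 := (cen_pos g).ne'
  have h3 : d ≤ (cen g).factorization p := by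
    rw [← (Fact.out : p.Prime).pow_dvd_iff_le_factorization hc0]
    exact hd g h2
  rcases lt_or_eq_of_le h3 with h4 | h4
  · rw [if_neg (fun h => h4.ne h.2.symm)]
    have h5 : p ^ (d + 1) ∣ cen g⁻¹ := by
      rw [cen_inv]
      exact (factorization_eq_iff hc0).2 h4
    rw [red_char_eq_zero hM hp hψ hG hh hn h5]
    simp
  · rw [if_pos ⟨h1, h4.symm⟩]
    have h5 : cen g⁻¹ = p ^ d * ordCompl[p] (cen g) := by
      rw [cen_inv, h4]
      exact (Nat.ordProj_mul_ordCompl_eq_self _ _).symm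
    have h6 := red_char_eq hM hp hψ hG hh hn h5
    rw [← mul_assoc, h6, ← hχψ g⁻¹]
    ring

end SB

end Pool.Agent.DC7914
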