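import Mathlib

/-!
# Blocks, defect groups, Brauer correspondents and perfect isometries

Everything is expressed through complex characters, seen as functions `G → ℂ`, and through a
maximal ideal `M` containing `p` of the ring `integralClosure ℤ ℂ` of algebraic integers.
-/

namespace Pool.Agent.DC7914

/-- `χ` is an irreducible complex character of the group `G`. -/
def IsIrrChar {G : Type*} [Group G] (χ : G → ℂ) : Prop :=
  ∃ (n : ℕ) (ρ : Representation ℂ G (Fin n → ℂ)), ρ.IsIrreducible ∧ χ = ρ.character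

/-- The size of the conjugacy class of `x`. -/
noncomputable def csize {G : Type*} [Group G] (x : G) : ℕ := Nat.card {y : G // IsConj x y}

/-- The value `|K| χ(x) / χ(1)` of the central character of `χ` at the sum of the conjugacy
class `K` of `x`. -/
noncomputable def omega {G : Type*} [Group G] (χ : G → ℂ) (x : G) : ℂ :=
  (csize x : ℂ) * χ x / χ 1

/-- Congruence of complex numbers modulo the ideal `M` of the ring of algebraic integers. -/
def Cong (M : Ideal (integralClosure ℤ ℂ)) (x y : ℂ) : Prop :=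
  ∃ m : integralClosure ℤ ℂ, m ∈ M ∧ (m : ℂ) = x - y

/-- `B` is (the set of irreducible characters in) a `p`-block of `G`, where `M` is a maximal ideal
containing `p`: the central characters of the members of `B` are congruent modulo `M`. -/
def IsBlock {G : Type*} [Group G] (M : Ideal (integralClosure ℤ ℂ)) (B : Set (G → ℂ)) : Prop :=
  ∃ χ₀ : G → ℂ, IsIrrChar χ₀ ∧
    B = {χ | IsIrrChar χ ∧ ∀ x, Cong M (omega χ x) (omega χ₀ x)}

/-- The central character `λ_B` of the block `B` does not vanish at the class of `x`. -/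
def LambdaNeZero {G : Type*} [Group G] (M : Ideal (integralClosure ℤ ℂ)) (B : Set (G → ℂ))
    (x : G) : Prop :=
  ∃ χ ∈ B, ¬ Cong M (omega χ x) 0

/-- `D` is a defect group of the block `B` (in the form of the min-max theorem): `D` is a Sylow
`p`-subgroup of the centralizer of some `x` with `λ_B(x) ≠ 0`, and is up to conjugacy contained in
the centralizer of every such `x`. -/
def IsDefectGroup {G : Type*} [Group G] (p : ℕ) (M : Ideal (integralClosure ℤ ℂ))
    (B : Set (G → ℂ)) (D : Subgroup G) : Prop :=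
  (∃ x : G, LambdaNeZero M B x ∧ D ≤ Subgroup.centralizer ({x} : Set G) ∧ IsPGroup p D ∧
    ¬ p ∣ D.relIndex (Subgroup.centralizer ({x} : Set G))) ∧
  ∀ x : G, LambdaNeZero M B x →
    ∃ g : G, ∀ z ∈ D, g * z * g⁻¹ ∈ Subgroup.centralizer ({x} : Set G)

/-- `b` is the Brauer correspondent in `N_G(D)` of the block `B` with defect group `D`: it is a
block of `N_G(D)` with defect group `D` and `b^G = B`, that is `λ_B(K) = λ_b(K ∩ N_G(D))` for every
conjugacy class `K` of `G`. -/
def IsBrauerCorrespondent {G : Type*} [Group G] (p : ℕ) (M : Ideal (integralClosure ℤ ℂ))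
    (D : Subgroup G) (B : Set (G → ℂ)) (b : Set (Subgroup.normalizer (D : Set G) → ℂ)) : Prop :=
  IsBlock M b ∧ IsDefectGroup p M b (D.subgroupOf (Subgroup.normalizer (D : Set G))) ∧
  ∀ χ ∈ B, ∀ ψ ∈ b, ∀ x : G, Cong M (omega χ x)
    ((∑ᶠ y : {y : Subgroup.normalizer (D : Set G) // IsConj x (y : G)}, ψ y) / ψ 1)

/-- The generalized character of the element `v` of `ℤ Irr(B)`. -/
noncomputable def ev {G : Type*} (B : Set (G → ℂ)) (v : B →₀ ℤ) (g : G) : ℂ :=
  v.sum fun χ c => (c : ℂ) * χ.1 g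

/-- The inner product on `ℤ Irr(B)` for which the irreducible characters are orthonormal. -/
noncomputable def ip {G : Type*} (B : Set (G → ℂ)) (v w : B →₀ ℤ) : ℤ :=
  v.sum fun χ c => c * w χ

/-- The function `μ(g, h) = ∑_{χ ∈ Irr(B)} I(χ)(h) χ(g)` attached to `I : ℤ Irr(B) → ℤ Irr(b)`. -/
noncomputable def mu {G H : Type*} (B : Set (G → ℂ)) (b : Set (H → ℂ))
    (I : (B →₀ ℤ) → (b →₀ ℤ)) (g : G) (h : H) : ℂ :=
  ∑ᶠ χ : B, ev b (I (Finsupp.single χ 1)) h * χ.1 g

/-- `x` lies in the localization at `M` of the ring of algebraic integers. -/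
def LocInt (M : Ideal (integralClosure ℤ ℂ)) (x : ℂ) : Prop :=
  ∃ s t : integralClosure ℤ ℂ, s ∉ M ∧ (s : ℂ) * x = (t : ℂ)

/-- `I : ℤ Irr(B) → ℤ Irr(b)` is a perfect isometry in the sense of Broué. -/
structure IsPerfectIsometry {G H : Type*} [Group G] [Group H] (p : ℕ)
    (M : Ideal (integralClosure ℤ ℂ)) (B : Set (G → ℂ)) (b : Set (H → ℂ))
    (I : (B →₀ ℤ) ≃+ (b →₀ ℤ)) : Prop where
  isometry : ∀ v w, ip b (I v) (I w) = ip B v w
  integral_left : ∀ g h,
    LocInt M (mu B b I g h / (Nat.card (Subgroup.centralizer ({g} : Set G)) : ℂ))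
  integral_right : ∀ g h,
    LocInt M (mu B b I g h / (Nat.card (Subgroup.centralizer ({h} : Set H)) : ℂ))
  separation : ∀ g h, ¬ (p ∣ orderOf g ↔ p ∣ orderOf h) → mu B b I g h = 0

/-- `c_C(m)`: the number of `θ ∈ C` with `θ(1)_{p'} ≡ ± m (mod p)`. -/
noncomputable def degCount {G : Type*} [Group G] (p : ℕ) (C : Set (G → ℂ)) (m : ℤ) : ℕ :=
  Nat.card {θ : G → ℂ // θ ∈ C ∧ ∃ n : ℕ, θ 1 = n ∧
    (((ordCompl[p] n : ℕ) : ℤ) ≡ m [ZMOD p] ∨ ((ordCompl[p] n : ℕ) : ℤ) ≡ -m [ZMOD p])}

end Pool.Agent.DC7914
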