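import Pool.Agent.Work.MP_dc7914_al.Match

/-!
# Isometries are signed bijections; separation
-/

set_option linter.unusedSectionVars false

open Module Representation

namespace Pool.Agent.DC7914

open Classical in
theorem ip_single {G : Type*} (B : Set (G → ℂ)) (χ χ' : B) (a c : ℤ) :
    ip B (Finsupp.single χ a) (Finsupp.single χ' c) = if χ = χ' then a * c else 0 := by
  classical
  rw [ip, Finsupp.sum_single_index (by simp), Finsupp.single_apply]
  by_cases h : χ = χ'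
  · rw [if_pos h.symm, if_pos h]
  · rw [if_neg (fun h' => h h'.symm), if_neg h, mul_zero]

theorem norm_one {G : Type*} (b : Set (G → ℂ)) (v : b →₀ ℤ) (hv : ip b v v = 1) :
    ∃ (ψ : b) (ε : ℤ), ε * ε = 1 ∧ v = Finsupp.single ψ ε := by
  classical
  rw [ip, Finsupp.sum] at hv
  have hne : v.support.Nonempty := by
    by_contra h
    rw [Finset.not_nonempty_iff_eq_empty] at h
    rw [h] at hv
    simp at hv
  obtain ⟨ψ, hψ⟩ := hne
  have hψ0 : v ψ ≠ 0 := Finsupp.mem_support_iff.1 hψ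
  rw [← Finset.add_sum_erase _ _ hψ] at hv
  have h1 : 0 ≤ ∑ x ∈ v.support.erase ψ, v x * v x :=
    Finset.sum_nonneg (fun x _ => mul_self_nonneg _)
  have h2 : 1 ≤ v ψ * v ψ := by
    have : 0 < v ψ * v ψ := mul_self_pos.2 hψ0
    omega
  have h3 : v ψ * v ψ = 1 := by omega
  have h4 : ∑ x ∈ v.support.erase ψ, v x * v x = 0 := by omega
  refine ⟨ψ, v ψ, h3, ?_⟩
  ext x
  rw [Finsupp.single_apply]
  by_cases hx : ψ = x
  · subst hx; simp
  · rw [if_neg hx]
    by_contra hx0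
    have h5 : x ∈ v.support.erase ψ := by
      rw [Finset.mem_erase]
      exact ⟨fun h => hx h.symm, Finsupp.mem_support_iff.2 hx0⟩
    have h6 := (Finset.sum_eq_zero_iff_of_nonneg (fun x _ => mul_self_nonneg (v x))).1 h4 x h5
    exact hx0 (mul_self_eq_zero.1 h6)

theorem signed_bijection {G H : Type*} (B : Set (G → ℂ)) (b : Set (H → ℂ))
    (I : (B →₀ ℤ) ≃+ (b →₀ ℤ)) (hI : ∀ v w, ip b (I v) (I w) = ip B v w) :
    ∃ (f : B ≃ b) (ε : B → ℤ), (∀ χ, ε χ * ε χ = 1) ∧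
      ∀ χ, I (Finsupp.single χ 1) = Finsupp.single (f χ) (ε χ) := by
  classical
  have h1 : ∀ χ : B, ∃ (ψ : b) (ε : ℤ), ε * ε = 1 ∧ I (Finsupp.single χ 1) = Finsupp.single ψ ε := by
    intro χ
    apply norm_one
    rw [hI, ip_single]
    simp
  have h2 : ∀ ψ : b, ∃ (χ : B) (ε : ℤ), ε * ε = 1 ∧
      I.symm (Finsupp.single ψ 1) = Finsupp.single χ ε := by
    intro ψ
    apply norm_one
    have h := hI (I.symm (Finsupp.single ψ 1)) (I.symm (Finsupp.single ψ 1))
    rw [I.apply_symm_apply] at h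
    rw [← h, ip_single]
    simp
  choose f ε hε hf using h1
  have hinj : Function.Injective f := by
    intro χ χ' h
    by_contra hne
    have h3 := hI (Finsupp.single χ 1) (Finsupp.single χ' 1)
    rw [hf, hf, h, ip_single, ip_single, if_pos rfl, if_neg hne] at h3
    have h4 := hε χ
    have h5 := hε χ'
    have h6 : (ε χ * ε χ') * (ε χ * ε χ') = 1 := by
      calc (ε χ * ε χ') * (ε χ * ε χ') = (ε χ * ε χ) * (ε χ' * ε χ') := by ring
        _ = 1 := by rw [h4, h5, one_mul]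
    rw [h3] at h6
    simp at h6
  have hsurj : Function.Surjective f := by
    intro ψ
    obtain ⟨χ, δ, hδ, h3⟩ := h2 ψ
    refine ⟨χ, ?_⟩
    have h4 : I (Finsupp.single χ δ) = Finsupp.single ψ 1 := by
      rw [← h3, I.apply_symm_apply]
    have h5 : (Finsupp.single χ δ : B →₀ ℤ) = δ • Finsupp.single χ 1 := by
      rw [Finsupp.smul_single, smul_eq_mul, mul_one]
    rw [h5, map_zsmul, hf, Finsupp.smul_single, smul_eq_mul] at h4
    by_contra hne
    have h6 := DFunLike.congr_fun h4 ψ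
    rw [Finsupp.single_apply, Finsupp.single_apply, if_neg hne, if_pos rfl] at h6
    exact zero_ne_one h6
  exact ⟨Equiv.ofBijective f ⟨hinj, hsurj⟩, ε, hε, hf⟩

theorem mu_eq {G H : Type*} (B : Set (G → ℂ)) [Fintype B] (b : Set (H → ℂ))
    (I : (B →₀ ℤ) ≃+ (b →₀ ℤ)) (f : B ≃ b) (ε : B → ℤ)
    (hf : ∀ χ, I (Finsupp.single χ 1) = Finsupp.single (f χ) (ε χ)) (g : G) (h : H) :
    mu B b I g h = ∑ χ : B, (ε χ : ℂ) * (f χ).1 h * χ.1 g := by
  rw [mu, finsum_eq_sum_of_fintype]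
  refine Finset.sum_congr rfl (fun χ _ => ?_)
  rw [hf, ev, Finsupp.sum_single_index (by simp)]

/-- Separation implies the equality of the norms of the restrictions to `p`-regular elements. -/
theorem norm_preg {G H : Type*} [Group G] [Group H] [Fintype G] [Fintype H] {p : ℕ}
    (B : Set (G → ℂ)) [Fintype B] (b : Set (H → ℂ)) (hB : ∀ χ ∈ B, IsIrrChar χ)
    (hb : ∀ ψ ∈ b, IsIrrChar ψ) (f : B ≃ b) (ε : B → ℤ) (hε : ∀ χ, ε χ * ε χ = 1)
    (hsep : ∀ g h, ¬ (p ∣ orderOf g ↔ p ∣ orderOf h) →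
      ∑ χ : B, (ε χ : ℂ) * (f χ).1 h * χ.1 g = 0) (χ : B) :
    (Nat.card H : ℂ) * (χ.1 1 * om χ.1 (preg p χ.1)) =
      (Nat.card G : ℂ) * ((f χ).1 1 * om (f χ).1 (preg p (f χ).1)) := by
  classical
  set μ : G → H → ℂ := fun g h => ∑ χ : B, (ε χ : ℂ) * (f χ).1 h * χ.1 g with hμ
  have hε0 : (ε χ : ℂ) ≠ 0 := by
    intro h
    have h1 : ε χ = 0 := by exact_mod_cast h
    have h2 := hε χ
    rw [h1] at h2
    simp at h2
  have s1 : ∀ g, ∑ h, μ g h * (f χ).1 h⁻¹ = Nat.card H * ε χ * χ.1 g := by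
    intro g
    simp only [hμ, Finset.sum_mul]
    rw [Finset.sum_comm]
    have h1 : ∀ χ' : B, ∑ h, (ε χ' : ℂ) * (f χ').1 h * χ'.1 g * (f χ).1 h⁻¹ =
        if χ' = χ then (Nat.card H * ε χ * χ.1 g : ℂ) else 0 := by
      intro χ'
      have h2 : ∑ h, (ε χ' : ℂ) * (f χ').1 h * χ'.1 g * (f χ).1 h⁻¹ =
          (ε χ' : ℂ) * χ'.1 g * ∑ h, (f χ').1 h * (f χ).1 h⁻¹ := by
        rw [Finset.mul_sum]
        exact Finset.sum_congr rfl (fun h _ => by ring)
      rw [h2, (hb _ (f χ').2).orthonormal (hb _ (f χ).2)]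
      by_cases h3 : χ' = χ
      · subst h3; rw [if_pos rfl, if_pos rfl]; ring
      · rw [if_neg h3, if_neg (fun h4 => h3 (f.injective (Subtype.ext h4))), mul_zero]
    rw [Finset.sum_congr rfl (fun χ' _ => h1 χ')]
    simp
  have s2 : ∀ h, ∑ g, μ g h * χ.1 g⁻¹ = Nat.card G * ε χ * (f χ).1 h := by
    intro h
    simp only [hμ, Finset.sum_mul]
    rw [Finset.sum_comm]
    have h1 : ∀ χ' : B, ∑ g, (ε χ' : ℂ) * (f χ').1 h * χ'.1 g * χ.1 g⁻¹ =
        if χ' = χ then (Nat.card G * ε χ * (f χ).1 h : ℂ) else 0 := by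
      intro χ'
      have h2 : ∑ g, (ε χ' : ℂ) * (f χ').1 h * χ'.1 g * χ.1 g⁻¹ =
          (ε χ' : ℂ) * (f χ').1 h * ∑ g, χ'.1 g * χ.1 g⁻¹ := by
        rw [Finset.mul_sum]
        exact Finset.sum_congr rfl (fun h _ => by ring)
      rw [h2, (hB _ χ'.2).orthonormal (hB _ χ.2)]
      by_cases h3 : χ' = χ
      · subst h3; rw [if_pos rfl, if_pos rfl]; ring
      · rw [if_neg h3, if_neg (fun h4 => h3 (Subtype.ext h4)), mul_zero]
    rw [Finset.sum_congr rfl (fun χ' _ => h1 χ')]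
    simp
  -- the double sum over `p`-regular elements
  have d1 : ∑ g, ∑ h, μ g h * preg p χ.1 g * preg p (f χ).1 h =
      (ε χ : ℂ) * (Nat.card H * ∑ g, preg p χ.1 g * χ.1 g) := by
    rw [Finset.mul_sum, Finset.mul_sum]
    refine Finset.sum_congr rfl (fun g _ => ?_)
    by_cases hg : ¬ p ∣ orderOf g
    · have h1 : ∀ h, μ g h * preg p χ.1 g * preg p (f χ).1 h =
          preg p χ.1 g * (μ g h * (f χ).1 h⁻¹) := by
        intro h
        by_cases hh : ¬ p ∣ orderOf h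
        · rw [preg, preg, if_pos hg, if_pos hh]; ring
        · have h2 : μ g h = 0 := hsep g h (fun h3 => hh (fun h4 => hg (h3.2 h4)))
          rw [h2]; ring
      rw [Finset.sum_congr rfl (fun h _ => h1 h), ← Finset.mul_sum, s1]
      ring
    · have h0 : preg p χ.1 g = 0 := by rw [preg, if_neg hg]
      simp [h0]
  have d2 : ∑ g, ∑ h, μ g h * preg p χ.1 g * preg p (f χ).1 h =
      (ε χ : ℂ) * (Nat.card G * ∑ h, preg p (f χ).1 h * (f χ).1 h) := by
    rw [Finset.sum_comm, Finset.mul_sum, Finset.mul_sum]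
    refine Finset.sum_congr rfl (fun h _ => ?_)
    by_cases hh : ¬ p ∣ orderOf h
    · have h1 : ∀ g, μ g h * preg p χ.1 g * preg p (f χ).1 h =
          preg p (f χ).1 h * (μ g h * χ.1 g⁻¹) := by
        intro g
        by_cases hg : ¬ p ∣ orderOf g
        · rw [preg, preg, if_pos hg, if_pos hh]; ring
        · have h2 : μ g h = 0 := hsep g h (fun h3 => hg (fun h4 => hh (h3.1 h4)))
          rw [h2]; ring
      rw [Finset.sum_congr rfl (fun g _ => h1 g), ← Finset.mul_sum, s2]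
      ring
    · have h0 : preg p (f χ).1 h = 0 := by rw [preg, if_neg hh]
      simp [h0]
  have d3 := d1.symm.trans d2
  have d4 := mul_left_cancel₀ hε0 d3
  have e1 : χ.1 1 * om χ.1 (preg p χ.1) = ∑ g, preg p χ.1 g * χ.1 g := by
    rw [om, mul_div_cancel₀ _ (hB _ χ.2).one_ne_zero]
  have e2 : (f χ).1 1 * om (f χ).1 (preg p (f χ).1) = ∑ h, preg p (f χ).1 h * (f χ).1 h := by
    rw [om, mul_div_cancel₀ _ (hb _ (f χ).2).one_ne_zero]
  rw [e1, e2]
  exact d4

end Pool.Agent.DC7914
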