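import Pool.Agent.Work.MP_dc7914_al.Decomp
import Pool.Agent.Work.MP_dc7914_al.Defect

/-!
# Itô's theorem for an abelian normal subgroup
-/

set_option linter.unusedSectionVars false

open Module Representation

namespace Pool.Agent.DC7914

theorem IsIrrChar.mul_of_comm {A : Type*} [Group A] [Finite A] (hA : ∀ x y : A, x * y = y * x)
    {μ : A → ℂ} (hμ : IsIrrChar μ) : μ 1 = 1 ∧ ∀ x y, μ (x * y) = μ x * μ y := by
  obtain ⟨n, σ, hσ, rfl⟩ := hμ
  have : IsMulCommutative A := ⟨⟨hA⟩⟩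
  have := hσ
  have h1 : finrank ℂ (Fin n → ℂ) = 1 := IsIrreducible.finrank_eq_one_of_isMulCommutative σ
  have h2 : ∀ x, σ x = σ.character x • (1 : End ℂ (Fin n → ℂ)) := by
    intro x
    obtain ⟨c, hc⟩ := schur σ hσ (σ x) (fun g => by rw [← map_mul, ← map_mul, hA])
    have h3 : LinearMap.trace ℂ (Fin n → ℂ) (c • (1 : End ℂ (Fin n → ℂ))) = c := by
      rw [map_smul, LinearMap.trace_one, h1]; simp
    rw [Representation.character, hc, h3]
  refine ⟨by rw [char_one, h1]; simp, fun x y => ?_⟩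
  have h3 : σ (x * y) = σ x * σ y := map_mul σ x y
  rw [h2 x, h2 y, h2 (x * y)] at h3
  have h4 := congrArg (LinearMap.trace ℂ _) h3
  rw [smul_mul_smul_comm, one_mul, map_smul, map_smul, LinearMap.trace_one, h1] at h4
  simpa using h4

section Ito

variable {N : Type*} [Group N] [Fintype N] {D : Subgroup N} [D.Normal]
variable {V : Type*} [AddCommGroup V] [Module ℂ V] [FiniteDimensional ℂ V]
variable (ρ : Representation ℂ N V)

open Classical in
/-- The idempotent of a linear character of `D`. -/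
noncomputable def proj (μ : D → ℂ) : End ℂ V := (Nat.card D : ℂ)⁻¹ • ∑ z : D, μ z⁻¹ • ρ z

open Classical in
theorem proj_mul (μ : D → ℂ) (hμ : ∀ x y, μ (x * y) = μ x * μ y) (_hμ1 : μ 1 = 1) (z : D) :
    proj ρ μ * ρ z = μ z • proj ρ μ := by
  rw [proj, smul_mul_assoc, smul_comm]
  congr 1
  rw [Finset.sum_mul, Finset.smul_sum]
  refine Fintype.sum_equiv (Equiv.mulRight z) _ _ (fun w => ?_)
  rw [smul_mul_assoc, ← map_mul, smul_smul]
  simp only [Equiv.coe_mulRight, Subgroup.coe_mul]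
  congr 1
  have : μ w⁻¹ = μ (z * (w * z)⁻¹) := by congr 1; group
  rw [this, hμ]

open Classical in
theorem mul_proj (μ : D → ℂ) (hμ : ∀ x y, μ (x * y) = μ x * μ y) (_hμ1 : μ 1 = 1) (z : D) :
    ρ z * proj ρ μ = μ z • proj ρ μ := by
  rw [proj, mul_smul_comm, smul_comm]
  congr 1
  rw [Finset.mul_sum, Finset.smul_sum]
  refine Fintype.sum_equiv (Equiv.mulLeft z) _ _ (fun w => ?_)
  rw [mul_smul_comm, ← map_mul, smul_smul]
  simp only [Equiv.coe_mulLeft, Subgroup.coe_mul]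
  congr 1
  have : μ w⁻¹ = μ ((z * w)⁻¹ * z) := by congr 1; group
  rw [this, hμ, mul_comm]

open Classical in
theorem proj_mul_proj (μ ν : D → ℂ) (hμ : ∀ x y, μ (x * y) = μ x * μ y) (hμ1 : μ 1 = 1)
    (hν : ∀ x y, ν (x * y) = ν x * ν y) (hν1 : ν 1 = 1) (hne : μ ≠ ν) :
    proj ρ μ * proj ρ ν = 0 := by
  obtain ⟨z, hz⟩ := Function.ne_iff.1 hne
  have h1 : μ z • (proj ρ μ * proj ρ ν) = ν z • (proj ρ μ * proj ρ ν) := by
    rw [← smul_mul_assoc, ← proj_mul ρ μ hμ hμ1 z, mul_assoc, mul_proj ρ ν hν hν1 z, mul_smul_comm]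
  have h2 : (μ z - ν z) • (proj ρ μ * proj ρ ν) = 0 := by rw [sub_smul, h1, sub_self]
  exact (smul_eq_zero.1 h2).resolve_left (sub_ne_zero.2 hz)

open Classical in
theorem proj_idem (μ : D → ℂ) (hμ : ∀ x y, μ (x * y) = μ x * μ y) (hμ1 : μ 1 = 1) :
    proj ρ μ * proj ρ μ = proj ρ μ := by
  have hD : (Nat.card D : ℂ) ≠ 0 := by exact_mod_cast Nat.card_pos.ne'
  have h0 : proj ρ μ = (Nat.card D : ℂ)⁻¹ • ∑ z : D, μ z⁻¹ • ρ z := rfl
  have h1 : ∀ z : D, (μ z⁻¹ • ρ z) * proj ρ μ = proj ρ μ := by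
    intro z
    rw [smul_mul_assoc, mul_proj ρ μ hμ hμ1 z, smul_smul, ← hμ, inv_mul_cancel, hμ1, one_smul]
  have h2 : proj ρ μ * proj ρ μ =
      (Nat.card D : ℂ)⁻¹ • ∑ z : D, (μ z⁻¹ • ρ z) * proj ρ μ := by
    rw [← Finset.sum_mul, ← smul_mul_assoc, ← h0]
  rw [h2, Finset.sum_congr rfl (fun z _ => h1 z), Finset.sum_const, Finset.card_univ,
    ← Nat.card_eq_fintype_card, ← Nat.cast_smul_eq_nsmul ℂ, smul_smul, inv_mul_cancel₀ hD, one_smul]

open Classical in
theorem conj_proj (μ : D → ℂ) (g : N) :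
    ρ g⁻¹ * proj ρ μ * ρ g = proj ρ (fun z : D => μ ⟨g * z * g⁻¹, ‹D.Normal›.conj_mem z z.2 g⟩) := by
  rw [proj, proj, mul_smul_comm, smul_mul_assoc]
  congr 1
  rw [Finset.mul_sum, Finset.sum_mul]
  refine Fintype.sum_equiv (MulAut.conjNormal g⁻¹).toEquiv _ _ (fun w => ?_)
  have h1 : (((MulAut.conjNormal g⁻¹).toEquiv w : D) : N) = g⁻¹ * w * g := by
    simp
  rw [mul_smul_comm, smul_mul_assoc, ← map_mul, ← map_mul]
  congr 1
  · congr 1
    apply Subtype.ext
    simp only [Subgroup.coe_inv, h1]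
    group
  · rw [h1]

open Classical in
theorem isIntegral_trace_proj (μ : D → ℂ) (hμ : ∀ x y, μ (x * y) = μ x * μ y) (hμ1 : μ 1 = 1)
    (g : N) : IsIntegral ℤ (LinearMap.trace ℂ V (ρ g⁻¹ * proj ρ μ)) := by
  set E := proj ρ μ with hE
  have hidem : E * E = E := proj_idem ρ μ hμ hμ1
  let ν : D → ℂ := fun z : D => μ ⟨g * z * g⁻¹, ‹D.Normal›.conj_mem z z.2 g⟩
  have hc : ρ g⁻¹ * E * ρ g = proj ρ ν := conj_proj ρ μ g
  have hgg : ρ g * ρ g⁻¹ = 1 := by rw [← map_mul, mul_inv_cancel, map_one]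
  have hc2 : ρ g⁻¹ * E = proj ρ ν * ρ g⁻¹ := by
    rw [← hc, mul_assoc (ρ g⁻¹ * E), hgg, mul_one]
  by_cases hν : μ = ν
  · rw [← hν, ← hE] at hc2
    have hcomm : Commute (ρ g⁻¹) E := hc2
    have hn : 0 < Nat.card N := Nat.card_pos
    apply isIntegral_trace_of_pow _ hn
    have h1 : E ^ (Nat.card N + 1) = E := by
      have : ∀ n : ℕ, E ^ (n + 1) = E := by
        intro n
        induction n with
        | zero => simp
        | succ n ih => rw [pow_succ, ih, hidem]
      exact this _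
    rw [hcomm.mul_pow, h1, pow_succ, ← map_pow, pow_card_eq_one', map_one, one_mul]
  · have hν2 : ∀ x y, ν (x * y) = ν x * ν y := by
      intro x y
      simp only [ν]
      rw [← hμ]
      congr 1
      apply Subtype.ext
      simp only [Subgroup.coe_mul]
      group
    have hν1 : ν 1 = 1 := by
      simp only [ν]
      rw [← hμ1]
      congr 1
      apply Subtype.ext
      simp
    have h1 : LinearMap.trace ℂ V (ρ g⁻¹ * E) = 0 := by
      have h2 : ρ g⁻¹ * E = (proj ρ ν * ρ g⁻¹) * E := by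
        rw [← hc2, mul_assoc, hidem]
      rw [h2, mul_assoc, LinearMap.trace_mul_comm, mul_assoc,
        proj_mul_proj ρ μ ν hμ hμ1 hν2 hν1 hν, mul_zero, map_zero]
    rw [h1]
    exact isIntegral_zero

theorem sum_char_inv_smul (hρ : ρ.IsIrreducible) :
    ∑ g, ρ.character g⁻¹ • ρ g = ((Nat.card N : ℂ) / ρ.character 1) • (1 : End ℂ V) := by
  have h1 := op_eq_smul ρ hρ (fun g => ρ.character g⁻¹) (op_comm_of_class ρ _ (by
    intro g x
    have : (x * g * x⁻¹)⁻¹ = x * g⁻¹ * x⁻¹ := by group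
    rw [this, char_conj]))
  rw [op] at h1
  rw [h1]
  congr 2
  have h2 := (isIrrChar_of_rep ρ hρ).orthonormal (isIrrChar_of_rep ρ hρ)
  rw [if_pos rfl] at h2
  rw [← h2]
  exact Finset.sum_congr rfl (fun g _ => mul_comm _ _)

open Classical in
theorem sum_trace_proj (hρ : ρ.IsIrreducible) (μ : D → ℂ) :
    ∑ g, LinearMap.trace ℂ V (ρ g⁻¹ * proj ρ μ) • ρ g =
      ((Nat.card N : ℂ) / ρ.character 1) • proj ρ μ := by
  have h1 : ∀ g, LinearMap.trace ℂ V (ρ g⁻¹ * proj ρ μ) =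
      (Nat.card D : ℂ)⁻¹ * ∑ z : D, μ z⁻¹ * ρ.character (g⁻¹ * z) := by
    intro g
    rw [proj, mul_smul_comm, map_smul, smul_eq_mul, Finset.mul_sum, map_sum]
    congr 1
    refine Finset.sum_congr rfl (fun z _ => ?_)
    rw [mul_smul_comm, map_smul, smul_eq_mul, ← map_mul]
    rfl
  simp only [h1]
  simp only [Finset.mul_sum, Finset.sum_smul]
  rw [Finset.sum_comm, proj, smul_smul, mul_comm, ← smul_smul]
  simp only [mul_smul, ← Finset.smul_sum]
  congr 1
  rw [Finset.smul_sum]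
  refine Finset.sum_congr rfl (fun z _ => ?_)
  rw [smul_comm]
  congr 1
  have h2 := sum_char_inv_smul ρ hρ
  have h3 : ∑ g, ρ.character (g⁻¹ * z) • ρ g = ρ z * ∑ g, ρ.character g⁻¹ • ρ g := by
    rw [Finset.mul_sum]
    refine Fintype.sum_equiv (Equiv.mulLeft (z : N)⁻¹) _ _ (fun g => ?_)
    simp only [Equiv.coe_mulLeft]
    rw [mul_smul_comm, ← map_mul]
    congr 2 <;> group
  rw [h3, h2, mul_smul_comm, mul_one]

/-- the sum over `N` of a right `D`-invariant function -/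
theorem sum_of_invariant {A : Type*} [AddCommMonoid A] (D : Subgroup N)
    [Fintype (N ⧸ D)] (F : N → A) (hF : ∀ g (z : D), F (g * z) = F g) :
    ∑ g, F g = Nat.card D • ∑ q : N ⧸ D, F q.out := by
  classical
  let e : (N ⧸ D) × D ≃ N :=
    { toFun := fun qz => qz.1.out * qz.2
      invFun := fun g => ((g : N ⧸ D), ⟨(g : N ⧸ D).out⁻¹ * g, by
        rw [← QuotientGroup.eq]
        exact Quotient.out_eq' (g : N ⧸ D)⟩)
      left_inv := by
        rintro ⟨q, z⟩
        have h1 : ((q.out * (z : N) : N) : N ⧸ D) = q := by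
          rw [QuotientGroup.mk_mul_of_mem _ z.2]
          exact Quotient.out_eq' q
        ext
        · exact h1
        · simp only [h1]
          group
      right_inv := by
        intro g
        simp }
  rw [← Equiv.sum_comp e, Fintype.sum_prod_type, Finset.smul_sum]
  refine Finset.sum_congr rfl (fun q _ => ?_)
  have : ∀ z : D, F (e (q, z)) = F q.out := fun z => hF _ _
  rw [Finset.sum_congr rfl (fun z _ => this z), Finset.sum_const, Finset.card_univ,
    Nat.card_eq_fintype_card]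

open Classical in
/-- Itô: `|N| / (|D| χ(1))` is an algebraic integer. -/
theorem ito_scalar (hρ : ρ.IsIrreducible) (μ : D → ℂ) (hμ : ∀ x y, μ (x * y) = μ x * μ y)
    (hμ1 : μ 1 = 1) (hE : proj ρ μ ≠ 0) :
    IsIntegral ℤ ((Nat.card N : ℂ) / (ρ.character 1 * Nat.card D)) := by
  set E := proj ρ μ with hEdef
  have hD : (Nat.card D : ℂ) ≠ 0 := by exact_mod_cast Nat.card_pos.ne'
  have h10 : ρ.character 1 ≠ 0 := (isIrrChar_of_rep ρ hρ).one_ne_zero
  have hidem : E * E = E := proj_idem ρ μ hμ hμ1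
  have hfin : Fintype (N ⧸ D) := Fintype.ofFinite _
  let f : N → ℂ := fun g => LinearMap.trace ℂ V (ρ g⁻¹ * E)
  have hf : ∀ g, IsIntegral ℤ (f g) := isIntegral_trace_proj ρ μ hμ hμ1
  let F : N → End ℂ V := fun g => f g • (ρ g * E)
  have hF : ∀ g (z : D), F (g * z) = F g := by
    intro g z
    have h1 : f (g * z) = μ z⁻¹ * f g := by
      simp only [f]
      rw [mul_inv_rev, map_mul ρ, mul_assoc, LinearMap.trace_mul_comm, mul_assoc]
      have h2 : E * ρ (z : N)⁻¹ = μ z⁻¹ • E := proj_mul ρ μ hμ hμ1 z⁻¹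
      rw [h2, mul_smul_comm, map_smul, smul_eq_mul]
    have h2 : ρ (g * z) * E = μ z • (ρ g * E) := by
      rw [map_mul, mul_assoc, mul_proj ρ μ hμ hμ1 z, mul_smul_comm]
    simp only [F]
    rw [h1, h2, smul_smul]
    congr 1
    have h3 : μ z⁻¹ * μ z = 1 := by rw [← hμ, inv_mul_cancel, hμ1]
    linear_combination f g * h3
  have h1 : ∑ g, F g = ((Nat.card N : ℂ) / ρ.character 1) • E := by
    have h2 := sum_trace_proj ρ hρ μ
    have h3 := congrArg (fun A => A * E) h2
    simp only [Finset.sum_mul, smul_mul_assoc] at h3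
    rw [← hEdef, hidem] at h3
    exact h3
  rw [sum_of_invariant D F hF] at h1
  set s : ℂ := (Nat.card N : ℂ) / (ρ.character 1 * Nat.card D) with hs
  have h2 : s • E = ∑ q : N ⧸ D, F q.out := by
    have h3 : (Nat.card D : ℂ) • ∑ q : N ⧸ D, F q.out = (Nat.card D : ℂ) • (s • E) := by
      rw [Nat.cast_smul_eq_nsmul, h1, smul_smul]
      congr 1
      rw [hs]
      field_simp
    exact (smul_right_injective _ hD h3).symm
  let R := integralClosure ℤ ℂ
  let X : Submodule R (End ℂ V) :=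
    Submodule.span R (Set.range fun gh : N × N => ρ gh.1 * E * ρ gh.2)
  have hX1 : X.FG := Submodule.fg_span (Set.finite_range _)
  have hEX : E ∈ X := by
    have : E = ρ 1 * E * ρ 1 := by rw [map_one]; simp
    rw [this]
    exact Submodule.subset_span ⟨(1, 1), rfl⟩
  have hX0 : X ≠ ⊥ := by
    intro h
    rw [h, Submodule.mem_bot] at hEX
    exact hE hEX
  have key : IsIntegral R s := by
    refine isIntegral_of_smul_mem_submodule X hX0 hX1 s (fun n hn => ?_)
    refine Submodule.span_induction (p := fun n _ => s • n ∈ X) ?_ ?_ ?_ ?_ hn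
    · rintro _ ⟨⟨g, g'⟩, rfl⟩
      simp only
      have h3 : s • (ρ g * E * ρ g') = ∑ q : N ⧸ D, f q.out • (ρ (g * q.out) * E * ρ g') := by
        have h4 : s • (ρ g * E * ρ g') = ρ g * (s • E) * ρ g' := by
          rw [mul_smul_comm, smul_mul_assoc]
        rw [h4, h2, Finset.mul_sum, Finset.sum_mul]
        refine Finset.sum_congr rfl (fun q _ => ?_)
        simp only [F]
        rw [mul_smul_comm, smul_mul_assoc, map_mul]
        simp only [mul_assoc]
      rw [h3]
      refine Submodule.sum_mem _ (fun q _ => ?_)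
      exact Submodule.smul_mem X (⟨f q.out, hf q.out⟩ : R)
        (Submodule.subset_span ⟨(g * q.out, g'), rfl⟩)
    · simp
    · intro x y _ _ hx hy
      rw [smul_add]; exact X.add_mem hx hy
    · intro a x _ hx
      rw [smul_comm]; exact X.smul_mem a hx
  exact isIntegral_trans s key

/-- restriction of a representation along a homomorphism -/
noncomputable def resRep {H : Type*} [Group H] (φ : H →* N) : Representation ℂ H V := ρ.comp φ

theorem exists_proj_ne_zero [Nontrivial V] (hD : ∀ x y : D, x * y = y * x) :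
    ∃ μ : D → ℂ, (∀ x y, μ (x * y) = μ x * μ y) ∧ μ 1 = 1 ∧ proj ρ μ ≠ 0 := by
  classical
  have hfin : Fintype D := Fintype.ofFinite _
  obtain ⟨s, hs1, hs2⟩ := decomp (resRep ρ D.subtype)
  have hs0 : s ≠ 0 := by
    rintro rfl
    have h1 := congrFun hs2 1
    rw [char_one] at h1
    simp only [Multiset.sum_zero, Pi.zero_apply, Nat.cast_eq_zero] at h1
    exact (finrank_pos (R := ℂ) (M := V)).ne' h1
  obtain ⟨μ, hμs⟩ := Multiset.exists_mem_of_ne_zero hs0
  have hμ := (hs1 μ hμs).1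
  obtain ⟨hμ1, hμ2⟩ := hμ.mul_of_comm hD
  refine ⟨μ, hμ2, hμ1, fun h0 => ?_⟩
  have h1 := inner_sum s (fun θ h => (hs1 θ h).1) μ hμ
  rw [← hs2] at h1
  have h2 := congrArg (LinearMap.trace ℂ V) h0
  rw [proj, map_smul, map_zero, map_sum] at h2
  have hDc : (Nat.card D : ℂ) ≠ 0 := by exact_mod_cast Nat.card_pos.ne'
  rw [smul_eq_zero] at h2
  have h3 := h2.resolve_left (inv_ne_zero hDc)
  have h4 : ∑ z : D, μ z * (resRep ρ D.subtype).character z⁻¹ = 0 := by
    rw [← h3, ← Equiv.sum_comp (Equiv.inv D)]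
    refine Finset.sum_congr (by ext; simp) (fun z _ => ?_)
    rw [map_smul, smul_eq_mul]
    simp only [Equiv.inv_apply, inv_inv]
    rfl
  rw [h4] at h1
  have h5 : (Multiset.count μ s : ℂ) = 0 := by
    rcases mul_eq_zero.1 h1.symm with h | h
    · exact h
    · exact absurd h hDc
  have h6 : Multiset.count μ s = 0 := by exact_mod_cast h5
  exact (Multiset.count_ne_zero.2 hμs) h6

end Ito

section

variable {N : Type*} [Group N] [Finite N] {D : Subgroup N} [D.Normal] {p : ℕ} [Fact p.Prime]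

/-- The `p`-part of Itô's theorem. -/
theorem ito (M : Ideal (integralClosure ℤ ℂ)) (hM : M.IsPrime)
    (hp : (p : integralClosure ℤ ℂ) ∈ M) (hD : ∀ x y : D, x * y = y * x)
    {χ : N → ℂ} (hχ : IsIrrChar χ) {n a h d e : ℕ} (hn : χ 1 = n)
    (hN : Nat.card N = p ^ a * h) (hh : ¬ p ∣ h) (hDc : Nat.card D = p ^ d) (he : p ^ e ∣ n) :
    e + d ≤ a := by
  have := Fintype.ofFinite N
  obtain ⟨k, ρ, hρ, rfl⟩ := hχ
  have := nontrivial_of_irr hρ
  obtain ⟨μ, h1, h2, h3⟩ := exists_proj_ne_zero ρ hD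
  have h4 := ito_scalar ρ hρ μ h1 h2 h3
  obtain ⟨m, hm⟩ := he
  have hp0 : (p : ℂ) ≠ 0 := by exact_mod_cast (Fact.out : p.Prime).ne_zero
  have hn0 : (n : ℂ) ≠ 0 := by rw [← hn]; exact (isIrrChar_of_rep ρ hρ).one_ne_zero
  have hm0 : (m : ℂ) ≠ 0 := by
    rintro h
    rw [hm] at hn0
    push_cast at hn0
    exact hn0 (by rw [h, mul_zero])
  have hA0 : red M 1 ≠ 0 := by
    rw [red_one]
    have := Ideal.Quotient.nontrivial_iff.2 hM.ne_top
    exact one_ne_zero
  refine le_of_mul_pow_eq hM hp (A := 1) isIntegral_one (h4.mul (isIntegral_nat m)) (u := h) hh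
    hA0 ?_
  rw [hn, hDc, hN, hm]
  push_cast
  field_simp
  ring

end

end Pool.Agent.DC7914
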