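import Pool.Agent.Work.MP_dc7914_al.Iso

/-!
# The degree congruence
-/

set_option linter.unusedSectionVars false

open Module Representation

namespace Pool.Agent.DC7914

variable {M : Ideal (integralClosure ℤ ℂ)} {p : ℕ} [Fact p.Prime]

theorem cong_iff {x y : ℂ} (hx : IsIntegral ℤ x) (hy : IsIntegral ℤ y) :
    Cong M x y ↔ red M x = red M y := by
  rw [← sub_eq_zero, ← red_sub M hx hy, red_eq_zero_iff (hx.sub hy), Cong]
  constructor
  · rintro ⟨m, hm, h⟩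
    have : (⟨x - y, hx.sub hy⟩ : integralClosure ℤ ℂ) = m := Subtype.ext h.symm
    rw [this]; exact hm
  · intro h
    exact ⟨_, h, rfl⟩

theorem lambdaNeZero_iff {G : Type*} [Group G] [Finite G] {B : Set (G → ℂ)} (hB : IsBlock M B)
    {χ : G → ℂ} (hχ : χ ∈ B) (x : G) : LambdaNeZero M B x ↔ red M (omega χ x) ≠ 0 := by
  obtain ⟨χ₀, hχ₀, rfl⟩ := hB
  have key : ∀ ψ ∈ {χ | IsIrrChar χ ∧ ∀ x, Cong M (omega χ x) (omega χ₀ x)},
      (¬ Cong M (omega ψ x) 0 ↔ red M (omega χ₀ x) ≠ 0) := by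
    intro ψ hψ
    rw [cong_iff (hψ.1.isIntegral_omega x) isIntegral_zero, red_zero,
      (cong_iff (hψ.1.isIntegral_omega x) (hχ₀.isIntegral_omega x)).1 (hψ.2 x)]
  constructor
  · rintro ⟨ψ, hψ, h⟩
    have h1 := (key ψ hψ).1 h
    rwa [(cong_iff (hχ.1.isIntegral_omega x) (hχ₀.isIntegral_omega x)).1 (hχ.2 x)]
  · intro h
    rw [(cong_iff (hχ.1.isIntegral_omega x) (hχ₀.isIntegral_omega x)).1 (hχ.2 x)] at h
    exact ⟨χ, hχ, (key χ hχ).2 h⟩

theorem block_irr {G : Type*} [Group G] {B : Set (G → ℂ)} (hB : IsBlock M B) {χ : G → ℂ}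
    (hχ : χ ∈ B) : IsIrrChar χ := by
  obtain ⟨χ₀, hχ₀, rfl⟩ := hB
  exact hχ.1

theorem block_nonempty {G : Type*} [Group G] {B : Set (G → ℂ)} (hB : IsBlock M B) :
    B.Nonempty := by
  obtain ⟨χ₀, hχ₀, rfl⟩ := hB
  exact ⟨χ₀, hχ₀, fun x => ⟨0, M.zero_mem, by simp⟩⟩

theorem corr_eq {G : Type*} [Group G] [Finite G] {D : Subgroup G}
    [Fintype (Subgroup.normalizer (D : Set G))]
    (ψ : Subgroup.normalizer (D : Set G) → ℂ) (x : G) :
    (∑ᶠ y : {y : Subgroup.normalizer (D : Set G) // IsConj x (y : G)}, ψ y) / ψ 1 =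
      om ψ (indG D x) := by
  classical
  rw [om]
  congr 1
  have hf : Fintype {y : Subgroup.normalizer (D : Set G) // IsConj x (y : G)} :=
    Fintype.ofFinite _
  rw [finsum_eq_sum_of_fintype]
  simp only [indG, ite_mul, one_mul, zero_mul]
  rw [← Finset.sum_filter]
  rw [Finset.sum_subtype (p := fun y : Subgroup.normalizer (D : Set G) => IsConj x (y : G))
    (Finset.univ.filter
      (fun y : Subgroup.normalizer (D : Set G) => IsConj x (y : G)))
    (fun y => by rw [Finset.mem_filter]; exact and_iff_right (Finset.mem_univ y)) ψ]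

/-- The congruence for the degrees, in the case of the characters `χ` and `ψ` corresponding to
each other up to sign. -/
theorem degree_congruence {G : Type*} [Group G] [Finite G]
    (hM : M.IsPrime) (hp : (p : integralClosure ℤ ℂ) ∈ M)
    {D : Subgroup G} (hD : ∀ x y : D, x * y = y * x)
    {B : Set (G → ℂ)} (hB : IsBlock M B) (hBD : IsDefectGroup p M B D)
    {b : Set (Subgroup.normalizer (D : Set G) → ℂ)} (hb : IsBrauerCorrespondent p M D B b)
    {I : (B →₀ ℤ) ≃+ (b →₀ ℤ)} (hI : IsPerfectIsometry p M B b I) :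
    ∃ f : B ≃ b, ∀ χ : B, ∃ m m' : ℕ, ∃ e e' : ℕ,
      χ.1 1 = ((p ^ e * m : ℕ) : ℂ) ∧ (f χ).1 1 = ((p ^ e' * m' : ℕ) : ℂ) ∧
      ¬ p ∣ m ∧ ¬ p ∣ m' ∧
      ((m : ℤ) ≡ (ordCompl[p] (Subgroup.normalizer (D : Set G)).index : ℕ) * m' [ZMOD p] ∨
       (m : ℤ) ≡ -((ordCompl[p] (Subgroup.normalizer (D : Set G)).index : ℕ) * m') [ZMOD p]) := by
  classical
  have hp1 : p.Prime := Fact.out
  have hdom := Ideal.Quotient.isDomain M
  have hfG : Fintype G := Fintype.ofFinite G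
  have hfN : Fintype (Subgroup.normalizer (D : Set G)) := Fintype.ofFinite _
  have hfB : Fintype B := by
    have : B.Finite := irr_finite.subset (fun χ hχ => block_irr hB hχ)
    exact this.fintype
  obtain ⟨hbB, hbD, hcorr⟩ := hb
  obtain ⟨⟨x₀, hx₀, hDx₀, hDp, hDx₀p⟩, hmin⟩ := hBD
  obtain ⟨f, ε, hε, hf⟩ := signed_bijection B b I hI.isometry
  refine ⟨f, fun χ => ?_⟩
  have hχ : IsIrrChar χ.1 := block_irr hB χ.2
  have hψ : IsIrrChar (f χ).1 := block_irr hbB (f χ).2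
  set ψ := (f χ).1 with hψdef
  -- the order of `D`
  obtain ⟨d, hDc⟩ := IsPGroup.iff_card.1 hDp
  -- orders
  obtain ⟨a, h, hh, hG⟩ :=
    Nat.exists_eq_pow_mul_and_not_dvd (Nat.card_pos (α := G)).ne' p hp1.ne_one
  obtain ⟨a', h', hh', hN⟩ := Nat.exists_eq_pow_mul_and_not_dvd
    (Nat.card_pos (α := Subgroup.normalizer (D : Set G))).ne' p hp1.ne_one
  -- congruences
  have hcorr' : ∀ x : G, red M (omega χ.1 x) = red M (om ψ (indG D x)) := by
    intro x
    have h1 := hcorr χ.1 χ.2 ψ (f χ).2 x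
    rw [corr_eq] at h1
    exact (cong_iff (hχ.isIntegral_omega x)
      (isIntegral_om hψ (indG_class x) (indG_integral x))).1 h1
  have hx₀' : red M (omega χ.1 x₀) ≠ 0 := (lambdaNeZero_iff hB χ.2 x₀).1 hx₀
  have hmin' : ∀ x : G, red M (omega χ.1 x) ≠ 0 →
      ∃ g : G, ∀ z ∈ D, g * z * g⁻¹ ∈ Subgroup.centralizer ({x} : Set G) :=
    fun x hx => hmin x ((lambdaNeZero_iff hB χ.2 x).2 hx)
  -- the defect class
  have hx₀C : x₀ ∈ Subgroup.centralizer (D : Set G) := by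
    rw [Subgroup.mem_centralizer_iff]
    intro z hz
    have h1 := hDx₀ hz
    rw [Subgroup.mem_centralizer_iff] at h1
    exact (h1 x₀ rfl).symm
  let y₀ : Subgroup.normalizer (D : Set G) := ⟨x₀, Subgroup.centralizer_le_normalizer _ hx₀C⟩
  obtain ⟨cN, cG, hcN, hcG, hcc⟩ := cen_congr (p := p) hDc y₀ hx₀C
  have hcGp : ¬ p ∣ cG := by
    have h1 : Nat.card (Subgroup.centralizer ({x₀} : Set G)) = p ^ d * cG := hcG
    have h2 := (D.subgroupOf (Subgroup.centralizer ({x₀} : Set G))).index_mul_card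
    have h3 : Nat.card (D.subgroupOf (Subgroup.centralizer ({x₀} : Set G))) = p ^ d := by
      rw [← hDc]
      exact Nat.card_congr (Subgroup.subgroupOfEquivOfLe hDx₀).toEquiv
    rw [h3, h1, mul_comm] at h2
    have h4 := Nat.eq_of_mul_eq_mul_left (pow_pos hp1.pos d) h2
    rw [← h4]
    exact hDx₀p
  have hcNp : ¬ p ∣ cN := fun h1 => hcGp ((hcc.dvd_iff (dvd_refl p)).1 h1)
  have hx₀f : (cen x₀).factorization p = d := (factorization_of_eq hcG hcGp).1
  have hy₀ : red M (omega ψ y₀) ≠ 0 := by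
    rw [← red_omega_match hM hp hD hDc hψ hcorr' y₀ hx₀C hx₀f]
    exact hx₀'
  -- degrees
  obtain ⟨hda', m', hm'p, hm'⟩ := degree_eq (D := DN D) hM hp (DN_comm hD)
    ((card_DN D).trans hDc) hN hh' hψ hy₀ hcN hcNp
  have hda : d ≤ a := by
    have h1 : p ^ d ∣ p ^ a * h := by
      rw [← hG, ← hDc]; exact Subgroup.card_subgroup_dvd_card D
    have h2 : p ^ d ∣ p ^ a :=
      (Nat.Coprime.pow_left _ ((Nat.Prime.coprime_iff_not_dvd hp1).2 hh)).dvd_of_dvd_mul_right h1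
    exact (Nat.pow_dvd_pow_iff_le_right hp1.one_lt).1 h2
  obtain ⟨n, hn0, hn⟩ := hχ.degree
  have hcs : p ^ (a - d) ∣ csize x₀ := by
    have h2 := csize_mul_cen x₀
    have hcG' : cen x₀ = p ^ d * cG := hcG
    rw [hG, hcG'] at h2
    have h3 : p ^ a = p ^ d * p ^ (a - d) := by rw [← pow_add]; congr 1; omega
    have h4 : p ^ d * (csize x₀ * cG) = p ^ d * (p ^ (a - d) * h) := by
      calc p ^ d * (csize x₀ * cG) = csize x₀ * (p ^ d * cG) := by ring
        _ = p ^ a * h := h2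
        _ = _ := by rw [h3]; ring
    have h5 : csize x₀ * cG = p ^ (a - d) * h :=
      Nat.eq_of_mul_eq_mul_left (pow_pos hp1.pos d) h4
    have h6 : p ^ (a - d) ∣ csize x₀ * cG := by rw [h5]; exact Dvd.intro _ rfl
    exact (Nat.Coprime.pow_left _
      ((Nat.Prime.coprime_iff_not_dvd hp1).2 hcGp)).dvd_of_dvd_mul_right h6
  obtain ⟨m, hm⟩ := pow_dvd_degree hM hp hχ hn hx₀' hcs
  rw [hm] at hn
  -- the two congruences
  have hT := red_T hM hp hχ hχ (fun _ => rfl) hG hh hn (fun x hx => by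
    obtain ⟨g, hg⟩ := hmin' x hx
    rw [← hDc, cen]
    have h1 : D.map (MulAut.conj g).toMonoidHom ≤ Subgroup.centralizer ({x} : Set G) := by
      rintro _ ⟨z, hz, rfl⟩
      exact hg z hz
    have h2 := Subgroup.card_dvd_of_le h1
    rwa [← Nat.card_congr (D.equivMapOfInjective _ (MulAut.conj g).injective).toEquiv] at h2)
  have hT' := red_T hM hp hψ hψ (fun _ => rfl) hN hh' hm' (fun x hx => by
    have h1 : x ∈ Subgroup.centralizer (DN D : Set (Subgroup.normalizer (D : Set G))) := by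
      by_contra hn
      exact hx (red_omega_eq_zero (p := p) hM hp (DN_comm hD)
        (IsPGroup.of_card ((card_DN D).trans hDc)) hψ hn)
    rw [← hDc, ← card_DN D]
    exact card_dvd_cen h1)
  have hS : SB M p d χ.1 = SB M p d ψ := SB_match hM hp hD hDc hχ hψ hcorr' hmin'
  have hS0 : SB M p d ψ ≠ 0 := SB_ne_zero (D := DN D) hM hp (DN_comm hD)
    ((card_DN D).trans hDc) hN hh' hψ hy₀ hcN hcNp
  rw [hS] at hT
  set S := SB M p d ψ with hSdef
  -- the norms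
  have hsep : ∀ g h, ¬ (p ∣ orderOf g ↔ p ∣ orderOf h) →
      ∑ χ : B, (ε χ : ℂ) * (f χ).1 h * χ.1 g = 0 := by
    intro g h hgh
    rw [← mu_eq B b I f ε hf]
    exact hI.separation g h hgh
  have hnorm := norm_preg B b (fun χ h => block_irr hB h) (fun ψ h => block_irr hbB h) f ε hε
    hsep χ
  rw [← hψdef, hn, hm', hG, hN] at hnorm
  set T := om χ.1 (preg p χ.1) with hTdef
  set T' := om ψ (preg p ψ) with hT'def
  have hTi : IsIntegral ℤ T := isIntegral_om hχ (isClassFn_preg hχ) (isIntegral_preg hχ)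
  have hT'i : IsIntegral ℤ T' := isIntegral_om hψ (isClassFn_preg hψ) (isIntegral_preg hψ)
  have hp0 : (p : ℂ) ≠ 0 := by exact_mod_cast hp1.ne_zero
  have hrel : ((h' * m : ℕ) : ℂ) * T = ((h * m' : ℕ) : ℂ) * T' := by
    have e1 : (p : ℂ) ^ a = (p : ℂ) ^ (a - d) * (p : ℂ) ^ d := by
      rw [← pow_add]; congr 1; omega
    have e2 : (p : ℂ) ^ a' = (p : ℂ) ^ (a' - d) * (p : ℂ) ^ d := by
      rw [← pow_add]; congr 1; omega
    push_cast at hnorm ⊢
    have hne : (p : ℂ) ^ (a - d) * (p : ℂ) ^ (a' - d) * (p : ℂ) ^ d ≠ 0 :=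
      mul_ne_zero (mul_ne_zero (pow_ne_zero _ hp0) (pow_ne_zero _ hp0)) (pow_ne_zero _ hp0)
    apply mul_left_cancel₀ hne
    rw [e1, e2] at hnorm
    linear_combination hnorm
  have hred := congrArg (red M) hrel
  rw [red_mul M (isIntegral_nat _) hTi, red_mul M (isIntegral_nat _) hT'i, red_nat, red_nat] at hred
  -- the index
  have hidx : h = h' * ordCompl[p] (Subgroup.normalizer (D : Set G)).index := by
    have h1 := (Subgroup.normalizer (D : Set G)).index_mul_card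
    rw [hG, hN] at h1
    have h2 : ordCompl[p] (Nat.card G) = h := by
      exact (factorization_of_eq (p := p) hG hh).2
    have h3 : ordCompl[p] (Nat.card (Subgroup.normalizer (D : Set G))) = h' :=
      (factorization_of_eq (p := p) hN hh').2
    have h4 : Nat.card G = Nat.card (Subgroup.normalizer (D : Set G)) *
        (Subgroup.normalizer (D : Set G)).index := by
      rw [mul_comm]; exact (Subgroup.index_mul_card _).symm
    rw [h4, Nat.ordCompl_mul, h3] at h2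
    exact h2.symm
  set γ := ordCompl[p] (Subgroup.normalizer (D : Set G)).index with hγ
  have hγp : ¬ p ∣ γ := Nat.not_dvd_ordCompl hp1 Subgroup.index_ne_zero_of_finite
  have hchar := charP_quot (p := p) hM.ne_top hp
  have hh'0 : (h' : (integralClosure ℤ ℂ) ⧸ M) ≠ 0 :=
    fun h1 => hh' ((natCast_eq_zero_iff hM.ne_top hp _).1 h1)
  have hfin : ((m : (integralClosure ℤ ℂ) ⧸ M) - γ * m') * (m + γ * m') = 0 := by
    push_cast at hred
    have h1 : S * ((h' : (integralClosure ℤ ℂ) ⧸ M) * h' *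
        ((m - γ * m') * (m + γ * m'))) = 0 := by
      have h2 : (h : (integralClosure ℤ ℂ) ⧸ M) = h' * γ := by
        rw [hidx]; push_cast; ring
      calc S * ((h' : (integralClosure ℤ ℂ) ⧸ M) * h' * ((m - γ * m') * (m + γ * m')))
          = h' * m * h' * (m * S) - (h' * γ) * m' * (h' * γ) * (m' * S) := by ring
        _ = h' * m * h' * (h * red M T) - h * m' * h * (h' * red M T') := by
            rw [← hT, ← hT', ← h2]
        _ = h * h' * (h' * m * red M T - h * m' * red M T') := by ring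
        _ = 0 := by rw [hred, sub_self, mul_zero]
    have h2 := (mul_eq_zero.1 h1).resolve_left hS0
    exact (mul_eq_zero.1 h2).resolve_left (mul_ne_zero hh'0 hh'0)
  have hcases : (m : ℤ) ≡ (γ : ℕ) * m' [ZMOD p] ∨ (m : ℤ) ≡ -((γ : ℕ) * m') [ZMOD p] := by
    rcases mul_eq_zero.1 hfin with h1 | h1
    · left
      have h2 : (((m : ℤ) - γ * m' : ℤ) : (integralClosure ℤ ℂ) ⧸ M) = 0 := by
        push_cast; exact h1
      have h3 := (CharP.intCast_eq_zero_iff ((integralClosure ℤ ℂ) ⧸ M) p _).1 h2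
      exact (Int.modEq_iff_dvd.2 h3).symm
    · right
      have h2 : (((m : ℤ) - -(γ * m') : ℤ) : (integralClosure ℤ ℂ) ⧸ M) = 0 := by
        push_cast; linear_combination h1
      have h3 := (CharP.intCast_eq_zero_iff ((integralClosure ℤ ℂ) ⧸ M) p _).1 h2
      exact (Int.modEq_iff_dvd.2 h3).symm
  have hmp : ¬ p ∣ m := by
    intro h1
    have h2 : (p : ℤ) ∣ (γ : ℤ) * m' := by
      have h3 : (p : ℤ) ∣ (m : ℤ) := by exact_mod_cast h1
      rcases hcases with h4 | h4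
      · exact h4.dvd_iff.1 h3
      · exact (dvd_neg).1 (h4.dvd_iff.1 h3)
    have h3 : p ∣ γ * m' := by exact_mod_cast h2
    rcases (Nat.Prime.dvd_mul hp1).1 h3 with h4 | h4
    · exact hγp h4
    · exact hm'p h4
  exact ⟨m, m', a - d, a' - d, hn, hm', hmp, hm'p, hcases⟩

theorem ordCompl_iff {z : ℂ} {m e : ℕ} (hz : z = ((p ^ e * m : ℕ) : ℂ)) (hm : ¬ p ∣ m)
    (P : ℕ → Prop) : (∃ n : ℕ, z = n ∧ P (ordCompl[p] n)) ↔ P m := by
  have h0 : ordCompl[p] (p ^ e * m) = m := (factorization_of_eq (p := p) rfl hm).2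
  constructor
  · rintro ⟨n, hn, h⟩
    rw [hz] at hn
    have h1 : p ^ e * m = n := by exact_mod_cast hn
    rw [← h1, h0] at h
    exact h
  · intro h
    exact ⟨p ^ e * m, hz, by rw [h0]; exact h⟩

theorem count_iff {γ m m' : ℕ} (hγ : ¬ p ∣ γ) (k : ℤ)
    (h : (m : ℤ) ≡ (γ : ℕ) * m' [ZMOD p] ∨ (m : ℤ) ≡ -((γ : ℕ) * m') [ZMOD p]) :
    ((m : ℤ) ≡ (γ : ℤ) * k [ZMOD p] ∨ (m : ℤ) ≡ -((γ : ℤ) * k) [ZMOD p]) ↔
      ((m' : ℤ) ≡ k [ZMOD p] ∨ (m' : ℤ) ≡ -k [ZMOD p]) := by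
  simp only [← ZMod.intCast_eq_intCast_iff] at h ⊢
  push_cast at h ⊢
  have hγ0 : (γ : ZMod p) ≠ 0 := by
    intro h1
    exact hγ ((ZMod.natCast_eq_zero_iff γ p).1 h1)
  have c1 : ∀ x y : ZMod p, (γ : ZMod p) * x = γ * y ↔ x = y :=
    fun x y => ⟨fun h => mul_left_cancel₀ hγ0 h, fun h => by rw [h]⟩
  have c2 : ∀ x y : ZMod p, -((γ : ZMod p) * x) = γ * y ↔ x = -y := by
    intro x y
    rw [← mul_neg, c1]
    exact neg_eq_iff_eq_neg
  rcases h with h | h
  · rw [h, ← mul_neg, c1, c1]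
  · rw [h, neg_inj, c1, c2]
    exact or_comm

theorem degCount_eq {G : Type*} [Group G] [Finite G]
    (hM : M.IsPrime) (hp : (p : integralClosure ℤ ℂ) ∈ M)
    {D : Subgroup G} (hD : ∀ x y : D, x * y = y * x)
    {B : Set (G → ℂ)} (hB : IsBlock M B) (hBD : IsDefectGroup p M B D)
    {b : Set (Subgroup.normalizer (D : Set G) → ℂ)} (hb : IsBrauerCorrespondent p M D B b)
    {I : (B →₀ ℤ) ≃+ (b →₀ ℤ)} (hI : IsPerfectIsometry p M B b I) (k : ℤ) :
    degCount p B ((ordCompl[p] (Subgroup.normalizer (D : Set G)).index : ℕ) * k) =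
      degCount p b k := by
  obtain ⟨f, hf⟩ := degree_congruence hM hp hD hB hBD hb hI
  have hp1 : p.Prime := Fact.out
  set γ := ordCompl[p] (Subgroup.normalizer (D : Set G)).index with hγ
  have hγp : ¬ p ∣ γ := Nat.not_dvd_ordCompl hp1 Subgroup.index_ne_zero_of_finite
  let P : (G → ℂ) → Prop := fun θ => ∃ n : ℕ, θ 1 = n ∧
    (((ordCompl[p] n : ℕ) : ℤ) ≡ (γ : ℤ) * k [ZMOD p] ∨
      ((ordCompl[p] n : ℕ) : ℤ) ≡ -((γ : ℤ) * k) [ZMOD p])
  let Q : (Subgroup.normalizer (D : Set G) → ℂ) → Prop := fun θ => ∃ n : ℕ, θ 1 = n ∧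
    (((ordCompl[p] n : ℕ) : ℤ) ≡ k [ZMOD p] ∨ ((ordCompl[p] n : ℕ) : ℤ) ≡ -k [ZMOD p])
  have hPQ : ∀ χ : B, P χ.1 ↔ Q (f χ).1 := by
    intro χ
    obtain ⟨m, m', e, e', h1, h2, h3, h4, h5⟩ := hf χ
    have i1 : P χ.1 ↔ ((m : ℤ) ≡ (γ : ℤ) * k [ZMOD p] ∨ (m : ℤ) ≡ -((γ : ℤ) * k) [ZMOD p]) :=
      ordCompl_iff h1 h3 (fun m => (m : ℤ) ≡ (γ : ℤ) * k [ZMOD p] ∨
        (m : ℤ) ≡ -((γ : ℤ) * k) [ZMOD p])
    have i2 : Q (f χ).1 ↔ ((m' : ℤ) ≡ k [ZMOD p] ∨ (m' : ℤ) ≡ -k [ZMOD p]) :=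
      ordCompl_iff h2 h4 (fun m => (m : ℤ) ≡ k [ZMOD p] ∨ (m : ℤ) ≡ -k [ZMOD p])
    rw [i1, i2]
    exact count_iff hγp k h5
  rw [degCount, degCount]
  have e1 : {θ : G → ℂ // θ ∈ B ∧ P θ} ≃ {χ : B // P χ.1} :=
    (Equiv.subtypeSubtypeEquivSubtypeInter (fun θ => θ ∈ B) P).symm
  have e2 : {θ : Subgroup.normalizer (D : Set G) → ℂ // θ ∈ b ∧ Q θ} ≃ {χ : b // Q χ.1} :=
    (Equiv.subtypeSubtypeEquivSubtypeInter (fun θ => θ ∈ b) Q).symm
  have e3 : {χ : B // P χ.1} ≃ {χ : b // Q χ.1} := f.subtypeEquiv hPQ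
  exact Nat.card_congr ((e1.trans e3).trans e2.symm)

end Pool.Agent.DC7914
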