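import Pool.Agent.Work.MP_dc7914_al.Nonvan

/-!
# Matching of the sums `S_B` and `S_b`
-/

set_option linter.unusedSectionVars false

open Module Representation MonoidAlgebra
open scoped Pointwise

namespace Pool.Agent.DC7914

section

variable {G : Type*} [Group G] [Finite G] {p : ℕ} [Fact p.Prime]
variable {M : Ideal (integralClosure ℤ ℂ)}

theorem sterm_class {d : ℕ} {χ : G → ℂ} (hχ : IsIrrChar χ) : IsClassFn (sterm M p d χ) := by
  intro g x
  have h1 : IsConj g (x * g * x⁻¹) := isConj_iff.2 ⟨x, rfl⟩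
  have h2 : IsConj g⁻¹ (x * g * x⁻¹)⁻¹ := isConj_iff.2 ⟨x, by group⟩
  rw [sterm, sterm, ← cen_conj h1, ← omega_eq hχ h1, ← omega_eq hχ h2, orderOf_conj]

open Classical in
theorem SB_eq [Fintype (ConjClasses G)] (d : ℕ) (χ : G → ℂ) :
    SB M p d χ = ∑ K : ConjClasses G, sterm M p d χ (Quotient.out K) := by
  rw [SB]
  exact Finset.sum_congr (by ext; simp) (fun _ _ => rfl)

variable (D : Subgroup G)

/-- `D` as a subgroup of its normalizer -/
abbrev DN : Subgroup (Subgroup.normalizer (D : Set G)) := D.subgroupOf (Subgroup.normalizer (D : Set G))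

instance : (DN D).Normal := Subgroup.normal_in_normalizer

theorem card_DN : Nat.card (DN D) = Nat.card D :=
  Nat.card_congr (Subgroup.subgroupOfEquivOfLe Subgroup.le_normalizer).toEquiv

variable {D}

theorem DN_comm (hD : ∀ x y : D, x * y = y * x) : ∀ x y : DN D, x * y = y * x := by
  intro x y
  apply Subtype.ext
  apply Subtype.ext
  have h := congrArg Subtype.val (hD ⟨(x : Subgroup.normalizer (D : Set G)), x.2⟩
    ⟨(y : Subgroup.normalizer (D : Set G)), y.2⟩)
  exact h

theorem mem_centralizer_DN (y : Subgroup.normalizer (D : Set G)) :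
    y ∈ Subgroup.centralizer (DN D : Set (Subgroup.normalizer (D : Set G))) ↔
      (y : G) ∈ Subgroup.centralizer (D : Set G) := by
  rw [Subgroup.mem_centralizer_iff, Subgroup.mem_centralizer_iff]
  constructor
  · intro h z hz
    exact congrArg Subtype.val (h ⟨z, Subgroup.le_normalizer hz⟩ hz)
  · intro h z hz
    exact Subtype.ext (h z hz)

theorem le_centralizer_of_mem {y : G} (hy : y ∈ Subgroup.centralizer (D : Set G)) :
    D ≤ Subgroup.centralizer ({y} : Set G) := by
  intro z hz
  rw [Subgroup.mem_centralizer_iff] at hy ⊢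
  intro w hw
  rw [Set.mem_singleton_iff] at hw
  subst hw
  exact (hy z hz).symm

/-- Sylow: the indices of `D` in `C_N(y)` and in `C_G(y)` are congruent mod `p`. -/
theorem cen_congr {d : ℕ} (hDc : Nat.card D = p ^ d) (y : Subgroup.normalizer (D : Set G))
    (hy : (y : G) ∈ Subgroup.centralizer (D : Set G)) :
    ∃ cN cG : ℕ, cen y = p ^ d * cN ∧ cen (y : G) = p ^ d * cG ∧ cN ≡ cG [MOD p] := by
  let K := Subgroup.centralizer ({(y : G)} : Set G)
  have hDK : D ≤ K := le_centralizer_of_mem hy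
  let DK : Subgroup K := D.subgroupOf K
  have hDKc : Nat.card DK = p ^ d := by
    rw [← hDc]
    exact Nat.card_congr (Subgroup.subgroupOfEquivOfLe hDK).toEquiv
  have h1 := Sylow.card_quotient_normalizer_modEq_card_quotient (p := p) (n := d) (H := DK) hDKc
  refine ⟨_, _, ?_, ?_, h1⟩
  · have h2 : cen y = Nat.card (Subgroup.normalizer (DK : Set K)) := by
      let e : Subgroup.centralizer ({y} : Set (Subgroup.normalizer (D : Set G))) ≃
          Subgroup.normalizer (DK : Set K) :=
        { toFun := fun x => ⟨⟨((x : Subgroup.normalizer (D : Set G)) : G), by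
              have h3 := x.2
              rw [Subgroup.mem_centralizer_iff] at h3 ⊢
              intro w hw
              rw [Set.mem_singleton_iff] at hw
              subst hw
              exact congrArg Subtype.val (h3 y rfl)⟩, by
              have h3 := x.1.2
              rw [Subgroup.mem_normalizer_iff] at h3 ⊢
              intro w
              exact h3 (w : G)⟩
          invFun := fun x => ⟨⟨((x : K) : G), by
              have h3 := x.2
              rw [Subgroup.mem_normalizer_iff] at h3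
              apply Subgroup.mem_normalizer_fintype
              intro w hw
              exact (h3 ⟨w, hDK hw⟩).1 hw⟩, by
              have h3 := x.1.2
              rw [Subgroup.mem_centralizer_iff] at h3 ⊢
              intro w hw
              rw [Set.mem_singleton_iff] at hw
              subst hw
              exact Subtype.ext (h3 (w : G) rfl)⟩
          left_inv := fun _ => rfl
          right_inv := fun _ => rfl }
      exact Nat.card_congr e
    rw [h2, Subgroup.card_eq_card_quotient_mul_card_subgroup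
      (DK.subgroupOf (Subgroup.normalizer (DK : Set K))), mul_comm]
    congr 1
    rw [← hDKc]
    exact Nat.card_congr (Subgroup.subgroupOfEquivOfLe Subgroup.le_normalizer).toEquiv
  · have h2 : cen (y : G) = Nat.card K := rfl
    rw [h2, Subgroup.card_eq_card_quotient_mul_card_subgroup DK, hDKc, mul_comm]

/-- If `D` is a Sylow subgroup of `C_G(y)`, then `y^G ∩ C_G(D)` is a single class of `N`. -/
theorem isConj_normalizer {d : ℕ} (hDc : Nat.card D = p ^ d) {y g : G}
    (hy : y ∈ Subgroup.centralizer (D : Set G)) (hg : g ∈ Subgroup.centralizer (D : Set G))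
    (hyd : (cen y).factorization p = d) (h : IsConj y g) :
    ∃ n ∈ Subgroup.normalizer (D : Set G), n * y * n⁻¹ = g := by
  obtain ⟨x, hx⟩ := isConj_iff.1 h
  let K := Subgroup.centralizer ({y} : Set G)
  have hDK : D ≤ K := le_centralizer_of_mem hy
  let D₂ : Subgroup G := D.map (MulAut.conj x⁻¹).toMonoidHom
  have hD₂K : D₂ ≤ K := by
    rintro _ ⟨z, hz, rfl⟩
    rw [Subgroup.mem_centralizer_iff] at hg ⊢
    intro w hw
    rw [Set.mem_singleton_iff] at hw
    subst hw
    have h1 := hg z hz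
    rw [← hx] at h1
    simp only [MulEquiv.coe_toMonoidHom, MulAut.conj_apply, inv_inv]
    calc w * (x⁻¹ * z * x) = x⁻¹ * (x * w * x⁻¹ * z) * x := by group
      _ = x⁻¹ * (z * (x * w * x⁻¹)) * x := by rw [h1]
      _ = x⁻¹ * z * x * w := by group
  have hc1 : Nat.card (D.subgroupOf K) = p ^ (Nat.card K).factorization p := by
    have h2 : Nat.card K = cen y := rfl
    rw [h2, hyd, ← hDc]
    exact Nat.card_congr (Subgroup.subgroupOfEquivOfLe hDK).toEquiv
  have hc2 : Nat.card (D₂.subgroupOf K) = p ^ (Nat.card K).factorization p := by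
    have h2 : Nat.card K = cen y := rfl
    rw [h2, hyd, ← hDc]
    rw [Nat.card_congr (Subgroup.subgroupOfEquivOfLe hD₂K).toEquiv]
    exact (Nat.card_congr (D.equivMapOfInjective _ (MulAut.conj x⁻¹).injective).toEquiv).symm
  obtain ⟨k, hk⟩ := MulAction.exists_smul_eq K (Sylow.ofCard _ hc2) (Sylow.ofCard _ hc1)
  have hk2 : MulAut.conj k • (D₂.subgroupOf K) = D.subgroupOf K := by
    have h3 := congrArg (fun P : Sylow p K => (P : Subgroup K)) hk
    simpa only [Sylow.coe_subgroup_smul, Sylow.coe_ofCard] using h3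
  have hn : (k : G) * x⁻¹ ∈ Subgroup.normalizer (D : Set G) := by
    apply Subgroup.mem_normalizer_fintype
    intro z hz
    have h4 : (⟨x⁻¹ * z * x, hD₂K ⟨z, hz, by simp⟩⟩ : K) ∈ D₂.subgroupOf K := by
      rw [Subgroup.mem_subgroupOf]
      exact ⟨z, hz, by simp⟩
    have h5 : MulAut.conj k • (⟨x⁻¹ * z * x, hD₂K ⟨z, hz, by simp⟩⟩ : K) ∈
        MulAut.conj k • (D₂.subgroupOf K) := Subgroup.smul_mem_pointwise_smul _ _ _ h4
    rw [hk2, Subgroup.mem_subgroupOf] at h5
    have h6 : ((MulAut.conj k • (⟨x⁻¹ * z * x, hD₂K ⟨z, hz, by simp⟩⟩ : K) : K) : G) =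
        k * (x⁻¹ * z * x) * (k : G)⁻¹ := rfl
    rw [h6] at h5
    have h7 : (k : G) * x⁻¹ * z * ((k : G) * x⁻¹)⁻¹ = k * (x⁻¹ * z * x) * (k : G)⁻¹ := by group
    rw [h7]
    exact h5
  refine ⟨((k : G) * x⁻¹)⁻¹, Subgroup.inv_mem _ hn, ?_⟩
  have hky : (k : G)⁻¹ * y * k = y := by
    have h8 := k.2
    rw [Subgroup.mem_centralizer_iff] at h8
    have h9 := h8 y rfl
    rw [mul_assoc, h9]
    group
  calc ((k : G) * x⁻¹)⁻¹ * y * ((k : G) * x⁻¹)⁻¹⁻¹ = x * ((k : G)⁻¹ * y * k) * x⁻¹ := by group
    _ = g := by rw [hky, hx]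

open Classical in
/-- the indicator of the `G`-class of `x` on `N` -/
noncomputable def indG (D : Subgroup G) (x : G) (y : Subgroup.normalizer (D : Set G)) : ℂ :=
  if IsConj x (y : G) then 1 else 0

theorem indG_class (x : G) : IsClassFn (indG D x) := by
  intro g y
  have h : IsConj (g : G) ((y * g * y⁻¹ : Subgroup.normalizer (D : Set G)) : G) :=
    isConj_iff.2 ⟨y, rfl⟩
  have : IsConj x ((y * g * y⁻¹ : Subgroup.normalizer (D : Set G)) : G) ↔ IsConj x g :=
    ⟨fun h1 => h1.trans h.symm, fun h1 => h1.trans h⟩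
  rw [indG, indG]
  by_cases h2 : IsConj x (g : G)
  · rw [if_pos h2, if_pos (this.2 h2)]
  · rw [if_neg h2, if_neg (fun h3 => h2 (this.1 h3))]

theorem indG_integral (x : G) (y : Subgroup.normalizer (D : Set G)) :
    IsIntegral ℤ (indG D x y) := by
  rw [indG]
  split_ifs
  · exact isIntegral_one
  · exact isIntegral_zero

theorem red_omega_match [Fintype (Subgroup.normalizer (D : Set G))] (hM : M.IsPrime)
    (hp : (p : integralClosure ℤ ℂ) ∈ M)
    (hD : ∀ x y : D, x * y = y * x) {d : ℕ} (hDc : Nat.card D = p ^ d)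
    {χ : G → ℂ} {ψ : Subgroup.normalizer (D : Set G) → ℂ} (hψ : IsIrrChar ψ)
    (hcorr : ∀ x : G, red M (omega χ x) = red M (om ψ (indG D x)))
    (y : Subgroup.normalizer (D : Set G)) (hy : (y : G) ∈ Subgroup.centralizer (D : Set G))
    (hyd : (cen (y : G)).factorization p = d) :
    red M (omega χ (y : G)) = red M (omega ψ y) := by
  classical
  have hDp : IsPGroup p (DN D) := IsPGroup.of_card ((card_DN D).trans hDc)
  rw [hcorr, ← red_om_cutC (p := p) (D := DN D) hM hp (DN_comm hD) hDp hψ (indG_class (y : G))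
    (indG_integral (y : G)), omega_eq_om hψ]
  congr 2
  ext g
  rw [cutC, indG]
  by_cases h1 : IsConj y g
  · have h2 : g ∈ Subgroup.centralizer (DN D : Set (Subgroup.normalizer (D : Set G))) := by
      by_contra hn
      exact not_mem_centralizer_conj hn h1.symm ((mem_centralizer_DN y).2 hy)
    have h3 : IsConj (y : G) (g : G) := by
      obtain ⟨c, hc⟩ := isConj_iff.1 h1
      exact isConj_iff.2 ⟨c, by rw [← hc]; rfl⟩
    rw [if_pos h1, if_pos h2, if_pos h3]
  · rw [if_neg h1]
    split_ifs with h2 h3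
    · exfalso
      obtain ⟨n, hn, hng⟩ := isConj_normalizer hDc hy ((mem_centralizer_DN g).1 h2) hyd h3
      apply h1
      exact isConj_iff.2 ⟨⟨n, hn⟩, Subtype.ext hng⟩
    · rfl
    · rfl

theorem factorization_of_eq {n d c : ℕ} (h : n = p ^ d * c) (hc : ¬ p ∣ c) :
    n.factorization p = d ∧ ordCompl[p] n = c := by
  have hp1 : p.Prime := Fact.out
  have h1 : n.factorization p = d := by
    rw [h, Nat.factorization_mul (pow_ne_zero _ hp1.ne_zero) (by rintro rfl; simp at hc),
      hp1.factorization_pow]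
    simp [Nat.factorization_eq_zero_of_not_dvd hc]
  refine ⟨h1, ?_⟩
  rw [h1, h, Nat.mul_div_cancel_left _ (pow_pos hp1.pos d)]

theorem not_dvd_of_factorization {n d c : ℕ} (h : n = p ^ d * c) (hn : n ≠ 0)
    (hf : n.factorization p = d) : ¬ p ∣ c := by
  rintro ⟨c', rfl⟩
  have h1 : p ^ (d + 1) ∣ n := ⟨c', by rw [h]; ring⟩
  rw [factorization_eq_iff hn] at h1
  omega

theorem orderOf_coe_normalizer (y : Subgroup.normalizer (D : Set G)) :
    orderOf (y : G) = orderOf y := Subgroup.orderOf_coe y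

theorem sterm_match [Fintype (Subgroup.normalizer (D : Set G))] (hM : M.IsPrime)
    (hp : (p : integralClosure ℤ ℂ) ∈ M)
    (hD : ∀ x y : D, x * y = y * x) {d : ℕ} (hDc : Nat.card D = p ^ d)
    {χ : G → ℂ} {ψ : Subgroup.normalizer (D : Set G) → ℂ} (hψ : IsIrrChar ψ)
    (hcorr : ∀ x : G, red M (omega χ x) = red M (om ψ (indG D x)))
    (y : Subgroup.normalizer (D : Set G)) (hy : (y : G) ∈ Subgroup.centralizer (D : Set G)) :
    sterm M p d χ (y : G) = sterm M p d ψ y := by
  obtain ⟨cN, cG, h1, h2, h3⟩ := cen_congr hDc y hy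
  rw [sterm, sterm, orderOf_coe_normalizer]
  by_cases hreg : ¬ p ∣ orderOf y
  swap
  · rw [if_neg (fun h => hreg h.1), if_neg (fun h => hreg h.1)]
  have hiff : (cen (y : G)).factorization p = d ↔ (cen y).factorization p = d := by
    have e1 : p ∣ cN ↔ p ∣ cG := h3.dvd_iff (dvd_refl p)
    constructor
    · intro h
      have h4 := not_dvd_of_factorization h2 (cen_pos _).ne' h
      exact (factorization_of_eq h1 (fun h5 => h4 (e1.1 h5))).1
    · intro h
      have h4 := not_dvd_of_factorization h1 (cen_pos _).ne' h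
      exact (factorization_of_eq h2 (fun h5 => h4 (e1.2 h5))).1
  by_cases hd : (cen (y : G)).factorization p = d
  swap
  · rw [if_neg (fun h => hd h.2), if_neg (fun h => hd (hiff.2 h.2))]
  rw [if_pos ⟨hreg, hd⟩, if_pos ⟨hreg, hiff.1 hd⟩]
  have h4 := not_dvd_of_factorization h2 (cen_pos _).ne' hd
  have h5 := not_dvd_of_factorization h1 (cen_pos _).ne' (hiff.1 hd)
  rw [(factorization_of_eq h2 h4).2, (factorization_of_eq h1 h5).2]
  have h6 : red M (omega χ (y : G)) = red M (omega ψ y) :=
    red_omega_match hM hp hD hDc hψ hcorr y hy hd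
  have h7 : red M (omega χ (y : G)⁻¹) = red M (omega ψ y⁻¹) := by
    apply red_omega_match hM hp hD hDc hψ hcorr y⁻¹
    · exact Subgroup.inv_mem _ hy
    · have : ((y⁻¹ : Subgroup.normalizer (D : Set G)) : G) = (y : G)⁻¹ := rfl
      rw [this, cen_inv, hd]
  rw [h6, h7]
  congr 2
  have := charP_quot (p := p) hM.ne_top hp
  exact ((CharP.natCast_eq_natCast _ p).2 h3).symm

/-- The two sums agree. -/
theorem SB_match [Fintype (Subgroup.normalizer (D : Set G))] (hM : M.IsPrime)
    (hp : (p : integralClosure ℤ ℂ) ∈ M)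
    (hD : ∀ x y : D, x * y = y * x) {d : ℕ} (hDc : Nat.card D = p ^ d)
    {χ : G → ℂ} (hχ : IsIrrChar χ)
    {ψ : Subgroup.normalizer (D : Set G) → ℂ} (hψ : IsIrrChar ψ)
    (hcorr : ∀ x : G, red M (omega χ x) = red M (om ψ (indG D x)))
    (hdef : ∀ x : G, red M (omega χ x) ≠ 0 →
      ∃ g : G, ∀ z ∈ D, g * z * g⁻¹ ∈ Subgroup.centralizer ({x} : Set G)) :
    SB M p d χ = SB M p d ψ := by
  classical
  have hDp : IsPGroup p (DN D) := IsPGroup.of_card ((card_DN D).trans hDc)
  have key : ∀ y : Subgroup.normalizer (D : Set G), sterm M p d ψ y ≠ 0 →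
      (y : G) ∈ Subgroup.centralizer (D : Set G) := by
    intro y hy
    rw [← mem_centralizer_DN]
    by_contra hn
    apply hy
    rw [sterm]
    split_ifs
    · rw [red_omega_eq_zero (p := p) (D := DN D) hM hp (DN_comm hD) hDp hψ hn]; simp
    · rfl
  have hfG : Fintype (ConjClasses G) := Fintype.ofFinite _
  have hfN : Fintype (ConjClasses (Subgroup.normalizer (D : Set G))) := Fintype.ofFinite _
  rw [SB_eq, SB_eq]
  symm
  refine Finset.sum_bij_ne_zero
    (fun K _ _ => ConjClasses.map (Subgroup.normalizer (D : Set G)).subtype K) ?_ ?_ ?_ ?_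
  · intro K _ _; exact Finset.mem_univ _
  · intro K₁ _ h1 K₂ _ h2 h12
    obtain ⟨y₁, hy₁⟩ : ∃ y₁, y₁ = Quotient.out K₁ := ⟨_, rfl⟩
    obtain ⟨y₂, hy₂⟩ : ∃ y₂, y₂ = Quotient.out K₂ := ⟨_, rfl⟩
    have hK₁ : K₁ = ConjClasses.mk y₁ := by rw [hy₁, mk_out]
    have hK₂ : K₂ = ConjClasses.mk y₂ := by rw [hy₂, mk_out]
    rw [← hy₁] at h1
    rw [← hy₂] at h2
    have c1 := key _ h1
    have c2 := key _ h2
    rw [hK₁, hK₂] at h12 ⊢
    have h3 : IsConj (y₁ : G) (y₂ : G) := ConjClasses.mk_eq_mk_iff_isConj.1 h12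
    rw [← sterm_match hM hp hD hDc hψ hcorr y₁ c1] at h1
    have h4 : (cen (y₁ : G)).factorization p = d := by
      by_contra hn
      apply h1
      rw [sterm, if_neg (fun h => hn h.2)]
    obtain ⟨n, hn, hng⟩ := isConj_normalizer hDc c1 c2 h4 h3
    rw [ConjClasses.mk_eq_mk_iff_isConj]
    exact isConj_iff.2 ⟨⟨n, hn⟩, Subtype.ext hng⟩
  · intro K _ hK
    obtain ⟨x, hx⟩ : ∃ x, x = Quotient.out K := ⟨_, rfl⟩
    have hKx : K = ConjClasses.mk x := by rw [hx, mk_out]
    rw [← hx] at hK
    have h1 : red M (omega χ x) ≠ 0 := by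
      intro h0
      apply hK
      rw [sterm]
      split_ifs
      · rw [h0]; simp
      · rfl
    obtain ⟨g, hg⟩ := hdef x h1
    have h2 : IsConj x (g⁻¹ * x * g) := isConj_iff.2 ⟨g⁻¹, by group⟩
    have h3 : g⁻¹ * x * g ∈ Subgroup.centralizer (D : Set G) := by
      rw [Subgroup.mem_centralizer_iff]
      intro z hz
      have h4 := hg z hz
      rw [Subgroup.mem_centralizer_iff] at h4
      have h5 := h4 x rfl
      calc z * (g⁻¹ * x * g) = g⁻¹ * (g * z * g⁻¹ * x) * g := by group
        _ = g⁻¹ * (x * (g * z * g⁻¹)) * g := by rw [h5]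
        _ = g⁻¹ * x * g * z := by group
    have h4 : g⁻¹ * x * g ∈ Subgroup.normalizer (D : Set G) :=
      Subgroup.centralizer_le_normalizer _ h3
    let y : Subgroup.normalizer (D : Set G) := ⟨g⁻¹ * x * g, h4⟩
    have h5 : sterm M p d ψ (Quotient.out (ConjClasses.mk y)) ≠ 0 := by
      rw [← (sterm_class hψ).eq (isConj_out y), ← sterm_match hM hp hD hDc hψ hcorr y h3,
        ← (sterm_class hχ).eq h2]
      exact hK
    refine ⟨ConjClasses.mk y, Finset.mem_univ _, h5, ?_⟩
    rw [hKx]
    exact (ConjClasses.mk_eq_mk_iff_isConj.2 h2).symm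
  · intro K _ hK
    obtain ⟨y, hy⟩ : ∃ y, y = Quotient.out K := ⟨_, rfl⟩
    have hKy : K = ConjClasses.mk y := by rw [hy, mk_out]
    rw [← hy] at hK ⊢
    have c1 := key _ hK
    rw [← sterm_match hM hp hD hDc hψ hcorr y c1, hKy]
    apply (sterm_class hχ).eq
    exact isConj_out (y : G)

end

end Pool.Agent.DC7914
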