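import Pool.Agent.Work.MP_dc7914_al.Ito

/-!
# Nilpotency of central elements in the kernel of `k[N] → k[N/D]`
-/

set_option linter.unusedSectionVars false

open Module Representation MonoidAlgebra

namespace Pool.Agent.DC7914

section Nil

variable {p : ℕ} [Fact p.Prime] {k : Type*} [CommRing k] [CharP k p]
variable {A : Type*} [CommGroup A] [Finite A]

theorem single_sub_one_pow (z : A) {n : ℕ} (hz : z ^ p ^ n = 1) :
    (single z (1 : k) - 1 : MonoidAlgebra k A) ^ p ^ n = 0 := by
  have : CharP (MonoidAlgebra k A) p :=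
    charP_of_injective_algebraMap (R := k) (by
      rw [coe_algebraMap]
      exact single_right_injective.comp (fun a b h => h)) p
  rw [sub_pow_char_pow, MonoidAlgebra.single_pow, hz, one_pow, one_pow]
  exact sub_self _

/-- the ideal generated by the `z - 1` -/
noncomputable def augI (k A : Type*) [CommRing k] [CommGroup A] : Ideal (MonoidAlgebra k A) :=
  Ideal.span (Set.range fun z : A => (single z (1 : k) - 1 : MonoidAlgebra k A))

theorem augI_nilpotent (hA : IsPGroup p A) : ∃ m, (augI k A) ^ m = ⊥ := by
  have h1 : (augI k A).FG := ⟨(Set.finite_range _).toFinset, by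
    rw [Set.Finite.coe_toFinset]; rfl⟩
  have h2 : IsNilpotent (augI k A) := by
    rw [h1.isNilpotent_iff_le_nilradical, augI, Ideal.span_le]
    rintro _ ⟨z, rfl⟩
    obtain ⟨n, hn⟩ := hA z
    exact ⟨p ^ n, single_sub_one_pow z hn⟩
  exact h2

variable {N : Type*} [Group N] [Finite N] (φ : A →* N)

/-- powers of the augmentation ideal, induced to `N` -/
noncomputable def indI (k : Type*) [CommRing k] {A N : Type*} [CommGroup A] [Group N]
    (φ : A →* N) (m : ℕ) : Ideal (MonoidAlgebra k N) :=
  Ideal.span ((mapDomainRingHom k φ) '' ((augI k A ^ m : Ideal (MonoidAlgebra k A)) : Set _))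

theorem mem_indI_one {D : Subgroup N} (hφ : ∀ z ∈ D, ∃ a, φ a = z)
    (x : MonoidAlgebra k N) (hx : mapDomain (fun g : N => (g : N ⧸ D)) x = 0) :
    x ∈ indI k φ 1 := by
  classical
  let s : N → N := fun g => (g : N ⧸ D).out
  have h1 : mapDomain s x = 0 := by
    have : s = (fun q : N ⧸ D => q.out) ∘ (fun g : N => (g : N ⧸ D)) := rfl
    have h5 : mapDomain s x = mapDomain (fun q : N ⧸ D => q.out)
        (mapDomain (fun g : N => (g : N ⧸ D)) x) := by
      rw [this]
      apply coeff_injective
      simp only [coeff_mapDomain]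
      exact Finsupp.mapDomain_comp
    rw [h5, hx, mapDomain_zero]
  have h2 : x = x - mapDomain s x := by rw [h1, sub_zero]
  have h3 : ∀ y : MonoidAlgebra k N, y - mapDomain s y ∈ indI k φ 1 := by
    intro y
    induction y using MonoidAlgebra.induction_linear with
    | zero => simp
    | add y z hy hz =>
      rw [mapDomain_add]
      have : y + z - (mapDomain s y + mapDomain s z) = (y - mapDomain s y) + (z - mapDomain s z) := by
        abel
      rw [this]
      exact Ideal.add_mem _ hy hz
    | single g r =>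
      rw [mapDomain_single]
      obtain ⟨a, ha⟩ := hφ ((s g)⁻¹ * g) (by
        rw [← QuotientGroup.eq]; exact Quotient.out_eq' (g : N ⧸ D))
      have h4 : (single g r - single (s g) r : MonoidAlgebra k N) =
          single (s g) r * mapDomainRingHom k φ (single a (1 : k) - 1) := by
        rw [map_sub, map_one, mul_sub, mul_one]
        congr 1
        rw [mapDomainRingHom_apply, mapDomain_single, single_mul_single, mul_one, ha]
        congr 1
        group
      rw [h4]
      apply Ideal.mul_mem_left
      apply Ideal.subset_span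
      refine ⟨_, ?_, rfl⟩
      rw [pow_one]
      exact Ideal.subset_span ⟨a, rfl⟩
  rw [h2]
  exact h3 x

theorem mul_mem_indI (x : MonoidAlgebra k N) (hx : x ∈ indI k φ 1)
    (hc : ∀ y, x * y = y * x) (m : ℕ) (u : MonoidAlgebra k N) (hu : u ∈ indI k φ m) :
    x * u ∈ indI k φ (m + 1) := by
  refine Submodule.span_induction (p := fun u _ => x * u ∈ indI k φ (m + 1)) ?_ ?_ ?_ ?_ hu
  · rintro _ ⟨y, hy, rfl⟩
    refine Submodule.span_induction
      (p := fun v _ => v * (mapDomainRingHom k φ) y ∈ indI k φ (m + 1)) ?_ ?_ ?_ ?_ hx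
    · rintro _ ⟨w, hw, rfl⟩
      rw [← map_mul]
      apply Ideal.subset_span
      refine ⟨w * y, ?_, rfl⟩
      rw [SetLike.mem_coe, pow_succ, mul_comm w y]
      refine Ideal.mul_mem_mul hy ?_
      simpa using hw
    · simp
    · intro a b _ _ ha hb
      rw [add_mul]; exact Ideal.add_mem _ ha hb
    · intro a b _ hb
      rw [smul_eq_mul, mul_assoc]
      exact Ideal.mul_mem_left _ _ hb
  · simp
  · intro a b _ _ ha hb
    rw [mul_add]; exact Ideal.add_mem _ ha hb
  · intro a b _ hb
    rw [smul_eq_mul, ← mul_assoc, hc, mul_assoc]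
    exact Ideal.mul_mem_left _ _ hb

/-- A central element in the kernel of `k[N] → k[N/D]` is nilpotent. -/
theorem nilpotent_of_central (hA : IsPGroup p A) {D : Subgroup N} (hφ : ∀ z ∈ D, ∃ a, φ a = z)
    (x : MonoidAlgebra k N) (hx : mapDomain (fun g : N => (g : N ⧸ D)) x = 0)
    (hc : ∀ y, x * y = y * x) : ∃ m, 0 < m ∧ x ^ m = 0 := by
  obtain ⟨m, hm⟩ := augI_nilpotent (k := k) hA
  have h1 := mem_indI_one φ hφ x hx
  have h2 : ∀ m, x ^ m ∈ indI k φ m := by
    intro m
    induction m with
    | zero =>
      rw [pow_zero]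
      apply Ideal.subset_span
      refine ⟨1, ?_, map_one _⟩
      rw [pow_zero, Ideal.one_eq_top]
      trivial
    | succ m ih =>
      rw [pow_succ', ]
      exact mul_mem_indI φ x h1 hc m _ ih
  have h3 : x ^ m = 0 := by
    have h4 := h2 m
    rw [indI, hm] at h4
    have h5 : (mapDomainRingHom k φ) '' ((⊥ : Ideal (MonoidAlgebra k A)) : Set _) = {0} := by
      simp
    rw [h5, Ideal.span_singleton_eq_bot.2 rfl] at h4
    simpa using h4
  exact ⟨m + 1, by omega, by rw [pow_succ, h3, zero_mul]⟩

end Nil

end Pool.Agent.DC7914
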