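import Pool.Agent.Work.MP_dc7914_al.Normal

/-!
# Nonvanishing of the sum `S_b` in a group with a normal abelian `p`-subgroup
-/

set_option linter.unusedSectionVars false

open Module Representation MonoidAlgebra

namespace Pool.Agent.DC7914

section General

theorem irr_of_surjective {H K : Type*} [Group H] [Group K] (κ : H →* K)
    (hκ : Function.Surjective κ) {θ : K → ℂ} (hθ : IsIrrChar θ) :
    IsIrrChar (fun g => θ (κ g)) := by
  obtain ⟨n, ρ, hρ, rfl⟩ := hθ
  let σ : Representation ℂ H (Fin n → ℂ) := ρ.comp κ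
  have hσ : σ.IsIrreducible := by
    rw [irreducible_iff] at hρ ⊢
    refine ⟨hρ.1, fun U hU => hρ.2 U ?_⟩
    intro q v hv
    obtain ⟨g, rfl⟩ := hκ q
    exact hU g v hv
  exact ⟨n, σ, hσ, rfl⟩

theorem sum_subgroup {Q A : Type*} [Group Q] [Fintype Q] [AddCommMonoid A] (K : Subgroup Q)
    [Fintype K] (f : Q → A) (hf : ∀ q, q ∉ K → f q = 0) : ∑ q, f q = ∑ q : K, f q := by
  classical
  rw [← Finset.sum_subtype (Finset.univ.filter (· ∈ K)) (by simp) f, Finset.sum_filter]
  refine Finset.sum_congr rfl (fun q _ => ?_)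
  split_ifs with h
  · rfl
  · exact hf q h

end General

section

variable {N : Type*} [Group N] [Fintype N]
variable {D : Subgroup N} [D.Normal] {p : ℕ} [Fact p.Prime]
variable {M : Ideal (integralClosure ℤ ℂ)}

theorem op_push {V : Type*} [AddCommGroup V] [Module ℂ V] [FiniteDimensional ℂ V]
    [Fintype (N ⧸ D)] (σ : Representation ℂ (N ⧸ D) V) (F : N → ℂ) :
    op (σ.comp (QuotientGroup.mk' D) : Representation ℂ N V) F = op σ (push D F) := by
  classical
  simp only [op, push, Finset.sum_smul]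
  rw [Finset.sum_comm]
  refine Finset.sum_congr rfl (fun g _ => ?_)
  simp only [ite_smul, zero_smul]
  rw [Finset.sum_ite_eq Finset.univ (g : N ⧸ D)]
  simp only [Finset.mem_univ, if_true]
  rfl

/-- the centralizer of `D` modulo `D` -/
noncomputable abbrev Ct (D : Subgroup N) [D.Normal] : Subgroup (N ⧸ D) :=
  (Subgroup.centralizer (D : Set N)).map (QuotientGroup.mk' D)

theorem push_eq_zero {F : N → ℂ} (hF : ∀ g, g ∉ Subgroup.centralizer (D : Set N) → F g = 0)
    (q : N ⧸ D) (hq : q ∉ Ct D) : push D F q = 0 := by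
  classical
  rw [push]
  refine Finset.sum_eq_zero (fun g _ => ?_)
  split_ifs with h
  · apply hF
    intro hg
    exact hq ⟨g, hg, h⟩
  · rfl

theorem om_push_centralizer [Fintype (Ct D)] [Fintype (Subgroup.centralizer (D : Set N))]
    {F : N → ℂ} (hF : ∀ g, g ∉ Subgroup.centralizer (D : Set N) → F g = 0) (θ : Ct D → ℂ) :
    om θ (fun q : Ct D => push D F q) =
      om (fun g : Subgroup.centralizer (D : Set N) =>
        θ ((QuotientGroup.mk' D).subgroupMap (Subgroup.centralizer (D : Set N)) g))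
        (fun g : Subgroup.centralizer (D : Set N) => F g) := by
  classical
  rw [om, om, map_one]
  congr 1
  have h1 : ∀ q : Ct D, push D F q = ∑ g : Subgroup.centralizer (D : Set N),
      if (QuotientGroup.mk' D).subgroupMap (Subgroup.centralizer (D : Set N)) g = q
        then F g else 0 := by
    intro q
    rw [push, sum_subgroup (Subgroup.centralizer (D : Set N))]
    · refine Finset.sum_congr rfl (fun g _ => ?_)
      have : ((g : N) : N ⧸ D) = q ↔
          (QuotientGroup.mk' D).subgroupMap (Subgroup.centralizer (D : Set N)) g = q := by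
        rw [Subtype.ext_iff]
        rfl
      simp only [this]
    · intro g hg
      split_ifs
      · exact hF g hg
      · rfl
  simp only [h1, Finset.sum_mul]
  rw [Finset.sum_comm]
  refine Finset.sum_congr rfl (fun g _ => ?_)
  simp only [ite_mul, zero_mul]
  rw [Finset.sum_ite_eq]
  simp

/-- a `p`-regular element of `C/D` has exactly one `p`-regular lift to `C` -/
theorem push_preg {d : ℕ} (hDc : Nat.card D = p ^ d) (ψ : N ⧸ D → ℂ) (q : N ⧸ D)
    (hq : q ∈ Ct D) :
    push D (fun g : N => by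
      classical
      exact if g ∈ Subgroup.centralizer (D : Set N) then
        preg p (fun g : N => ψ (g : N ⧸ D)) g else 0) q = preg p ψ q := by
  classical
  obtain ⟨g, hg, rfl⟩ := hq
  have hDp : ∀ z ∈ D, z ^ p ^ d = 1 := by
    intro z hz
    have h1 : (⟨z, hz⟩ : D) ^ Nat.card D = 1 := pow_card_eq_one'
    rw [hDc] at h1
    exact congrArg Subtype.val h1
  -- uniqueness
  have huniq : ∀ x ∈ Subgroup.centralizer (D : Set N), ∀ y ∈ Subgroup.centralizer (D : Set N),
      ¬ p ∣ orderOf x → ¬ p ∣ orderOf y → (x : N ⧸ D) = (y : N ⧸ D) → x = y := by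
    intro x hx y hy hpx hpy hxy
    rw [QuotientGroup.eq] at hxy
    set z := x⁻¹ * y with hz
    have hy' : y = x * z := by rw [hz]; group
    have hcomm : Commute x z := by
      rw [Subgroup.mem_centralizer_iff] at hx
      exact (hx z hxy).symm
    have h1 : z ^ (orderOf x * orderOf y) = 1 := by
      have h2 : y ^ (orderOf x * orderOf y) = 1 := by
        rw [mul_comm, pow_mul, pow_orderOf_eq_one, one_pow]
      rw [hy', hcomm.mul_pow, ← hy', pow_mul, pow_orderOf_eq_one, one_pow, one_mul] at h2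
      exact h2
    have h2 : orderOf z ∣ orderOf x * orderOf y := orderOf_dvd_of_pow_eq_one h1
    have h3 : orderOf z ∣ p ^ d := orderOf_dvd_of_pow_eq_one (hDp z hxy)
    have h4 : Nat.Coprime (orderOf x * orderOf y) (p ^ d) := by
      apply Nat.Coprime.pow_right
      apply Nat.Coprime.mul_left
      · exact ((Nat.Prime.coprime_iff_not_dvd Fact.out).2 hpx).symm
      · exact ((Nat.Prime.coprime_iff_not_dvd Fact.out).2 hpy).symm
    have h5 : orderOf z = 1 := Nat.eq_one_of_dvd_coprimes h4 h2 h3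
    rw [orderOf_eq_one_iff] at h5
    rw [hy', h5, mul_one]
  rw [push, preg]
  by_cases hreg : ¬ p ∣ orderOf (QuotientGroup.mk' D g)
  · rw [if_pos hreg]
    -- existence
    set n := orderOf (QuotientGroup.mk' D g) with hn
    have hcop : Nat.Coprime n (p ^ d) :=
      Nat.Coprime.pow_right _ ((Nat.Prime.coprime_iff_not_dvd Fact.out).2 hreg).symm
    obtain ⟨u, hu1, hu2⟩ := Nat.chineseRemainder hcop 1 0
    have hgn : g ^ n ∈ D := by
      have h1 : (QuotientGroup.mk' D g) ^ n = 1 := pow_orderOf_eq_one _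
      rw [← map_pow] at h1
      exact (QuotientGroup.eq_one_iff _).1 h1
    set g' := g ^ u with hg'
    have hg'C : g' ∈ Subgroup.centralizer (D : Set N) := Subgroup.pow_mem _ hg u
    have hg'q : ((g' : N) : N ⧸ D) = QuotientGroup.mk' D g := by
      have h1 : ((g' : N) : N ⧸ D) = (QuotientGroup.mk' D g) ^ u := by
        rw [hg', ← map_pow]; rfl
      rw [h1]
      have h2 := pow_eq_pow_iff_modEq (x := QuotientGroup.mk' D g) (m := 1) (n := u)
      rw [pow_one] at h2
      exact h2.2 hu1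
    have hg'n : g' ^ n = 1 := by
      rw [hg', ← pow_mul, mul_comm, pow_mul]
      obtain ⟨v, hv⟩ := (Nat.modEq_zero_iff_dvd).1 hu2
      rw [hv, pow_mul, hDp _ hgn, one_pow]
    have hg'p : ¬ p ∣ orderOf g' := by
      intro h
      exact hreg (h.trans (orderOf_dvd_of_pow_eq_one hg'n))
    rw [Finset.sum_eq_single g']
    · rw [if_pos hg'q, if_pos hg'C, preg, if_pos hg'p]
      congr 1
      rw [← hg'q]
      rfl
    · intro x _ hx
      split_ifs with h1 h2
      · rw [preg]
        split_ifs with h3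
        · rfl
        · exfalso
          apply hx
          apply huniq x h2 g' hg'C h3 hg'p
          rw [h1, hg'q]
      · rfl
      · rfl
    · intro h; exact absurd (Finset.mem_univ _) h
  · rw [if_neg hreg]
    refine Finset.sum_eq_zero (fun x _ => ?_)
    split_ifs with h1 h2
    · rw [preg, if_neg]
      push Not at hreg ⊢
      rw [← h1] at hreg
      exact hreg.trans (orderOf_map_dvd (QuotientGroup.mk' D) x)
    · rfl
    · rfl

open Classical in
/-- restriction of a function to the centralizer of `D` -/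
noncomputable def cutC (D : Subgroup N) (F : N → ℂ) (g : N) : ℂ :=
  if g ∈ Subgroup.centralizer (D : Set N) then F g else 0

theorem mem_centralizer_conj_iff (g x : N) : x * g * x⁻¹ ∈ Subgroup.centralizer (D : Set N) ↔
    g ∈ Subgroup.centralizer (D : Set N) := by
  constructor
  · intro h
    by_contra hn
    exact not_mem_centralizer_conj hn (isConj_iff.2 ⟨x, rfl⟩) h
  · intro h
    by_contra hn
    exact not_mem_centralizer_conj hn (isConj_iff.2 ⟨x⁻¹, by group⟩) h

theorem cutC_class {F : N → ℂ} (hF : IsClassFn F) : IsClassFn (cutC D F) := by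
  intro g x
  rw [cutC, cutC, hF g x]
  by_cases h : g ∈ Subgroup.centralizer (D : Set N)
  · rw [if_pos h, if_pos ((mem_centralizer_conj_iff g x).2 h)]
  · rw [if_neg h, if_neg (fun h' => h ((mem_centralizer_conj_iff g x).1 h'))]

theorem cutC_integral {F : N → ℂ} (hF : ∀ g, IsIntegral ℤ (F g)) (g : N) :
    IsIntegral ℤ (cutC D F g) := by
  rw [cutC]
  split_ifs
  · exact hF g
  · exact isIntegral_zero

/-- mod `M`, only the values on the centralizer of `D` matter -/
theorem red_om_cutC (hM : M.IsPrime) (hp : (p : integralClosure ℤ ℂ) ∈ M)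
    (hD : ∀ x y : D, x * y = y * x) (hDp : IsPGroup p D)
    {χ : N → ℂ} (hχ : IsIrrChar χ) {F : N → ℂ} (hF : IsClassFn F)
    (hF' : ∀ g, IsIntegral ℤ (F g)) :
    red M (om χ (cutC D F)) = red M (om χ F) := by
  classical
  rw [red_om M hχ (cutC_class hF) (cutC_integral hF'), red_om M hχ hF hF']
  refine Finset.sum_congr rfl (fun K _ => ?_)
  by_cases h : Quotient.out K ∈ Subgroup.centralizer (D : Set N)
  · rw [cutC, if_pos h]
  · rw [red_omega_eq_zero (p := p) hM hp hD hDp hχ h]; simp

theorem card_dvd_cen {g : N} (hg : g ∈ Subgroup.centralizer (D : Set N)) :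
    Nat.card D ∣ cen g := by
  have h1 : D ≤ Subgroup.centralizer ({g} : Set N) := by
    intro z hz
    rw [Subgroup.mem_centralizer_iff] at hg ⊢
    intro y hy
    rw [Set.mem_singleton_iff] at hy
    subst hy
    exact (hg z hz).symm
  exact Subgroup.card_dvd_of_le h1

/-- If `g D` is `p`-singular with `g ∈ C`, then `p |D|` divides `|C_N(g)|`. -/
theorem pow_succ_dvd_cen {d : ℕ} (hDc : Nat.card D = p ^ d) {g : N}
    (hg : g ∈ Subgroup.centralizer (D : Set N)) (hs : p ∣ orderOf (g : N ⧸ D)) :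
    p ^ (d + 1) ∣ cen g := by
  obtain ⟨c, hc⟩ := card_dvd_cen hg
  rw [hDc] at hc
  rw [hc, pow_succ]
  apply Nat.mul_dvd_mul_left
  refine hs.trans ?_
  apply orderOf_dvd_of_pow_eq_one
  -- `g ^ c ∈ D`
  have h1 : D ≤ Subgroup.centralizer ({g} : Set N) := by
    intro z hz
    rw [Subgroup.mem_centralizer_iff] at hg ⊢
    intro y hy
    rw [Set.mem_singleton_iff] at hy
    subst hy
    exact (hg z hz).symm
  have hgg : g ∈ Subgroup.centralizer ({g} : Set N) := by
    rw [Subgroup.mem_centralizer_iff]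
    intro y hy
    rw [Set.mem_singleton_iff] at hy
    subst hy
    rfl
  let K := Subgroup.centralizer ({g} : Set N)
  let D' : Subgroup K := D.subgroupOf K
  have hD'n : D'.Normal := inferInstance
  have hD'c : Nat.card D' = p ^ d := by
    rw [← hDc]
    exact Nat.card_congr (Subgroup.subgroupOfEquivOfLe h1).toEquiv
  have hidx : D'.index = c := by
    have h2 := D'.index_mul_card
    have h3 : Nat.card K = p ^ d * c := hc
    rw [hD'c, h3, mul_comm] at h2
    exact Nat.eq_of_mul_eq_mul_left (pow_pos (Fact.out : p.Prime).pos d) h2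
  have h2 : (⟨g, hgg⟩ : K) ^ c ∈ D' := by
    rw [← hidx]
    exact Subgroup.pow_index_mem D' _
  have h3 : g ^ c ∈ D := h2
  rw [← QuotientGroup.mk_pow]
  exact (QuotientGroup.eq_one_iff _).2 h3

theorem card_centralizer (hD : ∀ x y : D, x * y = y * x) :
    Nat.card (Subgroup.centralizer (D : Set N)) = Nat.card (Ct D) * Nat.card D := by
  have hDC : D ≤ Subgroup.centralizer (D : Set N) := by
    intro z hz
    rw [Subgroup.mem_centralizer_iff]
    intro w hw
    exact congrArg Subtype.val (hD ⟨w, hw⟩ ⟨z, hz⟩)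
  let κ := (QuotientGroup.mk' D).subgroupMap (Subgroup.centralizer (D : Set N))
  have hκ : Function.Surjective κ := MonoidHom.subgroupMap_surjective _ _
  have h1 : κ.ker = D.subgroupOf (Subgroup.centralizer (D : Set N)) := by
    ext g
    rw [MonoidHom.mem_ker, Subgroup.mem_subgroupOf, ← QuotientGroup.eq_one_iff, Subtype.ext_iff]
    rfl
  rw [Subgroup.card_eq_card_quotient_mul_card_subgroup κ.ker]
  congr 1
  · exact Nat.card_congr (QuotientGroup.quotientKerEquivOfSurjective κ hκ).toEquiv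
  · rw [h1]
    exact Nat.card_congr (Subgroup.subgroupOfEquivOfLe hDC).toEquiv

theorem cen_subgroup_dvd (C : Subgroup N) (g : C) : cen g ∣ cen (g : N) := by
  let f : Subgroup.centralizer ({g} : Set C) →* Subgroup.centralizer ({(g : N)} : Set N) :=
    { toFun := fun x => ⟨((x : C) : N), by
        have h1 := x.2
        rw [Subgroup.mem_centralizer_iff] at h1 ⊢
        intro y hy
        rw [Set.mem_singleton_iff] at hy
        subst hy
        exact congrArg Subtype.val (h1 g rfl)⟩
      map_one' := rfl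
      map_mul' := fun _ _ => rfl }
  have hf : Function.Injective f := by
    intro x y hxy
    apply Subtype.ext
    apply Subtype.ext
    have h1 : ((f x : Subgroup.centralizer ({(g : N)} : Set N)) : N) = f y := by rw [hxy]
    exact h1
  exact Subgroup.card_dvd_of_injective f hf

/-- data of a block of `N`, after choosing a character with `D` in the kernel -/
theorem degree_eq (hM : M.IsPrime) (hp : (p : integralClosure ℤ ℂ) ∈ M)
    (hD : ∀ x y : D, x * y = y * x) {d a h : ℕ} (hDc : Nat.card D = p ^ d)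
    (hN : Nat.card N = p ^ a * h) (hh : ¬ p ∣ h)
    {χ : N → ℂ} (hχ : IsIrrChar χ) {x₀ : N} (hx₀ : red M (omega χ x₀) ≠ 0) {c : ℕ}
    (hc : cen x₀ = p ^ d * c) (hpc : ¬ p ∣ c) :
    d ≤ a ∧ ∃ m : ℕ, ¬ p ∣ m ∧ χ 1 = ((p ^ (a - d) * m : ℕ) : ℂ) := by
  have hp1 : p.Prime := Fact.out
  have hda : p ^ d ∣ p ^ a := by
    have h1 : p ^ d ∣ p ^ a * h := by
      rw [← hN, ← hDc]; exact Subgroup.card_subgroup_dvd_card D
    exact (Nat.Coprime.pow_left _ ((Nat.Prime.coprime_iff_not_dvd hp1).2 hh)).dvd_of_dvd_mul_right h1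
  have had : d ≤ a := (Nat.pow_dvd_pow_iff_le_right hp1.one_lt).1 hda
  refine ⟨had, ?_⟩
  obtain ⟨n, hn0, hn⟩ := hχ.degree
  have h1 : p ^ (a - d) ∣ csize x₀ := by
    have h2 := csize_mul_cen x₀
    rw [hN, hc] at h2
    have h3 : p ^ a = p ^ d * p ^ (a - d) := by rw [← pow_add]; congr 1; omega
    have h4 : p ^ d * (csize x₀ * c) = p ^ d * (p ^ (a - d) * h) := by
      calc p ^ d * (csize x₀ * c) = csize x₀ * (p ^ d * c) := by ring
        _ = p ^ a * h := h2
        _ = _ := by rw [h3]; ring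
    have h5 : csize x₀ * c = p ^ (a - d) * h :=
      Nat.eq_of_mul_eq_mul_left (pow_pos hp1.pos d) h4
    have h6 : p ^ (a - d) ∣ csize x₀ * c := by rw [h5]; exact Dvd.intro _ rfl
    exact (Nat.Coprime.pow_left _ ((Nat.Prime.coprime_iff_not_dvd hp1).2 hpc)).dvd_of_dvd_mul_right h6
  have h2 := pow_dvd_degree hM hp hχ hn hx₀ h1
  obtain ⟨m, hm⟩ := h2
  refine ⟨m, ?_, by rw [hn, hm]⟩
  rintro ⟨m', rfl⟩
  have h3 : p ^ (a - d + 1) ∣ n := ⟨m', by rw [hm]; ring⟩
  have h4 := ito (D := D) M hM hp hD hχ hn hN hh hDc h3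
  omega

/-- The nonvanishing of `S_b`. -/
theorem SB_ne_zero (hM : M.IsPrime) (hp : (p : integralClosure ℤ ℂ) ∈ M)
    (hD : ∀ x y : D, x * y = y * x) {d a h : ℕ} (hDc : Nat.card D = p ^ d)
    (hN : Nat.card N = p ^ a * h) (hh : ¬ p ∣ h)
    {χ : N → ℂ} (hχ : IsIrrChar χ) {x₀ : N} (hx₀ : red M (omega χ x₀) ≠ 0) {c : ℕ}
    (hc : cen x₀ = p ^ d * c) (hpc : ¬ p ∣ c) :
    SB M p d χ ≠ 0 := by
  classical
  have hp1 : p.Prime := Fact.out
  have hdom := Ideal.Quotient.isDomain M
  have hDp : IsPGroup p D := IsPGroup.of_card hDc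
  have hfin : Fintype (N ⧸ D) := Fintype.ofFinite _
  have hfinC : Fintype (Subgroup.centralizer (D : Set N)) := Fintype.ofFinite _
  have hfinCt : Fintype (Ct D) := Fintype.ofFinite _
  obtain ⟨ψ, hψ, hψχ⟩ := exists_trivial_on (p := p) (D := D) hM hp hD hDp hχ
  set χ₁ : N → ℂ := fun g => ψ (g : N ⧸ D) with hχ₁def
  have hχ₁ : IsIrrChar χ₁ := infl_irr hψ
  have hx₁ : red M (omega χ₁ x₀) ≠ 0 := by rw [hψχ]; exact hx₀
  obtain ⟨had, m, hpm, hm⟩ := degree_eq hM hp hD hDc hN hh hχ₁ hx₁ hc hpc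
  have hSB : SB M p d χ = SB M p d χ₁ := by
    simp only [SB, sterm, hψχ]
  have hx₀C : x₀ ∈ Subgroup.centralizer (D : Set N) := by
    by_contra hn
    exact hx₀ (red_omega_eq_zero (p := p) hM hp hD hDp hχ hn)
  have hdcen : ∀ x, red M (omega χ₁ x) ≠ 0 → p ^ d ∣ cen x := by
    intro x hx
    have hxC : x ∈ Subgroup.centralizer (D : Set N) := by
      by_contra hn
      exact hx (red_omega_eq_zero (p := p) hM hp hD hDp hχ₁ hn)
    rw [← hDc]
    exact card_dvd_cen hxC
  have hT := red_T hM hp hχ₁ hχ₁ (fun _ => rfl) hN hh hm hdcen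
  suffices hT0 : red M (om χ₁ (preg p χ₁)) ≠ 0 by
    rw [hSB]
    intro h0
    rw [h0, mul_zero] at hT
    rcases mul_eq_zero.1 hT with h1 | h1
    · exact hh ((natCast_eq_zero_iff hM.ne_top hp h).1 h1)
    · exact hT0 h1
  -- reduce to the centralizer
  rw [← red_om_cutC (p := p) (D := D) hM hp hD hDp hχ₁ (isClassFn_preg hχ₁) (isIntegral_preg hχ₁)]
  -- the representation of `C/D`
  obtain ⟨nψ, σ, hσ, hσψ⟩ := hψ
  let ρ₁ : Representation ℂ N (Fin nψ → ℂ) := σ.comp (QuotientGroup.mk' D)
  have hχ₁σ : χ₁ = ρ₁.character := by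
    rw [hχ₁def, hσψ]; rfl
  have hρirr : ρ₁.IsIrreducible := by
    rw [irreducible_iff] at hσ ⊢
    refine ⟨hσ.1, fun U hU => hσ.2 U ?_⟩
    intro q v hv
    obtain ⟨g, rfl⟩ := QuotientGroup.mk'_surjective D q
    exact hU g v hv
  let σC : Representation ℂ (Ct D) (Fin nψ → ℂ) := σ.comp (Ct D).subtype
  obtain ⟨s, hs1, hs2⟩ := decomp σC
  -- scalars
  have hscal : ∀ F : N → ℂ, IsClassFn F →
      (∀ g, g ∉ Subgroup.centralizer (D : Set N) → F g = 0) →
      ∀ θ ∈ s, om θ (fun q : Ct D => push D F q) = om χ₁ F := by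
    intro F hF hF0 θ hθ
    apply (hs1 θ hθ).2
    have e1 : op σC (fun q : Ct D => push D F q) = op σ (push D F) := by
      rw [op, op, sum_subgroup (Ct D)]
      · rfl
      · intro q hq
        rw [push_eq_zero hF0 q hq, zero_smul]
    have e2 : op ρ₁ F = op σ (push D F) := op_push σ F
    rw [e1, ← e2, op_eq_smul _ hρirr F (op_comm_of_class _ F hF), ← hχ₁σ]
    rfl
  -- the sum of the constituents
  have hsum : ∀ q : Ct D, s.sum q = ψ q := by
    intro q
    rw [← hs2, hσψ]
    rfl
  have hs_irr : ∀ θ ∈ s, IsIrrChar θ := fun θ h => (hs1 θ h).1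
  -- choose a constituent with multiplicity prime to `p`
  have hx₀red : red M (χ₁ x₀) ≠ 0 := by
    intro h0
    have h1 := red_char_eq hM hp hχ₁ hN hh hm hc
    rw [h0, mul_zero] at h1
    rcases mul_eq_zero.1 h1.symm with h2 | h2
    · rcases mul_eq_zero.1 h2 with h3 | h3
      · exact hpm ((natCast_eq_zero_iff hM.ne_top hp m).1 h3)
      · exact hpc ((natCast_eq_zero_iff hM.ne_top hp c).1 h3)
    · exact hx₁ h2
  let q₀ : Ct D := ⟨(x₀ : N ⧸ D), ⟨x₀, hx₀C, rfl⟩⟩
  obtain ⟨θ, hθs, hθp⟩ : ∃ θ ∈ s, ¬ p ∣ Multiset.count θ s := by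
    by_contra hcon
    push Not at hcon
    apply hx₀red
    have h1 : χ₁ x₀ = ∑ θ ∈ s.toFinset, (Multiset.count θ s : ℂ) * θ q₀ := by
      have h2 : χ₁ x₀ = s.sum q₀ := (hsum q₀).symm
      rw [h2, Finset.sum_multiset_count, Finset.sum_apply]
      simp only [Pi.smul_apply, nsmul_eq_mul]
    rw [h1, red_sum]
    · refine Finset.sum_eq_zero (fun θ hθ => ?_)
      rw [Multiset.mem_toFinset] at hθ
      rw [red_mul M (isIntegral_nat _) ((hs_irr θ hθ).integral _), red_nat,
        (natCast_eq_zero_iff (p := p) hM.ne_top hp _).2 (hcon θ hθ), zero_mul]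
    · intro θ hθ
      rw [Multiset.mem_toFinset] at hθ
      exact (isIntegral_nat _).mul ((hs_irr θ hθ).integral _)
  have hθ : IsIrrChar θ := hs_irr θ hθs
  set e := Multiset.count θ s with he
  -- the inner product
  have hinner : ∑ q : Ct D, θ q * ψ ((q : N ⧸ D))⁻¹ = (e : ℂ) * Nat.card (Ct D) := by
    have h1 := inner_sum s hs_irr θ hθ
    rw [← h1]
    refine Finset.sum_congr rfl (fun q _ => ?_)
    rw [hsum q⁻¹]
    rfl
  -- the `p`-part of the degree of `θ`
  obtain ⟨nθ, hnθ0, hnθ⟩ := hθ.degree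
  have hCt0 : Nat.card (Ct D) ≠ 0 := Nat.card_pos.ne'
  obtain ⟨e', h', hph', hCt⟩ := Nat.exists_eq_pow_mul_and_not_dvd hCt0 p hp1.ne_one
  have hdeg : p ^ e' ∣ nθ := by
    let κ := (QuotientGroup.mk' D).subgroupMap (Subgroup.centralizer (D : Set N))
    have hκ : Function.Surjective κ := MonoidHom.subgroupMap_surjective _ _
    have hθ' : IsIrrChar (fun g => θ (κ g)) := irr_of_surjective κ hκ hθ
    let ι : N → ℂ := fun g => if IsConj x₀ g then 1 else 0
    have hι : IsClassFn ι := by
      intro g y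
      have h : IsConj g (y * g * y⁻¹) := isConj_iff.2 ⟨y, rfl⟩
      have : IsConj x₀ (y * g * y⁻¹) ↔ IsConj x₀ g :=
        ⟨fun h1 => h1.trans h.symm, fun h1 => h1.trans h⟩
      simp only [ι, this]
    have hι0 : ∀ g, g ∉ Subgroup.centralizer (D : Set N) → ι g = 0 := by
      intro g hg
      simp only [ι]
      rw [if_neg]
      intro h
      exact hg (by
        by_contra hn
        exact not_mem_centralizer_conj hn h.symm hx₀C)
    have h1 : om (fun g => θ (κ g)) (fun g => ι g) = omega χ₁ x₀ := by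
      rw [omega_eq_om hχ₁, ← om_push_centralizer hι0 θ]
      exact hscal ι hι hι0 θ hθs
    have h2 : ∃ g : Subgroup.centralizer (D : Set N), red M (ι g) ≠ 0 ∧
        red M (omega (fun g => θ (κ g)) g) ≠ 0 := by
      by_contra hcon
      push Not at hcon
      apply hx₁
      rw [← h1]
      apply red_om_eq_zero M hθ'
      · intro g y
        exact hι g y
      · intro g
        simp only [ι]
        split_ifs
        · exact isIntegral_one
        · exact isIntegral_zero
      · intro g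
        by_cases h3 : red M (ι g) = 0
        · exact Or.inl h3
        · exact Or.inr (hcon g h3)
    obtain ⟨g, hg1, hg2⟩ := h2
    have hconj : IsConj x₀ (g : N) := by
      by_contra hn
      apply hg1
      simp only [ι]
      rw [if_neg hn, red_zero]
    have h3 : cen g ∣ p ^ d * c := by
      have := cen_subgroup_dvd (Subgroup.centralizer (D : Set N)) g
      rwa [← cen_conj hconj, hc] at this
    have h4 := csize_mul_cen g
    rw [card_centralizer hD, hCt, hDc] at h4
    have h5 : p ^ e' ∣ csize g := by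
      have h6 : p ^ d * (p ^ e' * h') ∣ p ^ d * (csize g * c) := by
        have h7 : p ^ e' * h' * p ^ d ∣ csize g * (p ^ d * c) := by
          rw [← h4]; exact Nat.mul_dvd_mul_left _ h3
        have e1 : p ^ d * (p ^ e' * h') = p ^ e' * h' * p ^ d := by ring
        have e2 : p ^ d * (csize g * c) = csize g * (p ^ d * c) := by ring
        rw [e1, e2]; exact h7
      have h7 : p ^ e' * h' ∣ csize g * c :=
        Nat.dvd_of_mul_dvd_mul_left (pow_pos hp1.pos d) h6
      exact (Nat.Coprime.pow_left _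
        ((Nat.Prime.coprime_iff_not_dvd hp1).2 hpc)).dvd_of_dvd_mul_right
        ((Dvd.intro _ rfl).trans h7)
    have h6 : (fun g => θ (κ g)) 1 = (nθ : ℂ) := by
      simp only [map_one]; exact hnθ
    exact pow_dvd_degree hM hp hθ' h6 hg2 h5
  obtain ⟨t, ht⟩ := hdeg
  -- split the sum over `C/D` into the `p`-regular and `p`-singular part
  let Ψ : Ct D → ℂ := fun q => ψ ((q : N ⧸ D))⁻¹
  let Ψr : Ct D → ℂ := fun q => preg p ψ q
  let Ψs : Ct D → ℂ := fun q => if ¬ p ∣ orderOf (q : N ⧸ D) then 0 else ψ ((q : N ⧸ D))⁻¹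
  have hψ' : IsIrrChar ψ := ⟨nψ, σ, hσ, hσψ⟩
  have hΨr : IsClassFn Ψr := fun g y => isClassFn_preg hψ' (g : N ⧸ D) (y : N ⧸ D)
  have hΨrs : (fun q => Ψr q + Ψs q) = Ψ := by
    ext q
    simp only [Ψr, Ψs, Ψ, preg]
    split_ifs <;> simp
  have hΨ : IsClassFn Ψ := by
    intro g y
    simp only [Ψ]
    have : ((y * g * y⁻¹ : Ct D) : N ⧸ D)⁻¹ = y * (g : N ⧸ D)⁻¹ * (y : N ⧸ D)⁻¹ := by
      simp only [Subgroup.coe_mul, Subgroup.coe_inv]; group
    rw [this, hψ'.conj]
  have hΨs : IsClassFn Ψs := by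
    intro g y
    have h1 := congrFun hΨrs (y * g * y⁻¹)
    have h2 := congrFun hΨrs g
    rw [hΨ g y, ← h2, hΨr g y] at h1
    exact add_left_cancel h1
  have hT1 : om χ₁ (cutC D (preg p χ₁)) = om θ Ψr := by
    rw [← hscal _ (cutC_class (isClassFn_preg hχ₁)) (fun g hg => by rw [cutC, if_neg hg]) θ hθs]
    congr 1
    ext q
    exact push_preg hDc ψ q q.2
  have hΨrint : ∀ q, IsIntegral ℤ (Ψr q) := fun q => isIntegral_preg hψ' _
  have hΨsint : ∀ q, IsIntegral ℤ (Ψs q) := by
    intro q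
    simp only [Ψs]
    split_ifs
    · exact hψ'.integral _
    · exact isIntegral_zero
  have hΨs0 : red M (om θ Ψs) = 0 := by
    apply red_om_eq_zero M hθ hΨs hΨsint
    intro q
    left
    simp only [Ψs]
    split_ifs with h1
    · obtain ⟨g, hg, hgq⟩ := q.2
      have h2 : p ∣ orderOf (g : N ⧸ D) := by
        have : (g : N ⧸ D) = (q : N ⧸ D) := hgq
        rw [this]; exact h1
      have h3 := pow_succ_dvd_cen hDc hg h2
      rw [← cen_inv] at h3
      have h4 := red_char_eq_zero hM hp hχ₁ hN hh hm h3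
      rw [← h4]
      congr 1
      simp only [χ₁]
      rw [← hgq]
      rfl
    · exact red_zero M
  rw [hT1]
  have hΨint : ∀ q, IsIntegral ℤ (Ψ q) := fun q => hψ'.integral _
  have h1 : red M (om θ Ψ) = red M (om θ Ψr) := by
    rw [← hΨrs, om_add, red_add M (isIntegral_om hθ hΨr hΨrint) (isIntegral_om hθ hΨs hΨsint),
      hΨs0, add_zero]
  rw [← h1]
  have h2 : om θ Ψ * t = ((e * h' : ℕ) : ℂ) := by
    have h3 : om θ Ψ * θ 1 = (e : ℂ) * Nat.card (Ct D) := by
      rw [om, div_mul_cancel₀ _ hθ.one_ne_zero, ← hinner]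
      exact Finset.sum_congr rfl (fun q _ => mul_comm _ _)
    rw [hnθ, ht, hCt] at h3
    push_cast at h3 ⊢
    have hp0 : (p : ℂ) ^ e' ≠ 0 := pow_ne_zero _ (by exact_mod_cast hp1.ne_zero)
    apply mul_left_cancel₀ hp0
    linear_combination h3
  intro h0
  have h3 := congrArg (red M) h2
  rw [red_mul M (isIntegral_om hθ hΨ hΨint) (isIntegral_nat _), h0, zero_mul, red_nat] at h3
  have h4 := (natCast_eq_zero_iff hM.ne_top hp _).1 h3.symm
  rcases (Nat.Prime.dvd_mul hp1).1 h4 with h5 | h5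
  · exact hθp h5
  · exact hph' h5

end

end Pool.Agent.DC7914
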