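import Pool.Agent.Work.MP_dc7914_al.Center

/-!
# Groups with a normal abelian `p`-subgroup
-/

set_option linter.unusedSectionVars false

open Module Representation MonoidAlgebra

namespace Pool.Agent.DC7914

section

variable {N : Type*} [Group N] [Fintype N]

/-- element of the group algebra with given coefficients -/
noncomputable def toMA {R : Type*} [Semiring R] (f : N → R) : MonoidAlgebra R N :=
  ofCoeff (Finsupp.equivFunOnFinite.symm f)

@[simp] theorem coeff_toMA {R : Type*} [Semiring R] (f : N → R) (g : N) :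
    (toMA f).coeff g = f g := rfl

theorem toMA_central {R : Type*} [CommRing R] (f : N → R) (hf : IsClassFn f)
    (y : MonoidAlgebra R N) : toMA f * y = y * toMA f := by
  induction y using MonoidAlgebra.induction_linear with
  | zero => simp
  | add a b ha hb => rw [mul_add, add_mul, ha, hb]
  | single x r =>
    apply coeff_injective
    ext g
    rw [coeff_mul_single_eq_coeff_mul (m₁ := g) (m₂ := g * x⁻¹),
      coeff_single_mul_eq_mul_coeff (m₁ := g) (m₂ := x⁻¹ * g)]
    · rw [coeff_toMA, coeff_toMA, mul_comm]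
      congr 1
      have h1 := hf (g * x⁻¹) x⁻¹
      rw [← h1]
      congr 1
      group
    · intro m _; exact eq_inv_mul_iff_mul_eq.symm
    · intro m _; exact eq_mul_inv_iff_mul_eq.symm

open Classical in
theorem coeff_mapDomain_sum {R Q : Type*} [Semiring R] (f : N → Q) (x : MonoidAlgebra R N)
    (q : Q) : (mapDomain f x).coeff q = ∑ g, if f g = q then x.coeff g else 0 := by
  induction x using MonoidAlgebra.induction_linear with
  | zero => simp
  | add a b ha hb =>
    rw [mapDomain_add, coeff_add, Finsupp.add_apply, ha, hb, ← Finset.sum_add_distrib]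
    refine Finset.sum_congr rfl (fun g _ => ?_)
    split_ifs <;> simp
  | single y r =>
    rw [mapDomain_single, coeff_single, Finsupp.single_apply]
    have h1 : ∀ g, (if f g = q then (single y r : MonoidAlgebra R N).coeff g else 0) =
        if g = y then (if f y = q then r else 0) else 0 := by
      intro g
      rw [coeff_single, Finsupp.single_apply]
      by_cases h : g = y
      · subst h; simp
      · have h' : ¬ y = g := fun h' => h h'.symm
        simp [h, h']
    simp only [h1]
    simp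

variable {D : Subgroup N} [D.Normal] {p : ℕ} [Fact p.Prime]
variable {M : Ideal (integralClosure ℤ ℂ)}

theorem charP_quot (hM : M ≠ ⊤) (hp : (p : integralClosure ℤ ℂ) ∈ M) :
    CharP ((integralClosure ℤ ℂ) ⧸ M) p :=
  ⟨fun n => natCast_eq_zero_iff hM hp n⟩

/-- A central element of the integral group ring in the kernel of the reduction of
`R[N] → R[N/D]` is killed by the central characters. -/
theorem red_omHom_eq_zero' (hM : M.IsPrime) (hp : (p : integralClosure ℤ ℂ) ∈ M)
    (hD : ∀ x y : D, x * y = y * x) (hDp : IsPGroup p D)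
    {χ : N → ℂ} (hχ : IsIrrChar χ)
    (w : Subring.center (MonoidAlgebra (integralClosure ℤ ℂ) N))
    (hw : mapDomain (fun g : N => (g : N ⧸ D))
      (mapRingHom N (Ideal.Quotient.mk M) w.1) = 0) :
    red M (omHom hχ w) = 0 := by
  have := charP_quot (p := p) hM.ne_top hp
  let : CommGroup D := { (inferInstance : Group D) with mul_comm := hD }
  obtain ⟨m, hm, hm'⟩ := nilpotent_of_central (k := (integralClosure ℤ ℂ) ⧸ M) (p := p) (N := N)
    D.subtype hDp (D := D) (fun z hz => ⟨⟨z, hz⟩, rfl⟩)
    (mapRingHom N (Ideal.Quotient.mk M) w.1) hw (by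
      intro y
      obtain ⟨y', rfl⟩ : ∃ y', mapRingHom N (Ideal.Quotient.mk M) y' = y := by
        refine ⟨toMA (fun g => (Ideal.Quotient.mk_surjective (y.coeff g)).choose), ?_⟩
        apply coeff_injective
        ext g
        rw [coeff_mapRingHom, coeff_toMA]
        exact (Ideal.Quotient.mk_surjective (y.coeff g)).choose_spec
      rw [← map_mul, ← map_mul, mem_center_iff'.1 w.2 y'])
  exact red_omHom_eq_zero M hM hχ w hm hm'

open Classical in
/-- the class sum, as an element of the center of the integral group ring -/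
noncomputable def clsum (x : N) : Subring.center (MonoidAlgebra (integralClosure ℤ ℂ) N) :=
  ⟨toMA (fun g => if IsConj x g then 1 else 0), mem_center_iff'.2 (toMA_central _ (by
    intro g y
    have h : IsConj g (y * g * y⁻¹) := isConj_iff.2 ⟨y, rfl⟩
    have : IsConj x (y * g * y⁻¹) ↔ IsConj x g :=
      ⟨fun h1 => h1.trans h.symm, fun h1 => h1.trans h⟩
    simp only [this]))⟩

theorem omHom_clsum {χ : N → ℂ} (hχ : IsIrrChar χ) (x : N) : omHom hχ (clsum x) = omega χ x := by
  classical
  rw [omHom_apply, omega_eq_om hχ]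
  congr 1
  ext g
  simp only [cf, clsum, coeff_toMA]
  split_ifs <;> simp

theorem not_mem_centralizer_conj {x g : N} (hx : x ∉ Subgroup.centralizer (D : Set N))
    (h : IsConj x g) : g ∉ Subgroup.centralizer (D : Set N) := by
  intro hg
  apply hx
  obtain ⟨c, hc⟩ := isConj_iff.1 h
  rw [Subgroup.mem_centralizer_iff] at hg ⊢
  intro z hz
  have h1 := hg (c * z * c⁻¹) (‹D.Normal›.conj_mem z hz c)
  rw [← hc] at h1
  have h2 : c * (z * x) * c⁻¹ = c * (x * z) * c⁻¹ := by
    calc c * (z * x) * c⁻¹ = c * z * c⁻¹ * (c * x * c⁻¹) := by group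
      _ = c * x * c⁻¹ * (c * z * c⁻¹) := h1
      _ = c * (x * z) * c⁻¹ := by group
  exact mul_left_cancel (mul_right_cancel h2)

open Classical in
theorem card_class_coset (hDp : IsPGroup p D) {x : N}
    (hx : x ∉ Subgroup.centralizer (D : Set N)) (q : N ⧸ D) :
    p ∣ Nat.card {g : N // IsConj x g ∧ (g : N ⧸ D) = q} := by
  let act : MulAction D {g : N // IsConj x g ∧ (g : N ⧸ D) = q} :=
    { smul := fun z g => ⟨z * g.1 * (z : N)⁻¹, g.2.1.trans (isConj_iff.2 ⟨z, rfl⟩), by
        refine Eq.trans ?_ g.2.2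
        rw [QuotientGroup.eq]
        have h1 : ((z : N) * g.1 * (z : N)⁻¹)⁻¹ * g.1 = z * (g.1⁻¹ * (z : N)⁻¹ * g.1) := by group
        rw [h1]
        exact D.mul_mem z.2 (by
          have := ‹D.Normal›.conj_mem (z : N)⁻¹ (D.inv_mem z.2) g.1⁻¹
          simpa using this)⟩
      one_smul := fun g => by
        apply Subtype.ext
        change (1 : N) * g.1 * (1 : N)⁻¹ = g.1
        simp
      mul_smul := fun z w g => by
        apply Subtype.ext
        change ((z * w : D) : N) * g.1 * ((z * w : D) : N)⁻¹ = z * (w * g.1 * (w : N)⁻¹) * (z : N)⁻¹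
        rw [Subgroup.coe_mul]
        group }
  have h1 := hDp.card_modEq_card_fixedPoints {g : N // IsConj x g ∧ (g : N ⧸ D) = q}
  have h2 : IsEmpty (MulAction.fixedPoints D {g : N // IsConj x g ∧ (g : N ⧸ D) = q}) := by
    constructor
    rintro ⟨g, hg⟩
    apply not_mem_centralizer_conj hx g.2.1
    rw [Subgroup.mem_centralizer_iff]
    intro z hz
    have h3 := hg ⟨z, hz⟩
    have h4 : z * g.1 * z⁻¹ = g.1 := congrArg Subtype.val h3
    calc z * g.1 = z * g.1 * z⁻¹ * z := by group
      _ = g.1 * z := by rw [h4]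
  have h3 : Nat.card (MulAction.fixedPoints D {g : N // IsConj x g ∧ (g : N ⧸ D) = q}) = 0 :=
    Nat.card_of_isEmpty
  rw [h3] at h1
  exact (Nat.modEq_zero_iff_dvd).1 h1

/-- (N1): the central characters vanish outside the centralizer of `D`. -/
theorem red_omega_eq_zero (hM : M.IsPrime) (hp : (p : integralClosure ℤ ℂ) ∈ M)
    (hD : ∀ x y : D, x * y = y * x) (hDp : IsPGroup p D)
    {χ : N → ℂ} (hχ : IsIrrChar χ) {x : N} (hx : x ∉ Subgroup.centralizer (D : Set N)) :
    red M (omega χ x) = 0 := by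
  classical
  rw [← omHom_clsum hχ]
  apply red_omHom_eq_zero' (p := p) (D := D) hM hp hD hDp hχ
  apply coeff_injective
  ext q
  rw [coeff_mapDomain_sum, coeff_zero, Finsupp.zero_apply]
  trans ∑ g : N, if IsConj x g ∧ (g : N ⧸ D) = q then (1 : (integralClosure ℤ ℂ) ⧸ M) else 0
  · refine Finset.sum_congr rfl (fun g _ => ?_)
    rw [coeff_mapRingHom, clsum]
    simp only [coeff_toMA]
    by_cases h2 : (g : N ⧸ D) = q
    · by_cases h3 : IsConj x g <;> simp [h2]
    · simp [h2]
  rw [Finset.sum_boole]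
  have h2 := card_class_coset hDp hx q
  rw [Nat.card_eq_fintype_card, Fintype.card_subtype] at h2
  exact (natCast_eq_zero_iff hM.ne_top hp _).2 h2

theorem red_prod {ι : Type*} (s : Finset ι) (f : ι → ℂ) (hf : ∀ i ∈ s, IsIntegral ℤ (f i)) :
    red M (∏ i ∈ s, f i) = ∏ i ∈ s, red M (f i) := by
  classical
  induction s using Finset.induction_on with
  | empty => simp [red_one]
  | insert a s ha ih =>
    rw [Finset.prod_insert ha, Finset.prod_insert ha, red_mul M (hf a (by simp))
      (IsIntegral.prod _ (fun i hi => hf i (by simp [hi]))), ih (fun i hi => hf i (by simp [hi]))]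

open Classical in
/-- scalars in the center -/
noncomputable def sc (a : integralClosure ℤ ℂ) :
    Subring.center (MonoidAlgebra (integralClosure ℤ ℂ) N) :=
  ⟨single 1 a, mem_center_iff'.2 (fun y => by
    have h := Algebra.commutes (R := integralClosure ℤ ℂ)
      (A := MonoidAlgebra (integralClosure ℤ ℂ) N) a y
    simpa [coe_algebraMap] using h)⟩

theorem omHom_sc {χ : N → ℂ} (hχ : IsIrrChar χ) (a : integralClosure ℤ ℂ) :
    omHom hχ (sc a) = a := by
  classical
  rw [omHom_apply, om]
  have h1 : ∀ g, cf (sc a : Subring.center (MonoidAlgebra (integralClosure ℤ ℂ) N)).1 g * χ g =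
      if g = 1 then (a : ℂ) * χ 1 else 0 := by
    intro g
    simp only [cf, sc, coeff_single, Finsupp.single_apply]
    by_cases h : g = 1
    · subst h; simp
    · rw [if_neg (fun h' => h h'.symm), if_neg h]; simp
  rw [Finset.sum_congr rfl (fun g _ => h1 g), Finset.sum_ite_eq' Finset.univ (1 : N)]
  simp only [Finset.mem_univ, if_true]
  field_simp [hχ.one_ne_zero]

set_option synthInstance.maxHeartbeats 400000 in
theorem omHom_clsum_sub {χ : N → ℂ} (hχ : IsIrrChar χ) (x : N) (a : integralClosure ℤ ℂ) :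
    omHom hχ (clsum x - sc a) = omega χ x - a := by
  rw [RingHom.map_sub, omHom_clsum, omHom_sc]

theorem infl_irr {ψ : N ⧸ D → ℂ} (hψ : IsIrrChar ψ) : IsIrrChar (fun g : N => ψ (g : N ⧸ D)) := by
  obtain ⟨n, ρ, hρ, rfl⟩ := hψ
  let σ : Representation ℂ N (Fin n → ℂ) := ρ.comp (QuotientGroup.mk' D)
  have hσ : σ.IsIrreducible := by
    rw [irreducible_iff] at hρ ⊢
    refine ⟨hρ.1, fun U hU => hρ.2 U ?_⟩
    intro q v hv
    obtain ⟨g, rfl⟩ := QuotientGroup.mk'_surjective D q
    exact hU g v hv
  exact ⟨n, σ, hσ, rfl⟩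

open Classical in
/-- push-forward of a function to the quotient -/
noncomputable def push (D : Subgroup N) (f : N → ℂ) (q : N ⧸ D) : ℂ :=
  ∑ g : N, if (g : N ⧸ D) = q then f g else 0

theorem push_class {f : N → ℂ} (hf : IsClassFn f) : IsClassFn (push D f) := by
  classical
  intro q y
  obtain ⟨x, rfl⟩ := QuotientGroup.mk'_surjective D y
  rw [push, push]
  refine Fintype.sum_equiv (MulAut.conj x⁻¹).toEquiv _ _ (fun g => ?_)
  have h1 : (MulAut.conj x⁻¹).toEquiv g = x⁻¹ * g * x := by simp
  rw [h1]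
  have h2 : f (x⁻¹ * g * x) = f g := by
    have := hf g x⁻¹
    rwa [inv_inv] at this
  rw [h2]
  have h3 : ((x⁻¹ * g * x : N) : N ⧸ D) = q ↔
      (g : N ⧸ D) = (QuotientGroup.mk' D x) * q * (QuotientGroup.mk' D x)⁻¹ := by
    have : ((x⁻¹ * g * x : N) : N ⧸ D) =
      (QuotientGroup.mk' D x)⁻¹ * (g : N ⧸ D) * (QuotientGroup.mk' D x) := rfl
    rw [this]
    constructor
    · rintro rfl; group
    · intro h; rw [h]; group
  simp only [h3]

theorem om_push [Fintype (N ⧸ D)] (f : N → ℂ) (ψ : N ⧸ D → ℂ) :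
    om ψ (push D f) = om (fun g : N => ψ (g : N ⧸ D)) f := by
  classical
  rw [om, om]
  congr 1
  simp only [push, Finset.sum_mul]
  rw [Finset.sum_comm]
  refine Finset.sum_congr rfl (fun g _ => ?_)
  simp only [ite_mul, zero_mul]
  simp

/-- Existence of a character with `D` in its kernel in every block. -/
theorem exists_trivial_on (hM : M.IsPrime) (hp : (p : integralClosure ℤ ℂ) ∈ M)
    (hD : ∀ x y : D, x * y = y * x) (hDp : IsPGroup p D)
    {χ : N → ℂ} (hχ : IsIrrChar χ) :
    ∃ ψ : N ⧸ D → ℂ, IsIrrChar ψ ∧ ∀ x : N,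
      red M (omega (fun g : N => ψ (g : N ⧸ D)) x) = red M (omega χ x) := by
  classical
  by_contra hcon
  push Not at hcon
  have hfin : Fintype (N ⧸ D) := Fintype.ofFinite _
  choose! x hx using hcon
  let S : Finset (N ⧸ D → ℂ) := (irr_finite (G := N ⧸ D)).toFinset
  have hS : ∀ ψ, ψ ∈ S ↔ IsIrrChar ψ := fun ψ => by simp [S]
  let a : (N ⧸ D → ℂ) → integralClosure ℤ ℂ := fun ψ =>
    if h : IsIrrChar ψ then ⟨omega (fun g : N => ψ (g : N ⧸ D)) (x ψ),
      (infl_irr h).isIntegral_omega _⟩ else 0
  have ha : ∀ ψ, IsIrrChar ψ → (a ψ : ℂ) = omega (fun g : N => ψ (g : N ⧸ D)) (x ψ) := by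
    intro ψ h
    simp only [a, dif_pos h]
  let w : Subring.center (MonoidAlgebra (integralClosure ℤ ℂ) N) :=
    ∏ ψ ∈ S, (clsum (x ψ) - sc (a ψ))
  have hw1 : ∀ ψ, IsIrrChar ψ → om (fun g : N => ψ (g : N ⧸ D)) (cf w.1) = 0 := by
    intro ψ hψ
    have h1 : omHom (infl_irr hψ) w = 0 := by
      simp only [w]
      rw [map_prod]
      refine Finset.prod_eq_zero ((hS ψ).2 hψ) ?_
      rw [omHom_clsum_sub, ha ψ hψ, sub_self]
    exact h1
  have hw2 : push D (cf w.1) = 0 := by
    apply class_eq_zero _ (push_class (isClassFn_cf _ (mem_center_iff'.1 w.2)))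
    intro ψ hψ
    rw [om_push, hw1 ψ hψ]
  have hw3 : red M (omHom hχ w) = 0 := by
    apply red_omHom_eq_zero' (p := p) (D := D) hM hp hD hDp hχ
    apply coeff_injective
    ext q
    rw [coeff_mapDomain_sum, coeff_zero, Finsupp.zero_apply]
    have h1 := congrFun hw2 q
    rw [push, Pi.zero_apply] at h1
    have h2 : ∑ g : N, (if (g : N ⧸ D) = q then w.1.coeff g else 0) = 0 := by
      apply Subtype.val_injective
      rw [AddSubmonoidClass.coe_finsetSum, ZeroMemClass.coe_zero, ← h1]
      refine Finset.sum_congr rfl (fun g _ => ?_)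
      by_cases h3 : (g : N ⧸ D) = q
      · simp only [h3, if_true]; rfl
      · simp only [h3, if_false]; rfl
    have h3 := congrArg (Ideal.Quotient.mk M) h2
    rw [map_sum, map_zero] at h3
    refine Eq.trans ?_ h3
    refine Finset.sum_congr rfl (fun g _ => ?_)
    by_cases h4 : (g : N ⧸ D) = q
    · simp only [h4, if_true, coeff_mapRingHom]
    · simp only [h4, if_false, map_zero]
  simp only [w] at hw3
  rw [map_prod, red_prod] at hw3
  · have := Ideal.Quotient.isDomain M
    obtain ⟨ψ, hψ, h0⟩ := Finset.prod_eq_zero_iff.1 hw3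
    have hψ' := (hS ψ).1 hψ
    rw [omHom_clsum_sub, red_sub M (hχ.isIntegral_omega _) (a ψ).2,
      ha ψ hψ', sub_eq_zero] at h0
    exact hx ψ hψ' h0.symm
  · intro ψ _
    rw [omHom_clsum_sub]
    exact (hχ.isIntegral_omega _).sub (a ψ).2

end

end Pool.Agent.DC7914
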