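import Pool.Agent.Work.MP_dc7914_al.Red

/-!
# Central characters
-/

set_option linter.unusedSectionVars false

open Module Representation

namespace Pool.Agent.DC7914

/-- The order of the centralizer of `x`. -/
noncomputable def cen {G : Type*} [Group G] (x : G) : ℕ :=
  Nat.card (Subgroup.centralizer ({x} : Set G))

section

variable {G : Type*} [Group G]

theorem csize_mul_cen [Finite G] (x : G) : csize x * cen x = Nat.card G := by
  classical
  have h2 := MulAction.orbitProdStabilizerEquivGroup (ConjAct G) x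
  have h3 : Nat.card (MulAction.orbit (ConjAct G) x × MulAction.stabilizer (ConjAct G) x)
      = Nat.card (ConjAct G) := Nat.card_congr h2
  rw [Nat.card_prod] at h3
  have h4 : Nat.card (ConjAct G) = Nat.card G := Nat.card_congr ConjAct.ofConjAct.toEquiv
  rw [h4] at h3
  rw [← h3, cen, Subgroup.nat_card_centralizer_nat_card_stabilizer]
  congr 1
  rw [csize]
  apply Nat.card_congr
  apply Equiv.subtypeEquivRight
  intro y
  rw [ConjAct.mem_orbit_conjAct]
  exact ⟨fun h => h.symm, fun h => h.symm⟩

theorem csize_pos [Finite G] (x : G) : 0 < csize x := by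
  have h := csize_mul_cen x
  have hG : 0 < Nat.card G := Nat.card_pos
  rw [← h] at hG
  exact Nat.pos_of_mul_pos_right hG

theorem cen_pos [Finite G] (x : G) : 0 < cen x := by
  have h := csize_mul_cen x
  have hG : 0 < Nat.card G := Nat.card_pos
  rw [← h] at hG
  exact Nat.pos_of_mul_pos_left hG

theorem csize_conj {x y : G} (h : IsConj x y) : csize x = csize y := by
  apply Nat.card_congr
  apply Equiv.subtypeEquivRight
  intro z
  exact ⟨fun h1 => h.symm.trans h1, fun h1 => h.trans h1⟩

theorem cen_conj [Finite G] {x y : G} (h : IsConj x y) : cen x = cen y := by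
  have h1 := csize_mul_cen x
  have h2 := csize_mul_cen y
  rw [csize_conj h] at h1
  rw [← h2] at h1
  exact Nat.eq_of_mul_eq_mul_left (csize_pos y) h1

theorem csize_inv [Finite G] (x : G) : csize x⁻¹ = csize x := by
  apply Nat.card_congr
  refine (Equiv.inv G).subtypeEquiv (fun y => ?_)
  simp only [Equiv.inv_apply, isConj_iff]
  constructor
  · rintro ⟨c, hc⟩
    exact ⟨c, by rw [← hc]; group⟩
  · rintro ⟨c, hc⟩
    exact ⟨c, by rw [← inv_inj, ← hc]; group⟩

theorem cen_inv [Finite G] (x : G) : cen x⁻¹ = cen x := by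
  have h1 := csize_mul_cen x
  have h2 := csize_mul_cen x⁻¹
  rw [csize_inv, ← h1] at h2
  exact Nat.eq_of_mul_eq_mul_left (csize_pos x) h2

/-- `f` is a class function. -/
def IsClassFn {A : Type*} (f : G → A) : Prop := ∀ g x, f (x * g * x⁻¹) = f g

theorem IsClassFn.eq {A : Type*} {f : G → A} (hf : IsClassFn f) {x y : G} (h : IsConj x y) :
    f x = f y := by
  obtain ⟨c, hc⟩ := isConj_iff.1 h
  rw [← hc, hf]

theorem mk_out (K : ConjClasses G) : ConjClasses.mk (Quotient.out K) = K := Quotient.out_eq K

theorem isConj_out (x : G) : IsConj x (Quotient.out (ConjClasses.mk x)) := by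
  rw [← ConjClasses.mk_eq_mk_iff_isConj, mk_out]

open Classical in
/-- The sum of a class function. -/
theorem sum_class [Fintype G] {A : Type*} [AddCommMonoid A] (f : G → A) (hf : IsClassFn f) :
    ∑ g, f g = ∑ K : ConjClasses G, csize (Quotient.out K) • f (Quotient.out K) := by
  rw [← Finset.sum_fiberwise (Finset.univ : Finset G) (ConjClasses.mk) f]
  refine Finset.sum_congr rfl (fun K _ => ?_)
  rw [Finset.sum_congr rfl (g := fun _ => f (Quotient.out K))]
  · rw [Finset.sum_const]
    congr 1
    rw [csize, Nat.card_eq_fintype_card, Fintype.card_subtype]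
    congr 1
    ext g
    simp only [Finset.mem_filter, Finset.mem_univ, true_and]
    constructor
    · intro h
      rw [← ConjClasses.mk_eq_mk_iff_isConj, h, mk_out]
    · intro h
      rw [← ConjClasses.mk_eq_mk_iff_isConj, mk_out] at h
      exact h.symm
  · intro g hg
    simp only [Finset.mem_filter, Finset.mem_univ, true_and] at hg
    apply hf.eq
    rw [← ConjClasses.mk_eq_mk_iff_isConj, mk_out, hg]

/-- The scalar by which `∑ f(g) g` acts. -/
noncomputable def om [Fintype G] (χ f : G → ℂ) : ℂ := (∑ g, f g * χ g) / χ 1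

theorem IsIrrChar.isClassFn {χ : G → ℂ} (h : IsIrrChar χ) : IsClassFn χ := fun g x => h.conj g x

open Classical in
theorem om_eq_sum [Fintype G] {χ f : G → ℂ} (hχ : IsIrrChar χ) (hf : IsClassFn f) :
    om χ f = ∑ K : ConjClasses G, f (Quotient.out K) * omega χ (Quotient.out K) := by
  rw [om, sum_class (fun g => f g * χ g) (fun g x => by simp only [hf g x, hχ.isClassFn g x]),
    Finset.sum_div]
  refine Finset.sum_congr rfl (fun K _ => ?_)
  rw [omega, nsmul_eq_mul]
  ring

open Classical in
theorem omega_eq_om [Fintype G] {χ : G → ℂ} (hχ : IsIrrChar χ) (x : G) :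
    omega χ x = om χ (fun g => if IsConj x g then 1 else 0) := by
  rw [omega, om]
  congr 1
  simp only [ite_mul, one_mul, zero_mul]
  rw [← Finset.sum_filter, Finset.sum_congr rfl (g := fun _ => χ x), Finset.sum_const,
    nsmul_eq_mul]
  · congr 2
    rw [csize, Nat.card_eq_fintype_card, Fintype.card_subtype]
  · intro g hg
    simp only [Finset.mem_filter, Finset.mem_univ, true_and] at hg
    exact (hχ.isClassFn.eq hg).symm

theorem isIntegral_om [Fintype G] {χ f : G → ℂ} (hχ : IsIrrChar χ) (hf : IsClassFn f)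
    (hf' : ∀ g, IsIntegral ℤ (f g)) : IsIntegral ℤ (om χ f) := by
  obtain ⟨n, ρ, hρ, rfl⟩ := hχ
  have := nontrivial_of_irr hρ
  exact isIntegral_scalar ρ f hf' _ (op_eq_smul ρ hρ f (op_comm_of_class ρ f hf))

theorem IsIrrChar.isIntegral_omega [Finite G] {χ : G → ℂ} (hχ : IsIrrChar χ) (x : G) :
    IsIntegral ℤ (omega χ x) := by
  classical
  have := Fintype.ofFinite G
  rw [omega_eq_om hχ]
  apply isIntegral_om hχ
  · intro g y
    have h : IsConj g (y * g * y⁻¹) := isConj_iff.2 ⟨y, rfl⟩
    have : IsConj x (y * g * y⁻¹) ↔ IsConj x g :=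
      ⟨fun h1 => h1.trans h.symm, fun h1 => h1.trans h⟩
    simp only [this]
  · intro g
    split_ifs
    · exact isIntegral_one
    · exact isIntegral_zero

theorem omega_eq [Finite G] {χ : G → ℂ} (hχ : IsIrrChar χ) {x y : G} (h : IsConj x y) :
    omega χ x = omega χ y := by
  rw [omega, omega, csize_conj h, hχ.isClassFn.eq h]

open Classical in
/-- Reduction of `om χ f`, for an integral class function `f`. -/
theorem red_om [Fintype G] (M : Ideal (integralClosure ℤ ℂ)) {χ f : G → ℂ} (hχ : IsIrrChar χ)
    (hf : IsClassFn f) (hf' : ∀ g, IsIntegral ℤ (f g)) :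
    red M (om χ f) = ∑ K : ConjClasses G,
      red M (f (Quotient.out K)) * red M (omega χ (Quotient.out K)) := by
  rw [om_eq_sum hχ hf, red_sum]
  · refine Finset.sum_congr rfl (fun K _ => ?_)
    rw [red_mul M (hf' _) (hχ.isIntegral_omega _)]
  · intro K _
    exact (hf' _).mul (hχ.isIntegral_omega _)

/-- If the class function `f` vanishes mod `M` wherever `ω_χ` does not, `om χ f` vanishes. -/
theorem red_om_eq_zero [Fintype G] (M : Ideal (integralClosure ℤ ℂ)) {χ f : G → ℂ}
    (hχ : IsIrrChar χ) (hf : IsClassFn f) (hf' : ∀ g, IsIntegral ℤ (f g))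
    (h0 : ∀ g, red M (f g) = 0 ∨ red M (omega χ g) = 0) :
    red M (om χ f) = 0 := by
  classical
  rw [red_om M hχ hf hf']
  refine Finset.sum_eq_zero (fun K _ => ?_)
  rcases h0 (Quotient.out K) with h | h <;> simp [h]

theorem om_add [Fintype G] (χ f f' : G → ℂ) : om χ (fun g => f g + f' g) = om χ f + om χ f' := by
  simp only [om, add_mul, Finset.sum_add_distrib, add_div]

end

end Pool.Agent.DC7914
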