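import Pool.Agent.Work.MP_dc7914_al.Char

/-!
# Reduction of algebraic integers modulo a prime of the ring of algebraic integers
-/

set_option linter.unusedSectionVars false

open Module Representation

namespace Pool.Agent.DC7914

/-- the ring of algebraic integers in `ℂ` -/
abbrev AI : Type := integralClosure ℤ ℂ

open Classical in
/-- Reduction of an algebraic integer (and `0` for the other complex numbers). -/
noncomputable def red (M : Ideal (integralClosure ℤ ℂ)) (x : ℂ) : (integralClosure ℤ ℂ) ⧸ M :=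
  if h : IsIntegral ℤ x then Ideal.Quotient.mk M ⟨x, h⟩ else 0

section Red

variable (M : Ideal (integralClosure ℤ ℂ))

theorem red_of (x : ℂ) (h : IsIntegral ℤ x) : red M x = Ideal.Quotient.mk M ⟨x, h⟩ := by
  rw [red, dif_pos h]

theorem red_add {x y : ℂ} (hx : IsIntegral ℤ x) (hy : IsIntegral ℤ y) :
    red M (x + y) = red M x + red M y := by
  rw [red_of M x hx, red_of M y hy, red_of M _ (hx.add hy), ← map_add]; rfl

theorem red_sub {x y : ℂ} (hx : IsIntegral ℤ x) (hy : IsIntegral ℤ y) :
    red M (x - y) = red M x - red M y := by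
  rw [red_of M x hx, red_of M y hy, red_of M _ (hx.sub hy), ← map_sub]; rfl

theorem red_mul {x y : ℂ} (hx : IsIntegral ℤ x) (hy : IsIntegral ℤ y) :
    red M (x * y) = red M x * red M y := by
  rw [red_of M x hx, red_of M y hy, red_of M _ (hx.mul hy), ← map_mul]; rfl

theorem isIntegral_nat (n : ℕ) : IsIntegral ℤ (n : ℂ) := by
  have := isIntegral_algebraMap (R := ℤ) (A := ℂ) (x := (n : ℤ))
  simpa using this

theorem isIntegral_int (n : ℤ) : IsIntegral ℤ (n : ℂ) := by
  have := isIntegral_algebraMap (R := ℤ) (A := ℂ) (x := n)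
  simpa using this

theorem red_nat (n : ℕ) : red M (n : ℂ) = (n : (integralClosure ℤ ℂ) ⧸ M) := by
  rw [red_of M _ (isIntegral_nat n), ← map_natCast (Ideal.Quotient.mk M)]; rfl

theorem red_zero : red M 0 = 0 := by
  have := red_nat M 0
  simpa using this

theorem red_one : red M 1 = 1 := by
  have := red_nat M 1
  simpa using this

theorem red_sum {ι : Type*} (s : Finset ι) (f : ι → ℂ) (hf : ∀ i ∈ s, IsIntegral ℤ (f i)) :
    red M (∑ i ∈ s, f i) = ∑ i ∈ s, red M (f i) := by
  classical
  induction s using Finset.induction_on with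
  | empty => simp [red_zero]
  | insert a s ha ih =>
    rw [Finset.sum_insert ha, Finset.sum_insert ha, red_add M (hf a (by simp))
      (IsIntegral.sum _ (fun i hi => hf i (by simp [hi]))), ih (fun i hi => hf i (by simp [hi]))]

variable {M}

theorem red_eq_zero_iff {x : ℂ} (hx : IsIntegral ℤ x) :
    red M x = 0 ↔ (⟨x, hx⟩ : integralClosure ℤ ℂ) ∈ M := by
  rw [red_of M x hx, Ideal.Quotient.eq_zero_iff_mem]

variable {p : ℕ} [Fact p.Prime]

theorem natCast_eq_zero_iff (hM : M ≠ ⊤) (hp : (p : integralClosure ℤ ℂ) ∈ M) (n : ℕ) :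
    (n : (integralClosure ℤ ℂ) ⧸ M) = 0 ↔ p ∣ n := by
  have hpp : (p : (integralClosure ℤ ℂ) ⧸ M) = 0 := by
    rw [← map_natCast (Ideal.Quotient.mk M)]
    exact Ideal.Quotient.eq_zero_iff_mem.2 hp
  constructor
  · intro h
    by_contra hn
    have hc : Nat.Coprime p n := (Nat.Prime.coprime_iff_not_dvd Fact.out).2 hn
    have h1 := Nat.isCoprime_iff_coprime.2 hc
    obtain ⟨a, b, hab⟩ := h1
    have h2 : ((a * p + b * n : ℤ) : (integralClosure ℤ ℂ) ⧸ M) = 1 := by rw [hab]; simp
    push_cast at h2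
    rw [hpp, h, mul_zero, mul_zero, add_zero] at h2
    have := Ideal.Quotient.nontrivial_iff.2 hM
    exact zero_ne_one h2
  · rintro ⟨k, rfl⟩
    rw [Nat.cast_mul, hpp, zero_mul]

end Red

end Pool.Agent.DC7914
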